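import Mathlib

/-! The Carlitz–Roselle–Scoville identity for descents and inverse descents. -/

open Finset

namespace Pool.Agent.Lib.MP_f98a08_co

/-- number of marked steps -/
def dd {n : ℕ} (S : Fin n → Bool) : ℕ := ∑ k, if S k then 1 else 0

lemma dd_le {n : ℕ} (S : Fin n → Bool) : dd S ≤ n := by
  calc dd S ≤ ∑ _k : Fin n, 1 := Finset.sum_le_sum fun k _ => by split_ifs <;> simp
    _ = n := by simp

lemma dd_succ {n : ℕ} (S : Fin (n+1) → Bool) :
    dd S = dd (fun k : Fin n => S k.castSucc) + if S (Fin.last n) then 1 else 0 := by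
  rw [dd, Fin.sum_univ_castSucc]; rfl

/-- weakly increasing sequences `β 0 ≤ β 1 ≤ … ≤ β n < m` with strict steps where marked -/
def seqs : (n : ℕ) → (Fin n → Bool) → ℕ → Finset (Fin (n+1) → ℕ)
  | 0, _, m => (range m).image fun v _ => v
  | n+1, S, m => (range m).biUnion fun v =>
      (seqs n (fun k => S k.castSucc) (if S (Fin.last n) then v else v+1)).image
        fun β => (Fin.snoc β v : Fin (n+2) → ℕ)

lemma mem_seqs {n : ℕ} (S : Fin n → Bool) (m : ℕ) (β : Fin (n+1) → ℕ) :
    β ∈ seqs n S m ↔ (∀ k : Fin n, β k.castSucc ≤ β k.succ ∧ (S k = true → β k.castSucc < β k.succ))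
      ∧ β (Fin.last n) < m := by
  induction n generalizing m with
  | zero =>
    simp only [seqs, mem_image, mem_range]
    constructor
    · rintro ⟨v, hv, rfl⟩
      exact ⟨fun k => k.elim0, hv⟩
    · rintro ⟨_, h⟩
      refine ⟨β (Fin.last 0), h, ?_⟩
      funext i
      have : i = Fin.last 0 := Fin.ext (by have := i.2; simp)
      rw [this]
  | succ n ih =>
    simp only [seqs, mem_biUnion, mem_image, mem_range]
    constructor
    · rintro ⟨v, hv, γ, hγ, rfl⟩
      rw [ih] at hγ
      refine ⟨?_, by simpa using hv⟩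
      rw [Fin.forall_fin_succ']
      constructor
      · intro k
        have := hγ.1 k
        rw [Fin.succ_castSucc, Fin.snoc_castSucc, Fin.snoc_castSucc]
        exact this
      · have h2 := hγ.2
        rw [Fin.succ_last, Fin.snoc_castSucc, Fin.snoc_last]
        split_ifs at h2 with hS
        · exact ⟨h2.le, fun _ => h2⟩
        · exact ⟨by omega, fun h => absurd h hS⟩
    · rintro ⟨h1, h2⟩
      rw [Fin.forall_fin_succ'] at h1
      refine ⟨β (Fin.last (n+1)), h2, Fin.init β, ?_, Fin.snoc_init_self β⟩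
      rw [ih]
      refine ⟨fun k => ?_, ?_⟩
      · have := h1.1 k
        rw [Fin.succ_castSucc] at this
        exact this
      · have := h1.2
        change β (Fin.last n).castSucc < _
        have e : (Fin.last n).succ = Fin.last (n+1) := Fin.succ_last n
        rw [e] at this
        split_ifs with hS
        · exact this.2 hS
        · have := this.1; omega

lemma hockey (d n m : ℕ) (h : d ≤ n) :
    ∑ v ∈ range m, (v + 1 + n - d).choose (n+1) = (m + (n+1) - d).choose (n+2) := by
  induction m with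
  | zero => simp; rw [Nat.choose_eq_zero_of_lt]; omega
  | succ m ih =>
    rw [Finset.sum_range_succ, ih]
    have e : m + 1 + (n+1) - d = (m + (n+1) - d) + 1 := by omega
    rw [e, Nat.choose_succ_succ' (m + (n+1) - d) (n+1)]
    have e2 : m + 1 + n - d = m + (n+1) - d := by omega
    rw [e2]; ring

lemma hockey' (d n m : ℕ) (h : d ≤ n) :
    ∑ v ∈ range m, (v + n - d).choose (n+1) = (m + (n+1) - (d+1)).choose (n+2) := by
  induction m with
  | zero => simp; rw [Nat.choose_eq_zero_of_lt]; omega
  | succ m ih =>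
    rw [Finset.sum_range_succ, ih]
    have e : m + 1 + (n+1) - (d+1) = (m + (n+1) - (d+1)) + 1 := by omega
    rw [e, Nat.choose_succ_succ' (m + (n+1) - (d+1)) (n+1)]
    have e2 : m + n - d = m + (n+1) - (d+1) := by omega
    rw [e2]; ring

lemma card_seqs {n : ℕ} (S : Fin n → Bool) (m : ℕ) :
    (seqs n S m).card = (m + n - dd S).choose (n+1) := by
  induction n generalizing m with
  | zero =>
    rw [seqs, card_image_of_injective, card_range]
    · simp [dd]
    · intro a b hab
      exact congrFun hab 0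
  | succ n ih =>
    rw [seqs, card_biUnion]
    · have hinj : ∀ v : ℕ, Function.Injective fun β : Fin (n+1) → ℕ =>
          (Fin.snoc β v : Fin (n+2) → ℕ) := by
        intro v a b hab
        have : Fin.init (Fin.snoc a v : Fin (n+2) → ℕ) = Fin.init (Fin.snoc b v : Fin (n+2) → ℕ) := by
          exact congrArg Fin.init hab
        simpa [Fin.init_snoc] using this
      simp only [card_image_of_injective _ (hinj _), ih]
      rw [dd_succ S]
      have hd := dd_le (fun k : Fin n => S k.castSucc)
      by_cases hS : S (Fin.last n) = true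
      · simp only [hS, if_true]
        rw [hockey' _ _ _ hd]
      · simp only [hS]
        simp only [Bool.false_eq_true, if_false, add_zero]
        rw [hockey _ _ _ hd]
    · intro v _ w _ hvw
      rw [Function.onFun, disjoint_left]
      intro β hβ hβ'
      simp only [mem_image] at hβ hβ'
      obtain ⟨a, _, rfl⟩ := hβ
      obtain ⟨b, _, hb⟩ := hβ'
      have := congrFun hb (Fin.last (n+1))
      simp at this
      exact hvw this.symm

/-- descent set of a sequence -/
def dsc {n : ℕ} {α : Type*} [LT α] [DecidableLT α] (b : Fin (n+1) → α) : Fin n → Bool :=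
  fun k => decide (b k.succ < b k.castSucc)

/-- all sequences with values `< j` -/
def allS (n j : ℕ) : Finset (Fin (n+1) → ℕ) := Fintype.piFinset fun _ => range j

lemma mem_allS {n j : ℕ} (b : Fin (n+1) → ℕ) : b ∈ allS n j ↔ ∀ k, b k < j := by
  simp [allS, Fintype.mem_piFinset]

lemma last_max {n : ℕ} {S : Fin n → Bool} {m : ℕ} {β : Fin (n+1) → ℕ} (h : β ∈ seqs n S m)
    (k : Fin (n+1)) : β k < m := by
  rw [mem_seqs] at h
  have hm : Monotone β := Fin.monotone_iff_le_succ.mpr fun i => (h.1 i).1
  exact (hm (Fin.le_last k)).trans_lt h.2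

/-- Counting pairs of sequences. -/
lemma pair_count (n i j : ℕ) :
    ∑ b ∈ allS n j, (seqs n (dsc b) i).card = (i*j + n).choose (n+1) := by
  rcases Nat.eq_zero_or_pos j with hj | hj
  · subst hj
    have : allS n 0 = ∅ := by
      ext b; rw [mem_allS]; simp
    rw [this]; simp
  have e : (i*j + n).choose (n+1) = (seqs n (fun _ => false) (i*j)).card := by
    rw [card_seqs]; simp [dd]
  rw [e, ← card_sigma]
  refine card_bij' (fun x _ => fun k => x.2 k * j + x.1 k)
    (fun c _ => ⟨fun k => c k % j, fun k => c k / j⟩) ?_ ?_ ?_ ?_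
  · rintro ⟨b, a⟩ h
    simp only [mem_sigma, mem_allS, mem_seqs] at h ⊢
    obtain ⟨hb, h1, h2⟩ := h
    refine ⟨fun k => ⟨?_, by simp⟩, ?_⟩
    · obtain ⟨h3, h4⟩ := h1 k
      simp only [dsc, decide_eq_true_eq] at h4
      rcases lt_or_ge (b k.succ) (b k.castSucc) with h5 | h5
      · have := h4 h5
        have h6 := hb k.castSucc
        nlinarith
      · nlinarith
    · have := hb (Fin.last n)
      nlinarith
  · intro c h
    simp only [mem_sigma, mem_allS, mem_seqs] at h ⊢
    refine ⟨fun k => Nat.mod_lt _ hj, fun k => ⟨Nat.div_le_div_right (h.1 k).1, ?_⟩, ?_⟩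
    · simp only [dsc, decide_eq_true_eq]
      intro h5
      by_contra h6
      push Not at h6
      have h7 := Nat.div_add_mod (c k.castSucc) j
      have h8 := Nat.div_add_mod (c k.succ) j
      have h9 := (h.1 k).1
      have h10 : j * (c k.succ / j) ≤ j * (c k.castSucc / j) := Nat.mul_le_mul_left _ h6
      omega
    · exact Nat.div_lt_of_lt_mul (by rw [mul_comm]; exact h.2)
  · rintro ⟨b, a⟩ h
    simp only [mem_sigma, mem_allS] at h
    have h1 : ∀ k, (a k * j + b k) % j = b k := fun k => by
      rw [mul_comm, Nat.mul_add_mod, Nat.mod_eq_of_lt (h.1 k)]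
    have h2 : ∀ k, (a k * j + b k) / j = a k := fun k => by
      rw [mul_comm, Nat.mul_add_div hj, Nat.div_eq_of_lt (h.1 k), add_zero]
    simp only [h1, h2]
  · intro c _
    funext k
    simp only
    rw [mul_comm]; exact Nat.div_add_mod _ _

section sort

lemma sort_iff {n : ℕ} (f : Fin (n+1) → ℕ) (σ : Equiv.Perm (Fin (n+1))) :
    Tuple.sort f = σ ↔ StrictMono fun m => toLex (f (σ m), σ m) := by
  rw [eq_comm, Tuple.eq_sort_iff]
  constructor
  · rintro ⟨h1, h2⟩ a b hab
    rw [Prod.Lex.toLex_lt_toLex]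
    rcases (h1 hab.le).eq_or_lt with h | h
    · exact Or.inr ⟨h, h2 a b hab h⟩
    · exact Or.inl h
  · intro h
    constructor
    · apply monotone_iff_forall_lt.mpr
      intro a b hab
      have := h hab
      rw [Prod.Lex.toLex_lt_toLex] at this
      rcases this with h | h
      · exact h.le
      · exact h.1.le
    · intro a b hab he
      have := h hab
      rw [Prod.Lex.toLex_lt_toLex] at this
      rcases this with h | h
      · exact absurd h (by simp [he])
      · exact h.2

lemma sort_iff' {n : ℕ} (f : Fin (n+1) → ℕ) (σ : Equiv.Perm (Fin (n+1))) :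
    Tuple.sort f = σ ↔ ∀ k : Fin n, (f ∘ σ) k.castSucc ≤ (f ∘ σ) k.succ ∧
      (dsc σ k = true → (f ∘ σ) k.castSucc < (f ∘ σ) k.succ) := by
  rw [sort_iff, Fin.strictMono_iff_lt_succ]
  refine forall_congr' fun k => ?_
  rw [Prod.Lex.toLex_lt_toLex]
  simp only [dsc, decide_eq_true_eq, Function.comp]
  have hne : σ k.castSucc ≠ σ k.succ := by
    intro h
    have := σ.injective h
    exact absurd this (Fin.castSucc_lt_succ).ne
  constructor
  · rintro (h | ⟨h, h2⟩)
    · exact ⟨h.le, fun _ => h⟩
    · exact ⟨h.le, fun h3 => absurd h3 (not_lt.mpr h2.le)⟩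
  · rintro ⟨h1, h2⟩
    rcases h1.eq_or_lt with h | h
    · right
      refine ⟨h, ?_⟩
      by_contra h3
      have := h2 (lt_of_le_of_ne (not_lt.mp h3) hne.symm)
      omega
    · left; exact h

lemma dsc_sort {n : ℕ} (f : Fin (n+1) → ℕ) : dsc f = dsc (⇑(Tuple.sort f)⁻¹) := by
  funext k
  have h := (sort_iff f (Tuple.sort f)).mp rfl
  simp only [dsc, decide_eq_decide]
  set σ := Tuple.sort f
  have h1 := h.lt_iff_lt (a := σ⁻¹ k.castSucc) (b := σ⁻¹ k.succ)
  have hs : ∀ x, σ (σ⁻¹ x) = x := fun x => by simp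
  simp only [hs] at h1
  rw [Prod.Lex.toLex_lt_toLex] at h1
  have hlt : k.castSucc < k.succ := Fin.castSucc_lt_succ
  have hne : σ⁻¹ k.castSucc ≠ σ⁻¹ k.succ := by
    intro he
    exact absurd (σ⁻¹.injective he) hlt.ne
  constructor
  · intro h2
    by_contra h3
    have h4 : σ⁻¹ k.castSucc < σ⁻¹ k.succ := lt_of_le_of_ne (not_lt.mp h3) hne
    rcases h1.mpr h4 with h5 | h5
    · simp only at h5; omega
    · simp only at h5; omega
  · intro h2
    by_contra h3
    have h4 : σ⁻¹ k.castSucc < σ⁻¹ k.succ := by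
      rw [← h1]
      rcases (not_lt.mp h3).eq_or_lt with h5 | h5
      · exact Or.inr ⟨h5, hlt⟩
      · exact Or.inl h5
    exact absurd h4 (not_lt.mpr h2.le)

lemma card_sort_fiber {n : ℕ} (j : ℕ) (σ : Equiv.Perm (Fin (n+1))) :
    ((allS n j).filter fun b => Tuple.sort b = σ).card = (seqs n (dsc σ) j).card := by
  refine card_bij' (fun b _ => b ∘ σ) (fun β _ => β ∘ ⇑σ⁻¹) ?_ ?_ ?_ ?_
  · intro b hb
    rw [mem_filter, mem_allS] at hb
    rw [mem_seqs]
    exact ⟨(sort_iff' b σ).mp hb.2, hb.1 _⟩
  · intro β hβ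
    rw [mem_filter, mem_allS]
    refine ⟨fun k => last_max hβ _, ?_⟩
    rw [sort_iff']
    rw [mem_seqs] at hβ
    have : (β ∘ ⇑σ⁻¹) ∘ ⇑σ = β := by funext k; simp
    rw [this]
    exact hβ.1
  · intro b _; funext k; simp
  · intro b _; funext k; simp

/-- **Carlitz–Roselle–Scoville** (finite form). -/
theorem crs (n i j : ℕ) : (i*j + n).choose (n+1)
    = ∑ σ : Equiv.Perm (Fin (n+1)), (i + n - dd (dsc ⇑σ⁻¹)).choose (n+1)
        * (j + n - dd (dsc σ)).choose (n+1) := by
  rw [← pair_count]
  rw [← Finset.sum_fiberwise_of_maps_to (s := allS n j) (t := univ) (g := fun b => Tuple.sort b)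
    (fun b _ => mem_univ _)]
  refine Finset.sum_congr rfl fun σ _ => ?_
  have : ∀ b ∈ (allS n j).filter (fun b => Tuple.sort b = σ),
      (seqs n (dsc b) i).card = (i + n - dd (dsc ⇑σ⁻¹)).choose (n+1) := by
    intro b hb
    rw [mem_filter] at hb
    rw [card_seqs, dsc_sort, hb.2]
  rw [Finset.sum_congr rfl this, Finset.sum_const, card_sort_fiber, card_seqs, smul_eq_mul,
    mul_comm]

end sort

end Pool.Agent.Lib.MP_f98a08_co
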