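import Mathlib

/-! Definitions for the comparison of Gessel-type and separable-permutation gamma coefficients. -/

namespace Pool.Agent.Lib.MP_f98a08_co

noncomputable section

/-- `des σ`: number of descents of the word `σ 0, σ 1, …, σ (n-1)`, i.e. of the positions `i`
whose next position `j = i + 1` exists and satisfies `σ j < σ i`.  (With the convention
`π_{n+1} = +∞` the last position is never a descent.) -/
def des {n : ℕ} (σ : Equiv.Perm (Fin n)) : ℕ :=
  (Finset.univ.filter fun i : Fin n => ∃ j : Fin n, (j : ℕ) = i + 1 ∧ σ j < σ i).card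

/-- `ides σ = des (σ⁻¹)`. -/
def ides {n : ℕ} (σ : Equiv.Perm (Fin n)) : ℕ := des σ⁻¹

/-- The two-sided Eulerian polynomial `∑_σ s^{ides σ} t^{des σ}`, with `s = X 0`, `t = X 1`. -/
def biEulerian (n : ℕ) : MvPolynomial (Fin 2) ℤ :=
  ∑ σ : Equiv.Perm (Fin n), MvPolynomial.X 0 ^ ides σ * MvPolynomial.X 1 ^ des σ

/-- `γ i j` (`i, j ≥ 0`, `2 i + j ≤ n - 1`) are the two-variable gamma coefficients:
`∑_σ s^{ides σ} t^{des σ} = ∑ γ i j (s t)^i (1 + s t)^j (s + t)^{n-1-j-2i}`. -/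
def IsTwoSidedGamma (n : ℕ) (γ : ℕ → ℕ → ℤ) : Prop :=
  biEulerian n = ∑ p ∈ (Finset.range n ×ˢ Finset.range n).filter fun p => 2 * p.1 + p.2 ≤ n - 1,
    MvPolynomial.C (γ p.1 p.2) * (MvPolynomial.X 0 * MvPolynomial.X 1) ^ p.1
      * (1 + MvPolynomial.X 0 * MvPolynomial.X 1) ^ p.2
      * (MvPolynomial.X 0 + MvPolynomial.X 1) ^ (n - 1 - p.2 - 2 * p.1)

/-- A permutation is separable if it avoids the patterns `2413` and `3142`. -/
def IsSeparablePerm {n : ℕ} (σ : Equiv.Perm (Fin n)) : Prop :=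
  (∀ a b c d : Fin n, a < b → b < c → c < d → ¬ (σ c < σ a ∧ σ a < σ d ∧ σ d < σ b)) ∧
  (∀ a b c d : Fin n, a < b → b < c → c < d → ¬ (σ b < σ d ∧ σ d < σ a ∧ σ a < σ c))

open Classical in
/-- The descent polynomial `S_n(t)` of separable permutations. -/
def sepPoly (n : ℕ) : Polynomial ℤ :=
  ∑ σ ∈ Finset.univ.filter (fun σ : Equiv.Perm (Fin n) => IsSeparablePerm σ), Polynomial.X ^ des σ

/-- `g k` (`0 ≤ k ≤ (n-1)/2`) are the gamma coefficients of `S_n(t)`:
`S_n(t) = ∑_k g k t^k (1+t)^{n-1-2k}`. -/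
def IsSeparableGamma (n : ℕ) (g : ℕ → ℤ) : Prop :=
  sepPoly n = ∑ k ∈ (Finset.range n).filter fun k => 2 * k ≤ n - 1,
    Polynomial.C (g k) * Polynomial.X ^ k * (1 + Polynomial.X) ^ (n - 1 - 2 * k)

end

end Pool.Agent.Lib.MP_f98a08_co
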