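import Mathlib

/-! Algebra of products over lists of roots, used for the two-sided Eulerian polynomials. -/

open Polynomial

namespace Pool.Agent.Lib.MP_f98a08_co

noncomputable section

/-- the quadratic factor `(1-e)^2 + 16 e Y` -/
def pe (e : ℝ) : ℝ[X] := C ((1-e)^2) + C (16*e) * X

def PP : List ℝ → ℝ[X]
  | [] => 1
  | e :: L => pe e * PP L

def AA : List ℝ → ℝ[X]
  | [] => 0
  | e :: L => pe e * AA L + C (1-e) * PP L

def BB : List ℝ → ℝ[X]
  | [] => 0
  | e :: L => pe e * BB L + C (e*(1-e)) * PP L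

def CC : List ℝ → ℝ[X]
  | [] => 0
  | e :: L => pe e * CC L + C (1-e) * BB L + C (e*(1-e)) * AA L

def SS : List ℝ → ℝ[X]
  | [] => 0
  | e :: L => pe e * SS L + C (16*(1+e)) * X * PP L

def MM : List ℝ → ℝ[X]
  | [] => 0
  | e :: L => pe e * MM L + C (8*(1+e)) * X * SS L + C (32*(1-e)) * X * (1 - 4*X) * AA L
      + 16 * X * PP L

/-- the Euler operator `Y d/dY` -/
def Th (p : ℝ[X]) : ℝ[X] := X * derivative p

lemma Th_mul (p q : ℝ[X]) : Th (p*q) = Th p * q + p * Th q := by
  simp only [Th, derivative_mul]; ring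

lemma Th_add (p q : ℝ[X]) : Th (p+q) = Th p + Th q := by
  simp only [Th, derivative_add]; ring

lemma Th_pe (e : ℝ) : Th (pe e) = C (16*e) * X := by
  rw [Th, pe, derivative_add, derivative_mul, derivative_C, derivative_C, derivative_X]
  ring

lemma Th_CX (c : ℝ) : Th (C c * X) = C c * X := by
  rw [Th, derivative_mul, derivative_C, derivative_X]
  ring

lemma coeff_Th (p : ℝ[X]) (k : ℕ) : (Th p).coeff k = k * p.coeff k := by
  cases k with
  | zero => simp [Th]
  | succ k => simp [Th, coeff_derivative]; ring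

lemma AA_eq (L : List ℝ) : AA L = BB L + C (L.length : ℝ) * PP L - Th (PP L) := by
  induction L with
  | nil => simp [AA, BB, PP, Th]
  | cons e L ih =>
    simp only [AA, BB, PP, List.length_cons, Th_mul, Th_pe, ih]
    simp only [pe, map_add, map_sub, map_mul, map_pow, map_one, Nat.cast_add, Nat.cast_one]
    ring

lemma SS_eq (L : List ℝ) : SS L = 16 * X * AA L + 2 * Th (PP L) := by
  induction L with
  | nil => simp [AA, SS, PP, Th]
  | cons e L ih =>
    simp only [AA, SS, PP, Th_mul, Th_pe, ih]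
    simp only [pe, map_add, map_sub, map_mul, map_pow, map_one]
    have h16 : (C (16:ℝ) : ℝ[X]) = 16 := rfl
    rw [h16]
    ring

lemma key0 (L : List ℝ) :
    PP L + SS L + MM L = PP L + 2 * Th (PP L) + Th (Th (PP L))
      + 16 * C (L.length + 1 : ℝ) * X * (C (L.length : ℝ) * PP L - Th (PP L))
      + 16 * X * (C (L.length + 1 : ℝ) * BB L + CC L) := by
  induction L with
  | nil => simp [MM, SS, PP, Th, BB, CC]
  | cons e L ih =>
    have hA := AA_eq L
    have hS := SS_eq L
    have hM : MM L = 2 * Th (PP L) + Th (Th (PP L))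
      + 16 * C (L.length + 1 : ℝ) * X * (C (L.length : ℝ) * PP L - Th (PP L))
      + 16 * X * (C (L.length + 1 : ℝ) * BB L + CC L) - SS L := by
      linear_combination ih
    have hT : Th (Th (pe e * PP L)) = C (16*e) * X * PP L + 2 * (C (16*e) * X * Th (PP L))
        + pe e * Th (Th (PP L)) := by
      rw [Th_mul, Th_add, Th_mul, Th_mul, Th_pe, Th_CX]; ring
    simp only [MM, SS, PP, BB, CC, List.length_cons, hT]
    simp only [Th_mul, Th_pe, hM, hS, hA]
    simp only [pe, map_add, map_sub, map_mul, map_pow, map_one, Nat.cast_add, Nat.cast_one]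
    have h16 : (C (16:ℝ) : ℝ[X]) = 16 := rfl
    have h8 : (C (8:ℝ) : ℝ[X]) = 8 := rfl
    have h32 : (C (32:ℝ) : ℝ[X]) = 32 := rfl
    rw [h16, h8, h32]
    ring

lemma key1 (L : List ℝ) :
    (1 + 12 * X) * PP L + (1 + 4 * X) * SS L + 16 * X * (1 - 4 * X) * AA L + MM L
      = PP L + 2 * Th (PP L) + Th (Th (PP L))
      + 4 * X * (C (2 * L.length + 3 : ℝ) * PP L
        + 2 * C (2 * L.length + 3 : ℝ) * (C (L.length : ℝ) * PP L - Th (PP L))
        + 4 * C (L.length + 2 : ℝ) * BB L + 4 * CC L) := by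
  have h0 := key0 L
  have hA := AA_eq L
  have hS := SS_eq L
  have hM : MM L = 2 * Th (PP L) + Th (Th (PP L))
      + 16 * C (L.length + 1 : ℝ) * X * (C (L.length : ℝ) * PP L - Th (PP L))
      + 16 * X * (C (L.length + 1 : ℝ) * BB L + CC L) - SS L := by
      linear_combination h0
  rw [hM, hS, hA]
  simp only [map_add, map_mul, map_one]
  have h2 : (C (2:ℝ) : ℝ[X]) = 2 := rfl
  have h3 : (C (3:ℝ) : ℝ[X]) = 3 := rfl
  rw [h2, h3]
  ring

/-- nonnegative coefficients -/
def NN (p : ℝ[X]) : Prop := ∀ k, 0 ≤ p.coeff k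

lemma NN.add {p q : ℝ[X]} (hp : NN p) (hq : NN q) : NN (p+q) := fun k => by
  rw [coeff_add]; exact add_nonneg (hp k) (hq k)

lemma NN.mul {p q : ℝ[X]} (hp : NN p) (hq : NN q) : NN (p*q) := fun k => by
  rw [coeff_mul]; exact Finset.sum_nonneg fun x _ => mul_nonneg (hp _) (hq _)

lemma NN_C {c : ℝ} (hc : 0 ≤ c) : NN (C c) := fun k => by
  rw [coeff_C]; split_ifs <;> simp [hc]

lemma NN_X : NN (X : ℝ[X]) := fun k => by
  rw [coeff_X]; split_ifs <;> simp

lemma NN_zero : NN (0 : ℝ[X]) := fun k => by simp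

lemma NN_one : NN (1 : ℝ[X]) := fun k => by rw [coeff_one]; split_ifs <;> simp

lemma NN_pe {e : ℝ} (he : 0 ≤ e) : NN (pe e) :=
  (NN_C (sq_nonneg _)).add ((NN_C (by positivity)).mul NN_X)

lemma NN_PP {L : List ℝ} (h : ∀ e ∈ L, 0 ≤ e ∧ e ≤ 1) : NN (PP L) := by
  induction L with
  | nil => exact NN_one
  | cons e L ih =>
    exact (NN_pe (h e (by simp)).1).mul (ih fun x hx => h x (by simp [hx]))

lemma NN_AA {L : List ℝ} (h : ∀ e ∈ L, 0 ≤ e ∧ e ≤ 1) : NN (AA L) := by
  induction L with
  | nil => exact NN_zero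
  | cons e L ih =>
    have h' : ∀ x ∈ L, 0 ≤ x ∧ x ≤ 1 := fun x hx => h x (by simp [hx])
    have he := h e (by simp)
    exact ((NN_pe he.1).mul (ih h')).add ((NN_C (by linarith [he.2])).mul (NN_PP h'))

lemma NN_BB {L : List ℝ} (h : ∀ e ∈ L, 0 ≤ e ∧ e ≤ 1) : NN (BB L) := by
  induction L with
  | nil => exact NN_zero
  | cons e L ih =>
    have h' : ∀ x ∈ L, 0 ≤ x ∧ x ≤ 1 := fun x hx => h x (by simp [hx])
    have he := h e (by simp)
    exact ((NN_pe he.1).mul (ih h')).add
      ((NN_C (mul_nonneg he.1 (by linarith [he.2]))).mul (NN_PP h'))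

lemma NN_CC {L : List ℝ} (h : ∀ e ∈ L, 0 ≤ e ∧ e ≤ 1) : NN (CC L) := by
  induction L with
  | nil => exact NN_zero
  | cons e L ih =>
    have h' : ∀ x ∈ L, 0 ≤ x ∧ x ≤ 1 := fun x hx => h x (by simp [hx])
    have he := h e (by simp)
    exact (((NN_pe he.1).mul (ih h')).add ((NN_C (by linarith [he.2])).mul (NN_BB h'))).add
      ((NN_C (mul_nonneg he.1 (by linarith [he.2]))).mul (NN_AA h'))

/-- product of linear factors -/
def GG (L : List ℝ) : ℝ[X] := (L.map fun e => X - C e).prod

lemma GG_cons (e : ℝ) (L : List ℝ) : GG (e :: L) = (X - C e) * GG L := by simp [GG]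

section eval
variable {K : Type*} [CommRing K] [Algebra ℝ K] (v v' y : K)

lemma aeval_pe (hv : v * v' = 1) (hy : 16 * y = 2 - v - v') (e : ℝ) :
    (v - algebraMap ℝ K e) * (v' - algebraMap ℝ K e) = aeval y (pe e) := by
  have : aeval y (pe e) = (1 - algebraMap ℝ K e)^2 + 16 * algebraMap ℝ K e * y := by
    simp [pe, map_ofNat]
  rw [this]
  linear_combination hv - algebraMap ℝ K e * hy

lemma aeval_GG (hv : v * v' = 1) (hy : 16 * y = 2 - v - v') (L : List ℝ) :
    aeval v (GG L) * aeval v' (GG L) = aeval y (PP L) := by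
  induction L with
  | nil => simp [GG, PP]
  | cons e L ih =>
    have h1 := aeval_pe v v' y hv hy e
    simp only [GG_cons, PP, map_mul, map_sub, aeval_X, aeval_C] at *
    rw [← h1, ← ih]; ring

lemma aeval_SMN (hv : v * v' = 1) (hy : 16 * y = 2 - v - v') (L : List ℝ) :
    ((v-1) * aeval v (derivative (GG L)) * aeval v' (GG L)
      + (v'-1) * aeval v (GG L) * aeval v' (derivative (GG L)) = aeval y (SS L)) ∧
    ((v-1) * aeval v (derivative (GG L)) * aeval v' (GG L)
      - (v'-1) * aeval v (GG L) * aeval v' (derivative (GG L)) = (v - v') * aeval y (AA L)) ∧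
    ((v-1) * aeval v (derivative (GG L)) * ((v'-1) * aeval v' (derivative (GG L)))
      = aeval y (MM L)) := by
  induction L with
  | nil => simp [GG, SS, AA, MM]
  | cons e L ih =>
    obtain ⟨hS, hN, hM⟩ := ih
    have hP := aeval_GG v v' y hv hy L
    have h1 := aeval_pe v v' y hv hy e
    simp only [GG_cons, SS, AA, MM, derivative_mul, derivative_sub, derivative_X, derivative_C,
      sub_zero, one_mul, map_mul, map_sub, map_add, aeval_X, aeval_C, map_one, map_ofNat] at *
    set E := algebraMap ℝ K e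
    set g := aeval v (GG L)
    set g' := aeval v' (GG L)
    set d := aeval v (derivative (GG L))
    set d' := aeval v' (derivative (GG L))
    set S := aeval y (SS L)
    set A := aeval y (AA L)
    set M := aeval y (MM L)
    set P := aeval y (PP L)
    set p := aeval y (pe e)
    have hw : (v-1)*(v'-1) = 16 * y := by linear_combination hv - hy
    have hww : (v - v')^2 = 64 * y * (4 * y - 1) := by
      have h3 : v + v' = 2 - 16 * y := by linear_combination hy
      linear_combination (v + v' + 2 - 16*y) * h3 - 4 * hv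
    have hXZ : (v'-1)*(v-E) + (v-1)*(v'-E) = 16*(1+E)*y := by
      linear_combination 2 * hv - (1+E) * hy
    refine ⟨?_, ?_, ?_⟩
    · rw [← h1, ← hS, ← hP]
      linear_combination (g * g') * hXZ
    · rw [← h1, ← hP]
      linear_combination ((v - E) * (v' - E)) * hN
    · have h2u : IsUnit (2:K) := by
        have : algebraMap ℝ K (1/2) * 2 = 1 := by
          rw [← map_ofNat (algebraMap ℝ K) 2, ← map_mul]; norm_num
        exact IsUnit.of_mul_eq_one _ (by rw [mul_comm]; exact this)
      apply h2u.mul_left_cancel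
      have e1 : 2 * ((v - 1) * (g + (v - E) * d) * ((v' - 1) * (g' + (v' - E) * d')))
        = 2 * (((v-1)*(v'-1)) * (g*g')) + 2 * (((v-E)*(v'-E)) * ((v-1)*d*((v'-1)*d')))
          + (((v - 1) * d * g' + (v' - 1) * g * d') * ((v'-1)*(v-E) + (v-1)*(v'-E))
            + ((v - 1) * d * g' - (v' - 1) * g * d') * ((1-E)*(v'-v))) := by ring
      rw [e1, hw, hP, h1, hM, hXZ, hS, hN]
      linear_combination (-(1-E)*A) * hww

end eval

end

end Pool.Agent.Lib.MP_f98a08_co
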