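import Mathlib
import Pool.Agent.Lib.MP_f98a08_co.RootAlg

/-! Real-rootedness of the (shifted) tangent-type polynomials and the key coefficient inequality. -/

open Polynomial

namespace Pool.Agent.Lib.MP_f98a08_co

noncomputable section

lemma splits_derivative {p : ℝ[X]} (h : p.Splits) : (derivative p).Splits := by
  by_cases h0 : p.natDegree = 0
  · rw [derivative_of_natDegree_zero h0]; exact Splits.zero
  rw [splits_iff_card_roots] at h ⊢
  have h1 := card_roots_le_derivative p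
  have h2 := card_roots' (derivative p)
  have h3 : (derivative p).natDegree = p.natDegree - 1 := natDegree_derivative p
  omega

lemma comp_sq_ne_zero {q : ℝ[X]} (hq : q ≠ 0) : q.comp (X^2) ≠ 0 := by
  intro h
  rw [comp_eq_zero_iff] at h
  rcases h with h | ⟨_, h⟩
  · exact hq h
  · have := congrArg natDegree h
    simp at this

lemma splits_of_comp_sq {q : ℝ[X]} (hq : q ≠ 0) (h : (q.comp (X^2)).Splits) :
    q.Splits ∧ ∀ x, q.IsRoot x → 0 ≤ x := by
  constructor
  · rw [splits_iff_splits]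
    right
    intro g hg hgq
    obtain ⟨r, hr⟩ := hgq
    have hg0 : g ≠ 0 := hg.ne_zero
    have hdvd : g.comp (X^2) ∣ q.comp (X^2) := ⟨r.comp (X^2), by rw [hr, mul_comp]⟩
    have hs : (g.comp (X^2)).Splits := h.of_dvd (comp_sq_ne_zero hq) hdvd
    have hdeg : (g.comp (X^2)).degree ≠ 0 := by
      rw [degree_eq_natDegree (comp_sq_ne_zero hg0), natDegree_comp]
      have : g.natDegree ≠ 0 := (Irreducible.natDegree_pos hg).ne'
      simp [this]
    obtain ⟨w, hw⟩ := hs.exists_eval_eq_zero hdeg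
    rw [eval_comp] at hw
    exact degree_eq_one_of_irreducible_of_root hg hw
  · intro x hx
    obtain ⟨r, hr⟩ := dvd_iff_isRoot.mpr hx
    have hdvd : (X - C x).comp (X^2) ∣ q.comp (X^2) := ⟨r.comp (X^2), by
      conv_lhs => rw [hr]
      rw [mul_comp]⟩
    have hs : ((X - C x).comp (X^2)).Splits := h.of_dvd (comp_sq_ne_zero hq) hdvd
    have hdeg : ((X - C x).comp (X^2) : ℝ[X]).degree ≠ 0 := by
      rw [degree_eq_natDegree (comp_sq_ne_zero (X_sub_C_ne_zero x)), natDegree_comp]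
      simp
    obtain ⟨w, hw⟩ := hs.exists_eval_eq_zero hdeg
    simp at hw
    nlinarith [sq_nonneg w]

lemma comp_sq_splits {q : ℝ[X]} (h : q.Splits) (hx : ∀ x, q.IsRoot x → 0 ≤ x) :
    (q.comp (X^2)).Splits := by
  by_cases hq : q = 0
  · rw [hq, zero_comp]; exact Splits.zero
  rw [h.eq_prod_roots, mul_comp, C_comp]
  apply Splits.mul (Splits.C _)
  rw [multiset_prod_comp]
  apply Splits.multisetProd
  intro f hf
  rw [Multiset.map_map] at hf
  obtain ⟨a, ha, rfl⟩ := Multiset.mem_map.mp hf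
  have ha0 : 0 ≤ a := hx a (isRoot_of_mem_roots ha)
  have : (X - C a).comp (X^2) = (X - C (Real.sqrt a)) * (X + C (Real.sqrt a)) := by
    simp only [sub_comp, X_comp, C_comp]
    have h2 : C a = C (Real.sqrt a) * C (Real.sqrt a) := by
      rw [← C_mul, Real.mul_self_sqrt ha0]
    rw [h2]; ring
  simp only [Function.comp]
  rw [this]
  exact (Splits.X_sub_C _).mul (Splits.X_add_C _)

/-- even-index polynomials -/
def EE : ℕ → ℝ[X]
  | 0 => 1
  | j+1 => C (1/2) * (3*X-1) * (EE j + (X-1) * derivative (EE j))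
      + X * (X-1) * derivative (EE j + (X-1) * derivative (EE j))

/-- odd-index polynomials -/
def OO (j : ℕ) : ℝ[X] := EE j + (X-1) * derivative (EE j)

lemma EE_succ (j : ℕ) : EE (j+1) = C (1/2) * (3*X-1) * OO j + X * (X-1) * derivative (OO j) := rfl

lemma OO_eq (j : ℕ) : OO j = derivative ((X-1) * EE j) := by
  rw [OO, derivative_mul, derivative_sub, derivative_X, derivative_one]; ring

lemma natDegree_aux (j : ℕ) : ((EE j).natDegree ≤ j ∧ 0 < (EE j).coeff j) ∧
    ((OO j).natDegree ≤ j ∧ 0 < (OO j).coeff j) := by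
  have hO : ∀ j, ((EE j).natDegree ≤ j ∧ 0 < (EE j).coeff j) →
      ((OO j).natDegree ≤ j ∧ 0 < (OO j).coeff j) := by
    intro j ⟨h1, h2⟩
    have hd : (derivative (EE j)).natDegree ≤ j - 1 :=
      (natDegree_derivative_le _).trans (by omega)
    have hz : (EE j).coeff (j+1) = 0 := coeff_eq_zero_of_natDegree_lt (by omega)
    constructor
    · rw [OO]
      rcases Nat.eq_zero_or_pos j with hj | hj
      · subst hj
        have : derivative (EE 0) = 0 := by simp [EE]
        rw [this, mul_zero, add_zero]; exact h1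
      have hx : (X - 1 : ℝ[X]).natDegree ≤ 1 := by
        rw [← C_1]; exact (natDegree_X_sub_C_le _)
      have hm : ((X-1) * derivative (EE j)).natDegree ≤ j :=
        natDegree_mul_le.trans (by omega)
      exact (natDegree_add_le_of_le h1 hm).trans (by simp)
    · have : (OO j).coeff j = (j+1) * (EE j).coeff j := by
        rw [OO, coeff_add, sub_mul, one_mul, coeff_sub, coeff_derivative, hz]
        rcases Nat.eq_zero_or_pos j with hj | hj
        · subst hj; simp [EE]
        · obtain ⟨i, rfl⟩ : ∃ i, j = i+1 := ⟨j-1, by omega⟩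
          rw [coeff_X_mul, coeff_derivative]; push_cast; ring
      rw [this]; positivity
  have hE : ∀ j, ((OO j).natDegree ≤ j ∧ 0 < (OO j).coeff j) →
      ((EE (j+1)).natDegree ≤ j+1 ∧ 0 < (EE (j+1)).coeff (j+1)) := by
    intro j ⟨h1, h2⟩
    have hd : (derivative (OO j)).natDegree ≤ j - 1 :=
      (natDegree_derivative_le _).trans (by omega)
    have hz : (OO j).coeff (j+1) = 0 := coeff_eq_zero_of_natDegree_lt (by omega)
    have hz2 : (OO j).coeff (j+2) = 0 := coeff_eq_zero_of_natDegree_lt (by omega)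
    have e1 : EE (j+1) = C (3/2) * (X * OO j) - C (1/2) * OO j + X * (X * derivative (OO j))
        - X * derivative (OO j) := by
      rw [EE_succ]
      have : (C (3/2) : ℝ[X]) = C (1/2) * 3 := by
        rw [show (3:ℝ[X]) = C 3 from rfl, ← C_mul]; norm_num
      rw [this]; ring
    constructor
    · rw [EE_succ]
      refine natDegree_add_le_of_le (n := j+1) (m := j+1) ?_ ?_ |>.trans (by simp)
      · refine natDegree_mul_le.trans ?_
        have : (C (1/2) * (3*X-1) : ℝ[X]).natDegree ≤ 1 := by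
          have : (C (1/2) * (3*X-1) : ℝ[X]) = C (3/2) * X + C (-1/2) := by
            have h3 : (3:ℝ[X]) = C 3 := rfl
            rw [h3, mul_sub, ← mul_assoc, ← C_mul, mul_one, sub_eq_add_neg, ← C_neg]; norm_num
          rw [this]; exact natDegree_linear_le
        omega
      · rcases Nat.eq_zero_or_pos j with hj | hj
        · subst hj
          have : derivative (OO 0) = 0 := by simp [OO, EE]
          rw [this, mul_zero, natDegree_zero]; omega
        refine natDegree_mul_le.trans ?_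
        have : (X * (X-1) : ℝ[X]).natDegree ≤ 2 := by
          refine natDegree_mul_le.trans ?_
          have : (X - 1 : ℝ[X]).natDegree ≤ 1 := by
            rw [← C_1]; exact (natDegree_X_sub_C_le _)
          have := natDegree_X_le (R := ℝ)
          omega
        omega
    · have : (EE (j+1)).coeff (j+1) = (j + 3/2) * (OO j).coeff j := by
        rw [e1]
        simp only [coeff_add, coeff_sub, coeff_C_mul, coeff_X_mul, hz]
        rw [coeff_derivative, hz]
        rcases Nat.eq_zero_or_pos j with hj | hj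
        · subst hj; simp [OO, EE]
        · obtain ⟨i, rfl⟩ : ∃ i, j = i+1 := ⟨j-1, by omega⟩
          rw [coeff_X_mul, coeff_derivative]; push_cast; ring
      rw [this]; positivity
  induction j with
  | zero =>
    have h0 : ((EE 0).natDegree ≤ 0 ∧ 0 < (EE 0).coeff 0) := by simp [EE]
    exact ⟨h0, hO 0 h0⟩
  | succ j ih =>
    exact ⟨hE j ih.2, hO _ (hE j ih.2)⟩

lemma EE_ne_zero (j : ℕ) : EE j ≠ 0 := by
  intro h
  have := (natDegree_aux j).1.2
  rw [h] at this; simp at this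

lemma OO_ne_zero (j : ℕ) : OO j ≠ 0 := by
  intro h
  have := (natDegree_aux j).2.2
  rw [h] at this; simp at this

lemma natDegree_EE (j : ℕ) : (EE j).natDegree = j :=
  le_antisymm (natDegree_aux j).1.1 (le_natDegree_of_ne_zero (natDegree_aux j).1.2.ne')

lemma natDegree_OO (j : ℕ) : (OO j).natDegree = j :=
  le_antisymm (natDegree_aux j).2.1 (le_natDegree_of_ne_zero (natDegree_aux j).2.2.ne')

lemma comp_rel (j : ℕ) : (EE (j+1)).comp (X^2)
    = C (1/2) * derivative ((X^2-1) * X * (OO j).comp (X^2)) := by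
  rw [EE_succ, derivative_mul, derivative_mul, derivative_comp]
  simp only [add_comp, mul_comp, sub_comp, C_comp, X_comp, one_comp, ofNat_comp, derivative_sub,
    derivative_X_pow, derivative_one, derivative_X]
  have h : (C (1/2) : ℝ[X]) * 2 = 1 := by
    rw [show (2:ℝ[X]) = C 2 from rfl, ← C_mul]; norm_num
  push_cast
  simp only [map_ofNat, Nat.add_one_sub_one, pow_one, sub_zero]
  linear_combination (-X^2 * (X^2-1) * (derivative (OO j)).comp (X^2)) * h

lemma comp_rel0 (j : ℕ) : X * (OO j).comp (X^2)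
    = C (1/2) * derivative ((X^2-1) * (EE j).comp (X^2)) := by
  rw [OO, derivative_mul, derivative_comp]
  simp only [add_comp, mul_comp, sub_comp, X_comp, one_comp, derivative_sub,
    derivative_X_pow, derivative_one]
  have h : (C (1/2) : ℝ[X]) * 2 = 1 := by
    rw [show (2:ℝ[X]) = C 2 from rfl, ← C_mul]; norm_num
  push_cast
  simp only [map_ofNat, pow_one, sub_zero]
  linear_combination (-(X * (EE j).comp (X^2)) - X * (X^2-1) * (derivative (EE j)).comp (X^2)) * h

lemma splits_X2m1 : (X^2 - 1 : ℝ[X]).Splits := by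
  have : (X^2 - 1 : ℝ[X]) = (X - C 1) * (X + C 1) := by rw [C_1]; ring
  rw [this]; exact (Splits.X_sub_C _).mul (Splits.X_add_C _)

lemma splits_EO (j : ℕ) : ((EE j).Splits ∧ ∀ x, (EE j).IsRoot x → 0 ≤ x) ∧
    ((OO j).Splits ∧ ∀ x, (OO j).IsRoot x → 0 ≤ x) := by
  have hO : ∀ j, ((EE j).Splits ∧ ∀ x, (EE j).IsRoot x → 0 ≤ x) →
      ((OO j).Splits ∧ ∀ x, (OO j).IsRoot x → 0 ≤ x) := by
    intro j ⟨h1, h2⟩
    have h3 := comp_sq_splits h1 h2
    have h4 : (X * (OO j).comp (X^2)).Splits := by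
      rw [comp_rel0]
      exact (splits_derivative (splits_X2m1.mul h3)).C_mul _
    rw [splits_X_mul] at h4
    exact splits_of_comp_sq (OO_ne_zero j) h4
  have hE : ∀ j, ((OO j).Splits ∧ ∀ x, (OO j).IsRoot x → 0 ≤ x) →
      ((EE (j+1)).Splits ∧ ∀ x, (EE (j+1)).IsRoot x → 0 ≤ x) := by
    intro j ⟨h1, h2⟩
    have h3 := comp_sq_splits h1 h2
    have h4 : ((EE (j+1)).comp (X^2)).Splits := by
      rw [comp_rel]
      exact (splits_derivative ((splits_X2m1.mul Splits.X).mul h3)).C_mul _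
    exact splits_of_comp_sq (EE_ne_zero (j+1)) h4
  induction j with
  | zero =>
    have h0 : ((EE 0).Splits ∧ ∀ x, (EE 0).IsRoot x → 0 ≤ x) := by
      refine ⟨by simp only [EE]; exact Splits.one, fun x hx => ?_⟩
      simp [EE, IsRoot] at hx
    exact ⟨h0, hO 0 h0⟩
  | succ j ih => exact ⟨hE j ih.2, hO _ (hE j ih.2)⟩

/-- nonnegative Taylor coefficients at `1`. -/
def T1 (p : ℝ[X]) : Prop := NN (taylor 1 p)

lemma NN_derivative {p : ℝ[X]} (h : NN p) : NN (derivative p) := fun k => by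
  rw [coeff_derivative]; exact mul_nonneg (h _) (by positivity)

lemma taylor_derivative' (p : ℝ[X]) : taylor 1 (derivative p) = derivative (taylor 1 p) := by
  rw [taylor_apply, taylor_apply, derivative_comp]; simp

lemma T1_EO (j : ℕ) : (T1 (EE j) ∧ (EE j).eval 1 = 1) ∧ (T1 (OO j) ∧ (OO j).eval 1 = 1) := by
  have hO : ∀ j, (T1 (EE j) ∧ (EE j).eval 1 = 1) → (T1 (OO j) ∧ (OO j).eval 1 = 1) := by
    intro j ⟨h1, h2⟩
    constructor
    · have : taylor 1 (OO j) = taylor 1 (EE j) + X * derivative (taylor 1 (EE j)) := by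
        rw [OO, map_add, taylor_mul, map_sub, taylor_X, taylor_one, taylor_derivative']; simp
      rw [T1, this]
      exact h1.add (NN_X.mul (NN_derivative h1))
    · simp [OO, h2]
  have hE : ∀ j, (T1 (OO j) ∧ (OO j).eval 1 = 1) → (T1 (EE (j+1)) ∧ (EE (j+1)).eval 1 = 1) := by
    intro j ⟨h1, h2⟩
    constructor
    · have : taylor 1 (EE (j+1)) = (C 1 + C (3/2) * X) * taylor 1 (OO j)
          + (X + X * X) * derivative (taylor 1 (OO j)) := by
        rw [EE_succ, map_add, taylor_mul, taylor_mul, taylor_mul, taylor_mul, map_sub, map_sub,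
          taylor_mul, taylor_X, taylor_one, taylor_derivative', taylor_C]
        have h3 : taylor (1:ℝ) (3:ℝ[X]) = 3 := taylor_C 1 3
        have h4 : (C (3/2) : ℝ[X]) = C (1/2) * 3 := by
          rw [show (3:ℝ[X]) = C 3 from rfl, ← C_mul]; norm_num
        have h : (C (1/2) : ℝ[X]) * 2 = 1 := by
          rw [show (2:ℝ[X]) = C 2 from rfl, ← C_mul]; norm_num
        rw [h3, h4, C_1]
        linear_combination (taylor 1 (OO j)) * h
      rw [T1, this]
      exact (((NN_C zero_le_one).add ((NN_C (by norm_num)).mul NN_X)).mul h1).add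
        ((NN_X.add (NN_X.mul NN_X)).mul (NN_derivative h1))
    · rw [EE_succ]; simp [h2]; norm_num
  induction j with
  | zero =>
    have h0 : T1 (EE 0) ∧ (EE 0).eval 1 = 1 := by
      refine ⟨?_, by simp [EE]⟩
      rw [T1, EE, taylor_one, C_1]; exact NN_one
    exact ⟨h0, hO 0 h0⟩
  | succ j ih => exact ⟨hE j ih.2, hO _ (hE j ih.2)⟩

lemma NN_eval {p : ℝ[X]} (h : NN p) {x : ℝ} (hx : 0 ≤ x) : p.coeff 0 ≤ p.eval x := by
  rw [eval_eq_sum_range, Finset.sum_range_succ']
  have : 0 ≤ ∑ k ∈ Finset.range p.natDegree, p.coeff (k+1) * x^(k+1) :=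
    Finset.sum_nonneg fun k _ => mul_nonneg (h _) (pow_nonneg hx _)
  simp only [pow_zero, mul_one]; linarith

lemma root_le_one {p : ℝ[X]} (h : T1 p) (h1 : p.eval 1 = 1) {x : ℝ} (hx : p.IsRoot x) : x ≤ 1 := by
  by_contra hlt
  push Not at hlt
  have h2 := NN_eval h (x := x - 1) (by linarith)
  rw [taylor_eval, taylor_coeff_zero, h1] at h2
  rw [show x - 1 + 1 = x by ring] at h2
  rw [IsRoot] at hx
  linarith

/-- roots lists -/
def LE' (j : ℕ) : List ℝ := (EE j).roots.toList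
def LO' (j : ℕ) : List ℝ := (OO j).roots.toList
def cE (j : ℕ) : ℝ := (EE j).leadingCoeff
def cO (j : ℕ) : ℝ := (OO j).leadingCoeff

lemma eq_GG {p : ℝ[X]} (h : p.Splits) : p = C p.leadingCoeff * GG p.roots.toList := by
  conv_lhs => rw [h.eq_prod_roots]
  rw [GG, ← Multiset.prod_coe, ← Multiset.map_coe, Multiset.coe_toList]

lemma EE_eq (j : ℕ) : EE j = C (cE j) * GG (LE' j) := eq_GG (splits_EO j).1.1
lemma OO_eq' (j : ℕ) : OO j = C (cO j) * GG (LO' j) := eq_GG (splits_EO j).2.1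

lemma length_LE (j : ℕ) : (LE' j).length = j := by
  rw [LE', Multiset.length_toList, ← (splits_EO j).1.1.natDegree_eq_card_roots, natDegree_EE]

lemma length_LO (j : ℕ) : (LO' j).length = j := by
  rw [LO', Multiset.length_toList, ← (splits_EO j).2.1.natDegree_eq_card_roots, natDegree_OO]

lemma mem_LE {j : ℕ} : ∀ e ∈ LE' j, 0 ≤ e ∧ e ≤ 1 := by
  intro e he
  rw [LE', Multiset.mem_toList] at he
  have hr := isRoot_of_mem_roots he
  exact ⟨(splits_EO j).1.2 e hr, root_le_one (T1_EO j).1.1 (T1_EO j).1.2 hr⟩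

lemma mem_LO {j : ℕ} : ∀ e ∈ LO' j, 0 ≤ e ∧ e ≤ 1 := by
  intro e he
  rw [LO', Multiset.mem_toList] at he
  have hr := isRoot_of_mem_roots he
  exact ⟨(splits_EO j).2.2 e hr, root_le_one (T1_EO j).2.1 (T1_EO j).2.2 hr⟩

/-- The polynomials `P_l(Y)`, `l = n+1`. -/
def TE (j : ℕ) : ℝ[X] := C (cE j ^ 2) * PP (LE' j)
def TO (j : ℕ) : ℝ[X] := C (cO j ^ 2) * PP (LO' j)

section ev
variable {K : Type*} [CommRing K] [Algebra ℝ K] (v v' y : K)

lemma aeval_TE (hv : v * v' = 1) (hy : 16 * y = 2 - v - v') (j : ℕ) :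
    aeval v (EE j) * aeval v' (EE j) = aeval y (TE j) := by
  have h := aeval_GG v v' y hv hy (LE' j)
  rw [TE, EE_eq, map_mul, map_mul, map_mul, ← h]
  simp only [aeval_C, map_pow]; ring

lemma aeval_TO (hv : v * v' = 1) (hy : 16 * y = 2 - v - v') (j : ℕ) :
    aeval v (OO j) * aeval v' (OO j) = aeval y (TO j) := by
  have h := aeval_GG v v' y hv hy (LO' j)
  rw [TO, OO_eq', map_mul, map_mul, map_mul, ← h]
  simp only [aeval_C, map_pow]; ring

lemma aeval_TO' (hv : v * v' = 1) (hy : 16 * y = 2 - v - v') (j : ℕ) :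
    aeval v (OO j) * aeval v' (OO j)
      = aeval y (C (cE j ^ 2) * (PP (LE' j) + SS (LE' j) + MM (LE' j))) := by
  have h := aeval_GG v v' y hv hy (LE' j)
  obtain ⟨hS, _, hM⟩ := aeval_SMN v v' y hv hy (LE' j)
  rw [OO, EE_eq, derivative_C_mul]
  simp only [map_mul, map_add, map_sub, aeval_X, aeval_C, map_one, map_pow]
  rw [← h, ← hS, ← hM]; ring

lemma aeval_TE' (hv : v * v' = 1) (hy : 16 * y = 2 - v - v') (j : ℕ) :
    aeval v (EE (j+1)) * aeval v' (EE (j+1))
      = aeval y (C (cO j ^ 2) * ((1 + 12 * X) * PP (LO' j) + (1 + 4 * X) * SS (LO' j)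
        + 16 * X * (1 - 4 * X) * AA (LO' j) + MM (LO' j))) := by
  have h := aeval_GG v v' y hv hy (LO' j)
  obtain ⟨hS, hN, hM⟩ := aeval_SMN v v' y hv hy (LO' j)
  rw [EE_succ, OO_eq', derivative_C_mul]
  simp only [map_mul, map_add, map_sub, aeval_X, aeval_C, map_one, map_pow, map_ofNat]
  have hh : (algebraMap ℝ K) (1/2) * 2 = 1 := by
    rw [← map_ofNat (algebraMap ℝ K) 2, ← map_mul]; norm_num
  set g := aeval v (GG (LO' j))
  set g' := aeval v' (GG (LO' j))
  set d := aeval v (derivative (GG (LO' j)))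
  set d' := aeval v' (derivative (GG (LO' j)))
  set S := aeval y (SS (LO' j))
  set A := aeval y (AA (LO' j))
  set M := aeval y (MM (LO' j))
  set P := aeval y (PP (LO' j))
  set t := (algebraMap ℝ K) (1/2)
  set c := (algebraMap ℝ K) (cO j)
  have hww : (v - v')^2 = 64 * y * (4 * y - 1) := by
    have h3 : v + v' = 2 - 16 * y := by linear_combination hy
    linear_combination (v + v' + 2 - 16*y) * h3 - 4 * hv
  have ha : (v - 1) * d * g' = t * (S + (v - v') * A) := by
    linear_combination (-((v - 1) * d * g')) * hh + t * hS + t * hN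
  have hb : (v' - 1) * g * d' = t * (S - (v - v') * A) := by
    linear_combination (-((v' - 1) * g * d')) * hh + t * hS - t * hN
  have e0 : (3*v-1)*(3*v'-1) = 4+48*y := by linear_combination 9 * hv - 3 * hy
  have h4 : t * t * 4 = 1 := by linear_combination (t * 2 + 1) * hh
  have e1 : (t * (3 * v - 1) * (c * g) + v * (v - 1) * (c * d)) *
      (t * (3 * v' - 1) * (c * g') + v' * (v' - 1) * (c * d'))
      = c * c * (t * t * ((3*v-1)*(3*v'-1)) * (g * g')
        + t * (3 * (v * v') - v') * ((v' - 1) * g * d') + t * (3 * (v * v') - v)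
          * ((v - 1) * d * g') + (v * v') * ((v - 1) * d * ((v' - 1) * d'))) := by ring
  rw [e1, e0, hv, ha, hb, h, hM]
  linear_combination c^2 * ((1+12*y)*P*h4 - t^2*S*hy + (1+4*y)*S*h4 - t^2*A*hww
    + 16*y*(1-4*y)*A*h4)

end ev

/-- Polynomials agreeing at all `Y(v) = (2 - v - 1/v)/16`, `v > 0`, are equal. -/
lemma eq_of_eval {p q : ℝ[X]}
    (h : ∀ v v' y : ℝ, v * v' = 1 → 16 * y = 2 - v - v' → aeval y p = aeval y q) : p = q := by
  apply Polynomial.eq_of_infinite_eval_eq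
  refine Set.infinite_of_injective_forall_mem (f := fun n : ℕ => (2 - ((n:ℝ)+1) - ((n:ℝ)+1)⁻¹)/16)
    ?_ ?_
  · intro a b hab
    have ha : (0:ℝ) < (a:ℝ)+1 := by positivity
    have hb : (0:ℝ) < (b:ℝ)+1 := by positivity
    have h1 : ((a:ℝ)+1) + ((a:ℝ)+1)⁻¹ = ((b:ℝ)+1) + ((b:ℝ)+1)⁻¹ := by
      simp only at hab; linarith
    have h2 : (((a:ℝ)+1) - ((b:ℝ)+1)) * (((a:ℝ)+1) * ((b:ℝ)+1) - 1) = 0 := by
      field_simp at h1
      linear_combination h1
    rcases mul_eq_zero.mp h2 with h3 | h3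
    · have : (a:ℝ) = b := by linarith
      exact_mod_cast this
    · have ha' : (0:ℝ) ≤ a := Nat.cast_nonneg a
      have hb' : (0:ℝ) ≤ b := Nat.cast_nonneg b
      have h4 : (a:ℝ) = 0 := by nlinarith [mul_nonneg ha' hb']
      have h5 : (b:ℝ) = 0 := by nlinarith [mul_nonneg ha' hb']
      have : (a:ℝ) = b := by linarith
      exact_mod_cast this
  · intro n
    have hn : (0:ℝ) < (n:ℝ)+1 := by positivity
    have := h ((n:ℝ)+1) ((n:ℝ)+1)⁻¹ ((2 - ((n:ℝ)+1) - ((n:ℝ)+1)⁻¹)/16)
      (mul_inv_cancel₀ hn.ne') (by ring)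
    simpa [aeval_def, eval₂_eq_eval_map] using this

lemma TO_eq (j : ℕ) : TO j = C (cE j ^ 2) * (PP (LE' j) + SS (LE' j) + MM (LE' j)) :=
  eq_of_eval fun v v' y hv hy => by rw [← aeval_TO v v' y hv hy, ← aeval_TO' v v' y hv hy]

lemma TE_succ (j : ℕ) : TE (j+1) = C (cO j ^ 2) * ((1 + 12 * X) * PP (LO' j)
    + (1 + 4 * X) * SS (LO' j) + 16 * X * (1 - 4 * X) * AA (LO' j) + MM (LO' j)) :=
  eq_of_eval fun v v' y hv hy => by rw [← aeval_TE v v' y hv hy, ← aeval_TE' v v' y hv hy]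

lemma TE_zero : TE 0 = 1 :=
  eq_of_eval fun v v' y hv hy => by
    rw [← aeval_TE v v' y hv hy]; simp [EE]

lemma natDegree_PP (L : List ℝ) : (PP L).natDegree ≤ L.length := by
  induction L with
  | nil => simp [PP]
  | cons e L ih =>
    have h1 : (pe e).natDegree ≤ 1 := by
      rw [pe, add_comm]; exact natDegree_linear_le
    rw [PP, List.length_cons]
    exact natDegree_mul_le.trans (by omega)

lemma NN_TE (j : ℕ) : NN (TE j) := (NN_C (sq_nonneg _)).mul (NN_PP mem_LE)
lemma NN_TO (j : ℕ) : NN (TO j) := (NN_C (sq_nonneg _)).mul (NN_PP mem_LO)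

lemma TE_coeff_eq_zero {j k : ℕ} (h : j < k) : (TE j).coeff k = 0 := by
  rw [TE, coeff_C_mul, coeff_eq_zero_of_natDegree_lt, mul_zero]
  have := natDegree_PP (LE' j); rw [length_LE] at this; omega

lemma TO_coeff_eq_zero {j k : ℕ} (h : j < k) : (TO j).coeff k = 0 := by
  rw [TO, coeff_C_mul, coeff_eq_zero_of_natDegree_lt, mul_zero]
  have := natDegree_PP (LO' j); rw [length_LO] at this; omega

lemma coeff_zero_TO (j : ℕ) : (TO j).coeff 0 = (TE j).coeff 0 := by
  rw [TO_eq, key0, TE]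
  simp only [mul_add, coeff_add, mul_comm, coeff_C_mul, coeff_mul_C]
  simp [mul_coeff_zero, coeff_Th]

lemma coeff_zero_TE (j : ℕ) : (TE (j+1)).coeff 0 = (TO j).coeff 0 := by
  rw [TE_succ, key1, TO]
  simp [mul_coeff_zero, coeff_Th]

/-- The key inequality, odd to even. -/
lemma TO_ge (j k : ℕ) : (k+2 : ℝ)^2 * (TE j).coeff (k+1)
    + 4 * (2*j+2) * (2*j - 2*k) * (TE j).coeff k ≤ (TO j).coeff (k+1) := by
  rw [TO_eq, key0, TE]
  have e1 : C (cE j ^ 2) * (PP (LE' j) + 2 * Th (PP (LE' j)) + Th (Th (PP (LE' j)))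
      + 16 * C ((LE' j).length + 1 : ℝ) * X * (C ((LE' j).length : ℝ) * PP (LE' j) - Th (PP (LE' j)))
      + 16 * X * (C ((LE' j).length + 1 : ℝ) * BB (LE' j) + CC (LE' j)))
    = C (cE j ^ 2) * (PP (LE' j) + C 2 * Th (PP (LE' j)) + Th (Th (PP (LE' j)))
      + X * (C (16 * (j+1) : ℝ) * (C (j : ℝ) * PP (LE' j) - Th (PP (LE' j))))
      + X * (C 16 * (C (j + 1 : ℝ) * BB (LE' j) + CC (LE' j)))) := by
    rw [length_LE, show (C (2:ℝ) : ℝ[X]) = 2 from rfl, show (C (16:ℝ) : ℝ[X]) = 16 from rfl,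
      C_mul, show (C (16:ℝ) : ℝ[X]) = 16 from rfl]
    ring
  rw [e1]
  simp only [coeff_C_mul, coeff_add, coeff_X_mul, coeff_sub, coeff_Th]
  have hB := NN_BB (mem_LE (j := j)) k
  have hC := NN_CC (mem_LE (j := j)) k
  have hc := sq_nonneg (cE j)
  push_cast
  have : 0 ≤ cE j ^ 2 * (16 * ((j+1) * (BB (LE' j)).coeff k + (CC (LE' j)).coeff k)) := by
    positivity
  nlinarith

lemma TE_ge (j k : ℕ) : (k+2 : ℝ)^2 * (TO j).coeff (k+1)
    + 4 * (2*j+3) * (2*j + 1 - 2*k) * (TO j).coeff k ≤ (TE (j+1)).coeff (k+1) := by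
  rw [TE_succ, key1, TO]
  have e1 : C (cO j ^ 2) * (PP (LO' j) + 2 * Th (PP (LO' j)) + Th (Th (PP (LO' j)))
      + 4 * X * (C (2 * (LO' j).length + 3 : ℝ) * PP (LO' j)
        + 2 * C (2 * (LO' j).length + 3 : ℝ) * (C ((LO' j).length : ℝ) * PP (LO' j)
            - Th (PP (LO' j)))
        + 4 * C ((LO' j).length + 2 : ℝ) * BB (LO' j) + 4 * CC (LO' j)))
    = C (cO j ^ 2) * (PP (LO' j) + C 2 * Th (PP (LO' j)) + Th (Th (PP (LO' j)))
      + X * (C 4 * (C (2 * j + 3 : ℝ) * PP (LO' j)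
        + C 2 * (C (2 * j + 3 : ℝ) * (C (j : ℝ) * PP (LO' j)
            - Th (PP (LO' j))))
        + C 4 * (C (j + 2 : ℝ) * BB (LO' j)) + C 4 * CC (LO' j)))) := by
    rw [length_LO, show (C (2:ℝ) : ℝ[X]) = 2 from rfl, show (C (4:ℝ) : ℝ[X]) = 4 from rfl]
    ring
  rw [e1]
  simp only [coeff_C_mul, coeff_add, coeff_X_mul, coeff_sub, coeff_Th]
  have hB := NN_BB (mem_LO (j := j)) k
  have hC := NN_CC (mem_LO (j := j)) k
  have hc := sq_nonneg (cO j)
  push_cast
  have : 0 ≤ cO j ^ 2 * (4 * (4 * ((j+2) * (BB (LO' j)).coeff k) + 4 * (CC (LO' j)).coeff k)) := by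
    positivity
  nlinarith

/-- unified family: `Tau n = P_{n+1}`. -/
def Tau (n : ℕ) : ℝ[X] := if n % 2 = 0 then TE (n/2) else TO (n/2)

lemma Tau_even (j : ℕ) : Tau (2*j) = TE j := by simp [Tau]
lemma Tau_odd (j : ℕ) : Tau (2*j+1) = TO j := by
  have h1 : (2*j+1) % 2 = 1 := by omega
  have h2 : (2*j+1)/2 = j := by omega
  simp [Tau, h1, h2]

lemma Tau_nonneg (n k : ℕ) : 0 ≤ (Tau n).coeff k := by
  rw [Tau]; split_ifs
  · exact NN_TE _ _
  · exact NN_TO _ _

lemma Tau_eq_zero {n k : ℕ} (h : n < 2*k) : (Tau n).coeff k = 0 := by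
  rw [Tau]; split_ifs
  · exact TE_coeff_eq_zero (by omega)
  · exact TO_coeff_eq_zero (by omega)

lemma Tau_coeff_zero (n : ℕ) : (Tau n).coeff 0 = 1 := by
  have h : ∀ j, (TE j).coeff 0 = 1 := by
    intro j
    induction j with
    | zero => rw [TE_zero]; simp
    | succ j ih => rw [coeff_zero_TE, coeff_zero_TO, ih]
  rw [Tau]; split_ifs
  · exact h _
  · rw [coeff_zero_TO, h]

theorem Tau_step (n k : ℕ) : (k+2 : ℝ)^2 * (Tau n).coeff (k+1)
    + 4 * (n+2) * (n - 2*k) * (Tau n).coeff k ≤ (Tau (n+1)).coeff (k+1) := by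
  rcases Nat.even_or_odd' n with ⟨j, rfl | rfl⟩
  · rw [Tau_even, Tau_odd]
    have := TO_ge j k
    push_cast; linarith
  · rw [Tau_odd, show 2*j+1+1 = 2*(j+1) by ring, Tau_even]
    have := TE_ge j k
    push_cast
    calc _ = (k+2 : ℝ)^2 * (TO j).coeff (k+1)
        + 4 * (2*j+3) * (2*j + 1 - 2*k) * (TO j).coeff k := by ring
      _ ≤ _ := this

theorem Tau_step' (n k : ℕ) : (k+1 : ℝ)^2 * (Tau n).coeff k ≤ (Tau (n+1)).coeff k := by
  cases k with
  | zero => simp [Tau_coeff_zero]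
  | succ k =>
    have h := Tau_step n k
    have h2 : 0 ≤ 4 * ((n:ℝ)+2) * (n - 2*k) * (Tau n).coeff k := by
      rcases lt_or_ge n (2*k) with h3 | h3
      · rw [Tau_eq_zero h3, mul_zero]
      · have h4 : (2*k : ℝ) ≤ n := by exact_mod_cast h3
        have h5 : 0 ≤ (n:ℝ) - 2*k := by linarith
        have := Tau_nonneg n k
        positivity
    push_cast
    rw [show ((k:ℝ)+1+1) = k+2 by ring]
    linarith

end

end Pool.Agent.Lib.MP_f98a08_co
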