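import Mathlib
import Pool.Agent.Lib.MP_f98a08_co.RealRoots

/-! Power series identities linking `Σ i^l s^i` with the polynomials `Tau`. -/

open PowerSeries

namespace Pool.Agent.Lib.MP_f98a08_co

noncomputable section

/-- `Σ i^l s^i` -/
def FF (l : ℕ) : ℝ⟦X⟧ := PowerSeries.mk fun i => (i:ℝ)^l

lemma FF_succ (l : ℕ) : FF (l+1) = X * d⁄dX ℝ (FF l) := by
  ext n
  cases n with
  | zero => simp [FF]
  | succ n =>
    rw [coeff_succ_X_mul, coeff_derivative]
    simp only [FF, coeff_mk]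
    push_cast; ring

def i1 : ℝ⟦X⟧ := (1 - X)⁻¹
def i2 : ℝ⟦X⟧ := (1 + X)⁻¹

lemma i1_mul : (1 - X) * i1 = 1 := PowerSeries.mul_inv_cancel _ (by simp)
lemma i2_mul : (1 + X) * i2 = 1 := PowerSeries.mul_inv_cancel _ (by simp)

lemma mul_left_inj' {a b c d : ℝ⟦X⟧} (hc : c * d = 1) (h : c * a = c * b) : a = b := by
  calc a = d * (c * a) := by linear_combination -a * hc
    _ = d * (c * b) := by rw [h]
    _ = b := by linear_combination b * hc

/-- substitution `s ↦ -s` -/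
abbrev sg : ℝ⟦X⟧ →+* ℝ⟦X⟧ := PowerSeries.evalNegHom

lemma sg_X : sg (X : ℝ⟦X⟧) = -X := PowerSeries.evalNegHom_X

lemma sg_C (c : ℝ) : sg (C c) = C c := by
  ext n
  rw [sg, evalNegHom, coeff_rescale, coeff_C]
  split_ifs with h
  · subst h; simp
  · simp

lemma sg_i1 : sg i1 = i2 := by
  have h := congrArg sg i1_mul
  rw [map_mul, map_sub, map_one, sg_X, sub_neg_eq_add] at h
  exact mul_left_inj' i2_mul (h.trans i2_mul.symm)

def ww : ℝ⟦X⟧ := (1 + X) * i1
def ww' : ℝ⟦X⟧ := (1 - X) * i2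

lemma sg_ww : sg ww = ww' := by
  rw [ww, ww', map_mul, map_add, map_one, sg_X, sg_i1]; ring

lemma ww_mul : ww * ww' = 1 := by
  rw [ww, ww']
  linear_combination i2_mul + (1+X) * i2 * i1_mul

def vv : ℝ⟦X⟧ := ww^2
def vv' : ℝ⟦X⟧ := ww'^2

lemma vv_mul : vv * vv' = 1 := by
  rw [vv, vv', ← mul_pow, ww_mul, one_pow]

lemma sg_vv : sg vv = vv' := by rw [vv, vv', map_pow, sg_ww]

/-- `Y = -s^2/(1-s^2)^2` -/
def yy : ℝ⟦X⟧ := -(X^2 * i1^2 * i2^2)

lemma yy_eq : 16 * yy = 2 - vv - vv' := by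
  have h1 : (ww - ww') = 4 * X * i1 * i2 := by
    rw [ww, ww']
    have e1 : (1 + X) * i1 = (1+X)*((1+X)*i2) * i1 := by rw [i2_mul, mul_one]
    have e2 : (1 - X) * i2 = (1-X)*((1-X)*i1) * i2 := by rw [i1_mul, mul_one]
    rw [e1, e2]; ring
  have h2 : 2 - vv - vv' = -(ww - ww')^2 := by
    rw [vv, vv']; linear_combination (-2) * ww_mul
  rw [h2, h1, yy]; ring

lemma vv_sub : vv - 1 = 4 * X * i1^2 := by
  have e1 : (1 : ℝ⟦X⟧) = ((1 - X) * i1)^2 := by rw [i1_mul, one_pow]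
  rw [vv, ww]
  linear_combination ((1 - X) * i1 + 1) * i1_mul

lemma vv_vv' : (vv - 1) * (vv' - 1) = 16 * yy := by
  rw [yy_eq]; linear_combination vv_mul

lemma deriv_i1 : d⁄dX ℝ i1 = i1^2 := by
  rw [i1, derivative_inv']
  simp

lemma X_deriv_ww : X * d⁄dX ℝ ww = 2 * X * i1^2 := by
  rw [ww, Derivation.leibniz, deriv_i1]
  simp only [map_add, derivative_one, derivative_X, zero_add, smul_eq_mul, mul_one]
  linear_combination (-X * i1) * i1_mul

lemma X_deriv_ww' : 2 * (X * d⁄dX ℝ ww) = vv - 1 := by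
  rw [X_deriv_ww, vv_sub]; ring

lemma X_deriv_vv : X * d⁄dX ℝ vv = ww * (vv - 1) := by
  rw [vv, Derivation.leibniz_pow, ← vv]
  simp only [smul_eq_mul, nsmul_eq_mul, Nat.add_one_sub_one, pow_one]
  push_cast
  linear_combination ww * X_deriv_ww'

lemma X_deriv_aeval (p : Polynomial ℝ) : X * d⁄dX ℝ (Polynomial.aeval vv p)
    = Polynomial.aeval vv (Polynomial.derivative p) * (ww * (vv - 1)) := by
  rw [Derivation.map_aeval, ← X_deriv_vv]
  simp only [smul_eq_mul]; ring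

lemma FF_one : 4 * FF 1 = vv - 1 := by
  have h1 : FF 0 = i1 := by
    apply mul_left_inj' i1_mul
    rw [i1_mul, FF]
    simp only [pow_zero]
    rw [sub_mul, one_mul]
    ext n
    cases n with
    | zero => simp
    | succ n => rw [map_sub, coeff_succ_X_mul]; simp [coeff_one]
  rw [FF_succ, h1, deriv_i1, vv_sub]; ring

lemma FF_EO (j : ℕ) : 4 * FF (2*j+1) = (vv-1) * Polynomial.aeval vv (EE j) ∧
    4 * FF (2*j+2) = (vv-1) * ww * Polynomial.aeval vv (OO j) := by
  have hO : ∀ j, 4 * FF (2*j+1) = (vv-1) * Polynomial.aeval vv (EE j) →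
      4 * FF (2*j+2) = (vv-1) * ww * Polynomial.aeval vv (OO j) := by
    intro j h
    have h4 : d⁄dX ℝ (4 * FF (2*j+1)) = 4 * d⁄dX ℝ (FF (2*j+1)) := by
      rw [Derivation.leibniz]
      have : d⁄dX ℝ (4 : ℝ⟦X⟧) = 0 := by
        rw [show (4:ℝ⟦X⟧) = C 4 from rfl]; exact derivative_C
      rw [this]; simp
    rw [FF_succ, ← mul_assoc, mul_comm 4 X, mul_assoc, ← h4, h, Derivation.leibniz, mul_add]
    simp only [smul_eq_mul, map_sub, derivative_one, sub_zero]
    rw [OO]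
    simp only [map_add, map_mul, map_sub, Polynomial.aeval_X, map_one]
    linear_combination (vv - 1) * X_deriv_aeval (EE j)
      + Polynomial.aeval vv (EE j) * X_deriv_vv
  have hE : ∀ j, 4 * FF (2*j+2) = (vv-1) * ww * Polynomial.aeval vv (OO j) →
      4 * FF (2*(j+1)+1) = (vv-1) * Polynomial.aeval vv (EE (j+1)) := by
    intro j h
    have h4 : d⁄dX ℝ (4 * FF (2*j+2)) = 4 * d⁄dX ℝ (FF (2*j+2)) := by
      rw [Derivation.leibniz]
      have : d⁄dX ℝ (4 : ℝ⟦X⟧) = 0 := by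
        rw [show (4:ℝ⟦X⟧) = C 4 from rfl]; exact derivative_C
      rw [this]; simp
    rw [show 2*(j+1)+1 = (2*j+2)+1 by ring, FF_succ, ← mul_assoc, mul_comm 4 X, mul_assoc, ← h4, h,
      Derivation.leibniz, Derivation.leibniz, mul_add]
    simp only [smul_eq_mul, map_sub, derivative_one, sub_zero]
    rw [EE_succ]
    simp only [map_add, map_mul, map_sub, Polynomial.aeval_X, map_one, Polynomial.aeval_C,
      map_ofNat]
    have hh : (algebraMap ℝ ℝ⟦X⟧) (1/2) * 2 = 1 := by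
      rw [← map_ofNat (algebraMap ℝ ℝ⟦X⟧) 2, ← map_mul]; norm_num
    have hvw : ww^2 = vv := rfl
    linear_combination ((vv - 1) * ww) * X_deriv_aeval (OO j)
      + (Polynomial.aeval vv (OO j) * ww) * X_deriv_vv
      + (vv - 1) * Polynomial.aeval vv (OO j) * ((algebraMap ℝ ℝ⟦X⟧) (1/2)) * X_deriv_ww'
      - (vv - 1) * Polynomial.aeval vv (OO j) * (X * d⁄dX ℝ ww) * hh
      + (vv - 1) * Polynomial.aeval vv (OO j) * hvw
      + (vv - 1)^2 * Polynomial.aeval vv (Polynomial.derivative (OO j)) * hvw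
      - (vv - 1) * vv * Polynomial.aeval vv (OO j) * hh
  induction j with
  | zero =>
    have h0 : 4 * FF (2*0+1) = (vv-1) * Polynomial.aeval vv (EE 0) := by
      simpa [EE] using FF_one
    exact ⟨h0, hO 0 h0⟩
  | succ j ih => exact ⟨hE j ih.2, hO _ (hE j ih.2)⟩

lemma sg_aeval (p : Polynomial ℝ) : sg (Polynomial.aeval vv p) = Polynomial.aeval vv' p := by
  rw [Polynomial.aeval_def, Polynomial.aeval_def, Polynomial.hom_eval₂, sg_vv]
  congr 1
  ext c : 1
  exact sg_C c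

theorem FF_prod (n : ℕ) : FF (n+1) * sg (FF (n+1)) = yy * Polynomial.aeval yy (Tau n) := by
  have h16 : IsUnit (16 : ℝ⟦X⟧) := by
    rw [show (16:ℝ⟦X⟧) = C 16 from rfl]
    exact (isUnit_iff_ne_zero.mpr (by norm_num : (16:ℝ) ≠ 0)).map C
  have h4 : sg (4 : ℝ⟦X⟧) = 4 := map_ofNat sg 4
  apply h16.mul_left_cancel
  rcases Nat.even_or_odd' n with ⟨j, rfl | rfl⟩
  · have h := (FF_EO j).1
    have h' := congrArg sg h
    rw [map_mul, map_mul, map_sub, map_one, sg_vv, sg_aeval, h4] at h'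
    rw [Tau_even, ← aeval_TE vv vv' yy vv_mul yy_eq]
    calc 16 * (FF (2*j+1) * sg (FF (2*j+1))) = (4 * FF (2*j+1)) * (4 * sg (FF (2*j+1))) := by ring
      _ = (vv - 1) * (vv' - 1) * (Polynomial.aeval vv (EE j) * Polynomial.aeval vv' (EE j)) := by
        rw [h, h']; ring
      _ = _ := by rw [vv_vv']; ring
  · have h := (FF_EO j).2
    have h' := congrArg sg h
    rw [map_mul, map_mul, map_mul, map_sub, map_one, sg_vv, sg_aeval, sg_ww, h4] at h'
    rw [Tau_odd, ← aeval_TO vv vv' yy vv_mul yy_eq]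
    calc 16 * (FF (2*j+1+1) * sg (FF (2*j+1+1)))
        = (4 * FF (2*j+2)) * (4 * sg (FF (2*j+2))) := by ring
      _ = (vv - 1) * (vv' - 1) * (ww * ww') *
          (Polynomial.aeval vv (OO j) * Polynomial.aeval vv' (OO j)) := by
        rw [h, h']; ring
      _ = _ := by rw [vv_vv', ww_mul]; ring

/-- The polynomial with coefficients `a(n,k)`. -/
def Al (n : ℕ) : Polynomial ℝ :=
  Polynomial.C (1/(n.factorial:ℝ)) *
    ∑ l ∈ Finset.range n, Polynomial.C ((ascPochhammer ℝ n).coeff (l+1)) * Tau l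

lemma ascP_coeff_nonneg (n l : ℕ) : 0 ≤ (ascPochhammer ℝ n).coeff l := by
  induction n generalizing l with
  | zero => simp [Polynomial.coeff_one]; split_ifs <;> simp
  | succ n ih =>
    rw [ascPochhammer_succ_right, mul_add, Polynomial.coeff_add, ← Polynomial.C_eq_natCast,
      Polynomial.coeff_mul_C]
    have h2 := ih l
    cases l with
    | zero => simp; positivity
    | succ l => rw [Polynomial.coeff_mul_X]; have := ih l; positivity

lemma ascP_coeff_zero {n : ℕ} (hn : n ≠ 0) : (ascPochhammer ℝ n).coeff 0 = 0 := by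
  rw [Polynomial.coeff_zero_eq_eval_zero, ascPochhammer_eval_zero]; simp [hn]

lemma ascP_coeff_big {n l : ℕ} (h : n < l) : (ascPochhammer ℝ n).coeff l = 0 := by
  apply Polynomial.coeff_eq_zero_of_natDegree_lt
  rw [ascPochhammer_natDegree]; exact h

lemma ascP_coeff_succ (n l : ℕ) : (ascPochhammer ℝ (n+1)).coeff (l+1)
    = (ascPochhammer ℝ n).coeff l + n * (ascPochhammer ℝ n).coeff (l+1) := by
  rw [ascPochhammer_succ_right, mul_add, Polynomial.coeff_add, ← Polynomial.C_eq_natCast,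
      Polynomial.coeff_mul_C, Polynomial.coeff_mul_X]
  ring

lemma Al_coeff (n k : ℕ) : (Al n).coeff k = (1/(n.factorial:ℝ)) *
    ∑ l ∈ Finset.range n, (ascPochhammer ℝ n).coeff (l+1) * (Tau l).coeff k := by
  rw [Al, Polynomial.coeff_C_mul, Polynomial.finset_sum_coeff]
  simp [Polynomial.coeff_C_mul]

lemma Al_nonneg (n k : ℕ) : 0 ≤ (Al n).coeff k := by
  rw [Al_coeff]
  refine mul_nonneg (by positivity) (Finset.sum_nonneg fun l _ => mul_nonneg ?_ (Tau_nonneg _ _))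
  exact ascP_coeff_nonneg _ _

/-- growth inequality -/
theorem Al_step (n k : ℕ) (hn : n ≠ 0) :
    (n + (k+1)^2 : ℝ) * (Al n).coeff k ≤ (n+1) * (Al (n+1)).coeff k := by
  rw [Al_coeff, Al_coeff, Nat.factorial_succ]
  have hf : (0:ℝ) < n.factorial := by positivity
  have e1 : ∑ l ∈ Finset.range (n+1), (ascPochhammer ℝ (n+1)).coeff (l+1) * (Tau l).coeff k
      = ∑ l ∈ Finset.range n, (ascPochhammer ℝ n).coeff (l+1) * (Tau (l+1)).coeff k
        + n * ∑ l ∈ Finset.range n, (ascPochhammer ℝ n).coeff (l+1) * (Tau l).coeff k := by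
    simp only [ascP_coeff_succ, add_mul, Finset.sum_add_distrib]
    congr 1
    · rw [Finset.sum_range_succ']
      simp [ascP_coeff_zero hn]
    · rw [Finset.sum_range_succ, ascP_coeff_big (Nat.lt_succ_self n), Finset.mul_sum]
      simp [mul_assoc]
  rw [e1]
  have h2 : (k+1:ℝ)^2 * ∑ l ∈ Finset.range n, (ascPochhammer ℝ n).coeff (l+1) * (Tau l).coeff k
      ≤ ∑ l ∈ Finset.range n, (ascPochhammer ℝ n).coeff (l+1) * (Tau (l+1)).coeff k := by
    rw [Finset.mul_sum]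
    refine Finset.sum_le_sum fun l _ => ?_
    have := mul_le_mul_of_nonneg_left (Tau_step' l k) (ascP_coeff_nonneg n (l+1))
    linarith
  push_cast
  set Sm := ∑ l ∈ Finset.range n, (ascPochhammer ℝ n).coeff (l+1) * (Tau l).coeff k
  have e3 : ((n:ℝ)+1) * (1 / (((n:ℝ)+1) * (n.factorial:ℝ)) *
      (∑ l ∈ Finset.range n, (ascPochhammer ℝ n).coeff (l+1) * (Tau (l+1)).coeff k + n * Sm))
      = (1/(n.factorial:ℝ)) * (∑ l ∈ Finset.range n, (ascPochhammer ℝ n).coeff (l+1)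
        * (Tau (l+1)).coeff k + n * Sm) := by
    field_simp
  rw [e3]
  have : (n + (k+1)^2 : ℝ) * (1/(n.factorial:ℝ) * Sm)
      = (1/(n.factorial:ℝ)) * ((k+1)^2 * Sm + n * Sm) := by ring
  rw [this]
  apply mul_le_mul_of_nonneg_left _ (by positivity)
  linarith

end

end Pool.Agent.Lib.MP_f98a08_co
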