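import Mathlib
import Pool.Agent.Lib.MP_f98a08_co.Defs
import Pool.Agent.Lib.MP_f98a08_co.PSer
import Pool.Agent.Lib.MP_f98a08_co.CRS

/-! The coefficients `γ_{n,k,n-1-2k}` are the coefficients of `Al n`. -/

open PowerSeries Finset

namespace Pool.Agent.Lib.MP_f98a08_co

noncomputable section

lemma des_eq {m : ℕ} (σ : Equiv.Perm (Fin (m+1))) : des σ = dd (dsc ⇑σ) := by
  rw [des, dd]
  simp only [dsc, decide_eq_true_eq]
  rw [← Finset.card_filter]
  refine (Finset.card_bij (fun k _ => k.castSucc) ?_ ?_ ?_).symm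
  · intro k hk
    simp only [mem_filter, mem_univ, true_and] at hk ⊢
    exact ⟨k.succ, by simp, hk⟩
  · intro a _ b _ h
    exact Fin.castSucc_injective m h
  · intro i hi
    simp only [mem_filter, mem_univ, true_and] at hi
    obtain ⟨j, hj, hlt⟩ := hi
    have hi' : (i:ℕ) < m := by have := j.2; omega
    refine ⟨⟨i, hi'⟩, ?_, by ext; simp⟩
    simp only [mem_filter, mem_univ, true_and]
    have e1 : (⟨(i:ℕ), hi'⟩ : Fin m).succ = j := by ext; simp [hj]
    have e2 : (⟨(i:ℕ), hi'⟩ : Fin m).castSucc = i := by ext; simp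
    rw [e1, e2]; exact hlt

lemma i1_eq : i1 = PowerSeries.mk 1 := by
  apply mul_left_inj' i1_mul
  rw [i1_mul, mul_comm]
  exact (PowerSeries.mk_one_mul_one_sub_eq_one ℝ).symm

lemma gs (m d : ℕ) (hd : d ≤ m) :
    (X:ℝ⟦X⟧)^(d+1) * i1^(m+2) = PowerSeries.mk fun i => ((i + m - d).choose (m+1) : ℝ) := by
  rw [i1_eq, show m+2 = (m+1)+1 by ring, PowerSeries.mk_one_pow_eq_mk_choose_add]
  ext i
  rw [coeff_X_pow_mul', coeff_mk, coeff_mk]
  split_ifs with h
  · have : m + 1 + (i - (d+1)) = i + m - d := by omega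
    rw [this]
  · rw [Nat.choose_eq_zero_of_lt (by omega)]; simp

lemma sg_mk (f : ℕ → ℝ) : sg (PowerSeries.mk f) = PowerSeries.mk fun i => (-1)^i * f i := by
  rw [sg, evalNegHom, rescale_mk]

lemma asc_eval (m x : ℕ) : ((x + m).choose (m+1) : ℝ) = (1/((m+1).factorial:ℝ)) *
    ∑ l ∈ range (m+1), (ascPochhammer ℝ (m+1)).coeff (l+1) * (x:ℝ)^(l+1) := by
  have h1 : (ascPochhammer ℝ (m+1)).eval (x:ℝ) = ((m+1).factorial:ℝ) * ((x + m).choose (m+1) : ℝ) := by
    rw [ascPochhammer_nat_eq_natCast_ascFactorial, Nat.ascFactorial_eq_factorial_mul_choose']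
    push_cast
    rfl
  have h2 : (ascPochhammer ℝ (m+1)).eval (x:ℝ)
      = ∑ l ∈ range (m+1), (ascPochhammer ℝ (m+1)).coeff (l+1) * (x:ℝ)^(l+1) := by
    rw [Polynomial.eval_eq_sum_range, ascPochhammer_natDegree, Finset.sum_range_succ',
      ascP_coeff_zero (Nat.succ_ne_zero m)]
    simp
  rw [← h2, h1]
  have : ((m+1).factorial:ℝ) ≠ 0 := by positivity
  field_simp

/-- main power series identity -/
lemma series_id (m : ℕ) :
    ∑ σ : Equiv.Perm (Fin (m+1)), ((X:ℝ⟦X⟧)^(ides σ + 1) * i1^(m+2))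
      * sg ((X:ℝ⟦X⟧)^(des σ + 1) * i1^(m+2)) = yy * Polynomial.aeval yy (Al (m+1)) := by
  have hL : ∑ σ : Equiv.Perm (Fin (m+1)), ((X:ℝ⟦X⟧)^(ides σ + 1) * i1^(m+2))
      * sg ((X:ℝ⟦X⟧)^(des σ + 1) * i1^(m+2)) = PowerSeries.mk fun N =>
        ∑ p ∈ antidiagonal N, (-1)^p.2 * ((p.1 * p.2 + m).choose (m+1) : ℝ) := by
    ext N
    rw [coeff_mk, map_sum]
    simp_rw [crs]
    push_cast
    simp_rw [Finset.mul_sum]
    rw [Finset.sum_comm]
    refine Finset.sum_congr rfl fun σ _ => ?_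
    rw [ides, des_eq, des_eq, gs _ _ (dd_le _), gs _ _ (dd_le _), sg_mk, coeff_mul]
    refine Finset.sum_congr rfl fun p _ => ?_
    rw [coeff_mk, coeff_mk]
    have h1 := dd_le (dsc ⇑σ⁻¹)
    ring
  rw [hL, Al, map_mul, Polynomial.aeval_C, map_sum, Finset.mul_sum, Finset.mul_sum]
  simp only [map_mul, Polynomial.aeval_C]
  have e : ∀ l ∈ range (m+1), yy * ((algebraMap ℝ ℝ⟦X⟧) (1/((m+1).factorial:ℝ)) *
      ((algebraMap ℝ ℝ⟦X⟧) ((ascPochhammer ℝ (m+1)).coeff (l+1)) * Polynomial.aeval yy (Tau l)))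
      = (algebraMap ℝ ℝ⟦X⟧) (1/((m+1).factorial:ℝ) * (ascPochhammer ℝ (m+1)).coeff (l+1))
        * (FF (l+1) * sg (FF (l+1))) := by
    intro l _
    rw [FF_prod, map_mul]; ring
  rw [Finset.sum_congr rfl e]
  ext N
  rw [coeff_mk, map_sum]
  simp only [PowerSeries.algebraMap_apply, Algebra.algebraMap_self, RingHom.id_apply, coeff_C_mul]
  simp_rw [FF, sg_mk, coeff_mul, coeff_mk, Finset.mul_sum]
  rw [Finset.sum_comm]
  refine Finset.sum_congr rfl fun p _ => ?_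
  have := asc_eval m (p.1 * p.2)
  push_cast at this
  rw [this, Finset.mul_sum, Finset.mul_sum]
  refine Finset.sum_congr rfl fun l _ => ?_
  rw [mul_pow]; ring

lemma yy_ne : yy ≠ 0 := by
  intro h
  have h1 : (X:ℝ⟦X⟧)^2 * i1^2 * i2^2 = 0 := by
    rw [yy] at h; linear_combination -h
  have h2 : (X:ℝ⟦X⟧)^2 = 0 := by
    calc (X:ℝ⟦X⟧)^2 = (X^2 * i1^2 * i2^2) * ((1-X)^2 * (1+X)^2) := by
          linear_combination (-(X^2) * (1 + (1-X)*i1) * ((1+X)*i2)^2) * i1_mul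
            - X^2 * (1 + (1+X)*i2) * i2_mul
      _ = 0 := by rw [h1, zero_mul]
  exact pow_ne_zero 2 X_ne_zero h2

lemma constCoeff_yy : constantCoeff yy = 0 := by
  rw [yy]; simp

lemma aeval_yy_inj {p : Polynomial ℝ} (h : Polynomial.aeval yy p = 0) : p = 0 := by
  induction hn : p.natDegree using Nat.strong_induction_on generalizing p with
  | _ n ih =>
    by_contra hp
    have h0 : p.coeff 0 = 0 := by
      have h1 := congrArg (constantCoeff (R := ℝ)) h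
      rw [Polynomial.aeval_eq_sum_range, map_sum, Finset.sum_range_succ'] at h1
      simpa [constCoeff_yy] using h1
    obtain ⟨q, rfl⟩ := Polynomial.X_dvd_iff.mpr h0
    have hq : q ≠ 0 := fun hq => hp (by rw [hq, mul_zero])
    rw [map_mul, Polynomial.aeval_X] at h
    have h2 := (mul_eq_zero.mp h).resolve_left yy_ne
    rw [Polynomial.natDegree_X_mul hq] at hn
    exact hq (ih q.natDegree (by omega) h2 rfl)

theorem gamma_eq {m : ℕ} {γ : ℕ → ℕ → ℤ} (h : IsTwoSidedGamma (m+1) γ) {k : ℕ} (hk : 2*k ≤ m) :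
    (γ k (m - 2*k) : ℝ) = (Al (m+1)).coeff k := by
  set φ : MvPolynomial (Fin 2) ℤ →+* ℝ⟦X⟧ :=
    MvPolynomial.eval₂Hom (Int.castRingHom _) ![X, -X] with hφ
  have h1 := congrArg φ h
  have hX0 : φ (MvPolynomial.X 0) = X := by simp [φ]
  have hX1 : φ (MvPolynomial.X 1) = -X := by simp [φ]
  rw [biEulerian, map_sum, map_sum] at h1
  simp only [map_mul, map_pow, map_add, map_one, hX0, hX1, Nat.add_sub_cancel] at h1
  have hC : ∀ z : ℤ, φ (MvPolynomial.C z) = algebraMap ℝ ℝ⟦X⟧ (z:ℝ) := by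
    intro z; simp [φ]
  -- the right-hand side
  have hR : (∑ p ∈ (range (m+1) ×ˢ range (m+1)).filter (fun p => 2 * p.1 + p.2 ≤ m),
      φ (MvPolynomial.C (γ p.1 p.2)) * ((X:ℝ⟦X⟧) * -X)^p.1 * (1 + (X:ℝ⟦X⟧) * -X)^p.2
        * ((X:ℝ⟦X⟧) + -X)^(m - p.2 - 2*p.1))
      = ∑ k ∈ (range (m+1)).filter (fun k => 2*k ≤ m),
        algebraMap ℝ ℝ⟦X⟧ (γ k (m-2*k) : ℝ) * (-(X:ℝ⟦X⟧)^2)^k * (1 - X^2)^(m-2*k) := by
    have hinj : ∀ a ∈ (range (m+1)).filter (fun k => 2*k ≤ m),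
        ∀ b ∈ (range (m+1)).filter (fun k => 2*k ≤ m),
        (fun k => (k, m-2*k)) a = (fun k => (k, m-2*k)) b → a = b := by
      intro a _ b _ hab
      exact (Prod.mk.inj hab).1
    have hsub : ((range (m+1)).filter (fun k => 2*k ≤ m)).image (fun k => (k, m-2*k))
        ⊆ (range (m+1) ×ˢ range (m+1)).filter (fun p => 2 * p.1 + p.2 ≤ m) := by
      intro p hp
      simp only [mem_image, mem_filter, mem_range, mem_product] at hp ⊢
      obtain ⟨a, ha, rfl⟩ := hp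
      dsimp only
      omega
    rw [← Finset.sum_subset hsub, Finset.sum_image hinj]
    · refine Finset.sum_congr rfl fun k hk => ?_
      simp only [mem_filter] at hk
      have : m - (m - 2*k) - 2*k = 0 := by omega
      simp only [this, hC, pow_zero, mul_one]
      congr 2
      · ring
      · ring
    · intro p hp hnp
      simp only [mem_image, mem_filter, mem_range, mem_product, not_exists] at hp hnp
      have : m - p.2 - 2*p.1 ≠ 0 := by
        intro h0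
        apply hnp p.1
        refine ⟨⟨hp.1.1, by omega⟩, ?_⟩
        ext <;> simp
        omega
      rw [add_neg_cancel, zero_pow this, mul_zero]
  rw [hR] at h1
  -- multiply
  have h2 := series_id m
  have h3 : ∑ σ : Equiv.Perm (Fin (m+1)), ((X:ℝ⟦X⟧)^(ides σ + 1) * i1^(m+2))
      * sg ((X:ℝ⟦X⟧)^(des σ + 1) * i1^(m+2))
      = yy * (i1 * i2)^m * ∑ σ : Equiv.Perm (Fin (m+1)), X^(ides σ) * (-X)^(des σ) := by
    rw [Finset.mul_sum]
    refine Finset.sum_congr rfl fun σ _ => ?_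
    rw [map_mul, map_pow, map_pow, sg_X, sg_i1, yy]
    ring
  rw [h3, h1] at h2
  have hu : (1 - (X:ℝ⟦X⟧)^2) * (i1 * i2) = 1 := by
    linear_combination (1+X) * i2 * i1_mul + i2_mul
  have h4 : (i1 * i2)^m * ∑ k ∈ (range (m+1)).filter (fun k => 2*k ≤ m),
        algebraMap ℝ ℝ⟦X⟧ (γ k (m-2*k) : ℝ) * (-(X:ℝ⟦X⟧)^2)^k * (1 - X^2)^(m-2*k)
      = Polynomial.aeval yy (∑ k ∈ (range (m+1)).filter (fun k => 2*k ≤ m),
          Polynomial.C (γ k (m-2*k) : ℝ) * Polynomial.X^k) := by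
    rw [map_sum, Finset.mul_sum]
    refine Finset.sum_congr rfl fun k hk => ?_
    simp only [mem_filter] at hk
    rw [map_mul, map_pow, Polynomial.aeval_C, Polynomial.aeval_X]
    have e1 : (i1 * i2)^m = ((i1*i2)^2)^k * (i1*i2)^(m-2*k) := by
      rw [← pow_mul, ← pow_add]; congr 1; omega
    have e2 : (i1*i2)^(m-2*k) * (1 - (X:ℝ⟦X⟧)^2)^(m-2*k) = 1 := by
      rw [← mul_pow, mul_comm (i1*i2), hu, one_pow]
    have e3 : yy = (i1*i2)^2 * (-(X:ℝ⟦X⟧)^2) := by rw [yy]; ring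
    rw [e1, e3, mul_pow]
    linear_combination (algebraMap ℝ ℝ⟦X⟧ (γ k (m-2*k) : ℝ) * ((i1*i2)^2)^k
      * (-(X:ℝ⟦X⟧)^2)^k) * e2
  rw [mul_assoc, h4] at h2
  have h5 := mul_left_cancel₀ yy_ne h2
  have h6 : (∑ k ∈ (range (m+1)).filter (fun k => 2*k ≤ m),
          Polynomial.C (γ k (m-2*k) : ℝ) * Polynomial.X^k) = Al (m+1) := by
    rw [← sub_eq_zero]
    apply aeval_yy_inj
    rw [map_sub, h5, sub_self]
  rw [← h6, Polynomial.finsetSum_coeff, Finset.sum_eq_single k]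
  · simp
  · intro b _ hb
    rw [Polynomial.coeff_C_mul_X_pow, if_neg hb.symm]
  · intro hk'
    exfalso; apply hk'
    simp only [mem_filter, mem_range]; omega

end

end Pool.Agent.Lib.MP_f98a08_co
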