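import Mathlib
import Pool.Agent.Lib.MP_f98a08_co.Defs

/-! Structure of separable permutations: sum / skew decompositions. -/

open Finset

namespace Pool.Agent.Lib.MP_f98a08_co

/-! ### existence of a decomposition -/

/-- One inductive step. -/
lemma half_step {α : Type*} [LinearOrder α] {n : ℕ} (f : Fin (n+1) → α)
    (hf : Function.Injective f)
    (hpat : ∀ a b c d : Fin (n+1), a < b → b < c → c < d → ¬ (f b < f d ∧ f d < f a ∧ f a < f c))
    (hex : ∃ p, 0 < p ∧ p < n ∧ ∀ i j : Fin n, (i:ℕ) < p → p ≤ (j:ℕ) →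
      f i.castSucc < f j.castSucc) :
    (∃ p, 0 < p ∧ p < n+1 ∧ ∀ i j : Fin (n+1), (i:ℕ) < p → p ≤ (j:ℕ) → f i < f j) ∨
    (∃ p, 0 < p ∧ p < n+1 ∧ ∀ i j : Fin (n+1), (i:ℕ) < p → p ≤ (j:ℕ) → f j < f i) := by
  classical
  have hmin := @Nat.find_min _ _ hex
  obtain ⟨hp0, hpn, hdec⟩ := Nat.find_spec hex
  set p := Nat.find hex
  set v := f (Fin.last n) with hv
  have hne : ∀ i : Fin n, f i.castSucc ≠ v := by
    intro i h
    have := hf h
    exact absurd this (Fin.castSucc_lt_last i).ne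
  by_cases hA : ∀ i : Fin n, (i:ℕ) < p → f i.castSucc < v
  · left
    refine ⟨p, hp0, by omega, ?_⟩
    intro i j hi hj
    have hi' : (i:ℕ) < n := by omega
    have ei : i = (⟨i, hi'⟩ : Fin n).castSucc := by ext; simp
    by_cases hjn : (j:ℕ) < n
    · have ej : j = (⟨j, hjn⟩ : Fin n).castSucc := by ext; simp
      rw [ei, ej]
      exact hdec _ _ hi hj
    · have ej : j = Fin.last n := by ext; simp; omega
      rw [ei, ej]
      exact hA _ hi
  push Not at hA
  obtain ⟨i0, hi0, hi0v⟩ := hA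
  have hi0v' : v < f i0.castSucc := lt_of_le_of_ne hi0v (hne i0).symm
  by_cases hB : ∀ i : Fin n, (i:ℕ) < p → v < f i.castSucc
  · right
    refine ⟨n, by omega, by omega, ?_⟩
    intro i j hi hj
    have ei : i = (⟨i, hi⟩ : Fin n).castSucc := by ext; simp
    have ej : j = Fin.last n := by ext; simp; omega
    rw [ei, ej]
    by_cases hip : (i:ℕ) < p
    · exact hB _ hip
    · exact (hB i0 hi0).trans (hdec _ _ hi0 (by simpa using hip))
  push Not at hB
  obtain ⟨i1, hi1, hi1v⟩ := hB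
  have hi1v' : f i1.castSucc < v := lt_of_le_of_ne hi1v (hne i1)
  exfalso
  -- look for x < y < p with f x > v > f y
  by_cases hC : ∃ x y : Fin n, x < y ∧ (y:ℕ) < p ∧ v < f x.castSucc ∧ f y.castSucc < v
  · obtain ⟨x, y, hxy, hyp, hx, hy⟩ := hC
    have hz := hdec x ⟨p, hpn⟩ (by have : (x:ℕ) < y := hxy; omega) le_rfl
    refine hpat x.castSucc y.castSucc (⟨p, hpn⟩ : Fin n).castSucc (Fin.last n)
      (by simpa using hxy) ?_ (Fin.castSucc_lt_last _) ⟨hy, hx, hz⟩
    rw [Fin.castSucc_lt_castSucc_iff, Fin.lt_def]; exact hyp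
  push Not at hC
  have hex2 : ∃ q, ∃ h : q < n, q < p ∧ v < f (⟨q, h⟩ : Fin n).castSucc :=
    ⟨i0, i0.2, hi0, hi0v'⟩
  obtain ⟨hqn, hqp, hqv⟩ := Nat.find_spec hex2
  have hqmin := @Nat.find_min _ _ hex2
  set q := Nat.find hex2
  have hq0 : 0 < q := by
    by_contra h0
    have h0' : q = 0 := by omega
    rcases Nat.eq_zero_or_pos (i1:ℕ) with h1 | h1
    · have : i1 = ⟨q, hqn⟩ := by ext; simp; omega
      rw [this] at hi1v'
      exact absurd hi1v' (not_lt.mpr hqv.le)
    · have := hC ⟨q, hqn⟩ i1 (by rw [Fin.lt_def]; simp; omega) hi1 hqv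
      exact absurd hi1v' (not_lt.mpr this)
  refine @hmin q hqp ⟨hq0, hqn, ?_⟩
  intro i j hi hj
  by_cases hjp : (j:ℕ) < p
  · have h1 : f i.castSucc < v := by
      have h2 := hqmin hi
      push Not at h2
      exact lt_of_le_of_ne (h2 i.2 (by omega)) (hne i)
    have h3 : v < f j.castSucc := by
      rcases Nat.eq_or_lt_of_le hj with h4 | h4
      · have : j = ⟨q, hqn⟩ := by ext; simp; omega
        rw [this]; exact hqv
      · exact lt_of_le_of_ne (hC ⟨q, hqn⟩ j (by rw [Fin.lt_def]; exact h4) hjp hqv) (hne j).symm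
    exact h1.trans h3
  · exact hdec i j (by omega) (by omega)

/-- Every injective sequence of length `≥ 2` avoiding both patterns decomposes. -/
lemma exists_dec {α : Type*} [LinearOrder α] : ∀ {n : ℕ} (_ : 2 ≤ n) (f : Fin n → α)
    (_ : Function.Injective f)
    (_ : ∀ a b c d : Fin n, a < b → b < c → c < d → ¬ (f c < f a ∧ f a < f d ∧ f d < f b))
    (_ : ∀ a b c d : Fin n, a < b → b < c → c < d → ¬ (f b < f d ∧ f d < f a ∧ f a < f c)),
    (∃ p, 0 < p ∧ p < n ∧ ∀ i j : Fin n, (i:ℕ) < p → p ≤ (j:ℕ) → f i < f j) ∨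
    (∃ p, 0 < p ∧ p < n ∧ ∀ i j : Fin n, (i:ℕ) < p → p ≤ (j:ℕ) → f j < f i) := by
  intro n hn
  induction n, hn using Nat.le_induction with
  | base =>
    intro f hf _ _
    rcases lt_or_gt_of_ne (fun h => absurd (hf h) (by decide) : f 0 ≠ f 1) with h | h
    · left
      refine ⟨1, by omega, by omega, fun i j hi hj => ?_⟩
      have ei : i = 0 := by ext; simp; omega
      have ej : j = 1 := by ext; simp; omega
      rw [ei, ej]; exact h
    · right
      refine ⟨1, by omega, by omega, fun i j hi hj => ?_⟩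
      have ei : i = 0 := by ext; simp; omega
      have ej : j = 1 := by ext; simp; omega
      rw [ei, ej]; exact h
  | succ n hn ih =>
    intro f hf h1 h2
    have h3 := ih (fun i => f i.castSucc) (fun a b hab => Fin.castSucc_injective n (hf hab))
      (fun a b c d hab hbc hcd => h1 _ _ _ _ (by simpa using hab) (by simpa using hbc)
        (by simpa using hcd))
      (fun a b c d hab hbc hcd => h2 _ _ _ _ (by simpa using hab) (by simpa using hbc)
        (by simpa using hcd))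
    rcases h3 with h3 | h3
    · exact half_step f hf h2 h3
    · have h4 := half_step (α := αᵒᵈ) (fun i => OrderDual.toDual (f i)) (fun a b hab => hf hab)
        (fun a b c d hab hbc hcd h => h1 a b c d hab hbc hcd
          ⟨h.2.2, h.2.1, h.1⟩) h3
      rcases h4 with h4 | h4
      · exact Or.inr h4
      · exact Or.inl h4

/-! ### sum decompositions -/

/-- sum-decomposable at `p` -/
def SD {n : ℕ} (σ : Equiv.Perm (Fin n)) (p : ℕ) : Prop :=
  0 < p ∧ p < n ∧ ∀ i j : Fin n, (i:ℕ) < p → p ≤ (j:ℕ) → σ i < σ j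

/-- skew-decomposable at `p` -/
def KD {n : ℕ} (σ : Equiv.Perm (Fin n)) (p : ℕ) : Prop :=
  0 < p ∧ p < n ∧ ∀ i j : Fin n, (i:ℕ) < p → p ≤ (j:ℕ) → σ j < σ i

lemma SD_or_KD {n : ℕ} (hn : 2 ≤ n) {σ : Equiv.Perm (Fin n)} (h : IsSeparablePerm σ) :
    (∃ p, SD σ p) ∨ (∃ p, KD σ p) :=
  exists_dec hn σ σ.injective h.1 h.2

lemma not_SD_KD {n : ℕ} {σ : Equiv.Perm (Fin n)} (h1 : ∃ p, SD σ p) (h2 : ∃ p, KD σ p) :
    False := by
  obtain ⟨p, hp0, hpn, hp⟩ := h1
  obtain ⟨q, hq0, hqn, hq⟩ := h2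
  have h3 := hp ⟨0, by omega⟩ ⟨n-1, by omega⟩ hp0 (by simp; omega)
  have h4 := hq ⟨0, by omega⟩ ⟨n-1, by omega⟩ hq0 (by simp; omega)
  exact absurd h3 (not_lt.mpr h4.le)

/-- direct sum of permutations -/
def jn {p q : ℕ} (α : Equiv.Perm (Fin p)) (β : Equiv.Perm (Fin q)) : Equiv.Perm (Fin (p+q)) :=
  finSumFinEquiv.permCongr (Equiv.Perm.sumCongr α β)

lemma jn_left {p q : ℕ} (α : Equiv.Perm (Fin p)) (β : Equiv.Perm (Fin q)) (i : Fin p) :
    jn α β (Fin.castAdd q i) = Fin.castAdd q (α i) := by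
  simp [jn, Equiv.permCongr_apply]

lemma jn_right {p q : ℕ} (α : Equiv.Perm (Fin p)) (β : Equiv.Perm (Fin q)) (i : Fin q) :
    jn α β (Fin.natAdd p i) = Fin.natAdd p (β i) := by
  simp [jn, Equiv.permCongr_apply]

lemma castAdd_lt' {p q : ℕ} (a b : Fin p) : Fin.castAdd q a < Fin.castAdd q b ↔ a < b := Iff.rfl

lemma natAdd_lt' {p q : ℕ} (a b : Fin q) : Fin.natAdd p a < Fin.natAdd p b ↔ a < b := by
  rw [Fin.lt_def, Fin.lt_def, Fin.val_natAdd, Fin.val_natAdd]; omega

lemma exL {p q : ℕ} (i : Fin (p+q)) (hi : (i:ℕ) < p) : ∃ i', i = Fin.castAdd q i' :=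
  ⟨⟨i, hi⟩, by ext; simp⟩

lemma exR {p q : ℕ} (i : Fin (p+q)) (hi : p ≤ (i:ℕ)) : ∃ i', i = Fin.natAdd p i' :=
  ⟨⟨i - p, by omega⟩, by ext; simp; omega⟩

lemma jn_inj {p q : ℕ} {α α' : Equiv.Perm (Fin p)} {β β' : Equiv.Perm (Fin q)}
    (h : jn α β = jn α' β') : α = α' ∧ β = β' := by
  constructor
  · ext i
    have := congrArg (fun f => f (Fin.castAdd q i)) h
    simp only [jn_left] at this
    have := congrArg Fin.val this
    simpa using this
  · ext i
    have := congrArg (fun f => f (Fin.natAdd p i)) h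
    simp only [jn_right] at this
    have := congrArg Fin.val this
    simp at this; omega

lemma SD_lt {n : ℕ} {σ : Equiv.Perm (Fin n)} {p : ℕ} (h : SD σ p) (i : Fin n) (hi : (i:ℕ) < p) :
    (σ i : ℕ) < p := by
  obtain ⟨h0, hn, h⟩ := h
  have h1 : (Finset.Ici (⟨p, hn⟩ : Fin n)).card ≤ (Finset.Ioi (σ i)).card := by
    apply Finset.card_le_card_of_injOn σ
    · intro j hj
      simp only [coe_Ici, Set.mem_Ici, Fin.le_def] at hj
      simp only [coe_Ioi, Set.mem_Ioi]
      exact h i j hi hj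
    · exact σ.injective.injOn
  rw [Fin.card_Ici, Fin.card_Ioi] at h1
  simp only at h1
  have := (σ i).2
  omega

lemma SD_ge {n : ℕ} {σ : Equiv.Perm (Fin n)} {p : ℕ} (h : SD σ p) (j : Fin n) (hj : p ≤ (j:ℕ)) :
    p ≤ (σ j : ℕ) := by
  obtain ⟨h0, hn, h⟩ := h
  have h1 : (Finset.Iio (⟨p, hn⟩ : Fin n)).card ≤ (Finset.Iio (σ j)).card := by
    apply Finset.card_le_card_of_injOn σ
    · intro i hi
      simp only [coe_Iio, Set.mem_Iio, Fin.lt_def] at hi
      simp only [coe_Iio, Set.mem_Iio]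
      exact h i j hi hj
    · exact σ.injective.injOn
  rw [Fin.card_Iio, Fin.card_Iio] at h1
  simpa using h1

lemma exists_jn {p q : ℕ} {σ : Equiv.Perm (Fin (p+q))} (h : SD σ p) :
    ∃ α β, jn α β = σ := by
  set τ : Equiv.Perm (Fin p ⊕ Fin q) := finSumFinEquiv.symm.permCongr σ with hτ
  have hmem : τ ∈ (Equiv.Perm.sumCongrHom (Fin p) (Fin q)).range := by
    apply Equiv.Perm.mem_sumCongrHom_range_of_perm_mapsTo_inl
    rintro _ ⟨i, rfl⟩
    have h1 := SD_lt h (Fin.castAdd q i) (by simp)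
    refine ⟨⟨σ (Fin.castAdd q i), h1⟩, ?_⟩
    rw [hτ, Equiv.permCongr_apply]
    simp only [Equiv.symm_symm, finSumFinEquiv_apply_left]
    rw [Equiv.eq_symm_apply, finSumFinEquiv_apply_left]
    ext; simp
  obtain ⟨⟨α, β⟩, hab⟩ := hmem
  refine ⟨α, β, ?_⟩
  rw [Equiv.Perm.sumCongrHom_apply] at hab
  rw [jn, hab, hτ]
  ext i
  simp [Equiv.permCongr_apply]

lemma SD_jn {p q : ℕ} (hp : 0 < p) (hq : 0 < q) (α : Equiv.Perm (Fin p))
    (β : Equiv.Perm (Fin q)) : SD (jn α β) p := by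
  refine ⟨hp, by omega, fun i j hi hj => ?_⟩
  have ei : i = Fin.castAdd q ⟨i, hi⟩ := by ext; simp
  have ej : j = Fin.natAdd p ⟨j - p, by omega⟩ := by ext; simp; omega
  rw [ei, ej, jn_left, jn_right, Fin.lt_def]
  simp only [Fin.val_castAdd, Fin.val_natAdd]
  have := (α ⟨i, hi⟩).2
  omega

lemma SD_jn_iff {p q : ℕ} (hq : 0 < q) (α : Equiv.Perm (Fin p))
    (β : Equiv.Perm (Fin q)) {r : ℕ} (hr : r < p) : SD (jn α β) r ↔ SD α r := by
  constructor
  · rintro ⟨h0, _, h⟩
    refine ⟨h0, hr, fun i j hi hj => ?_⟩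
    have := h (Fin.castAdd q i) (Fin.castAdd q j) (by simpa using hi) (by simpa using hj)
    rwa [jn_left, jn_left, castAdd_lt'] at this
  · rintro ⟨h0, _, h⟩
    refine ⟨h0, by omega, fun i j hi hj => ?_⟩
    have hip : (i:ℕ) < p := by omega
    by_cases hjp : (j:ℕ) < p
    · obtain ⟨i, rfl⟩ := exL i hip
      obtain ⟨j, rfl⟩ := exL j hjp
      rw [jn_left, jn_left, castAdd_lt']
      exact h i j (by simpa using hi) (by simpa using hj)
    · exact (SD_jn (by omega) hq α β).2.2 i j hip (by omega)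

lemma sep_jn_iff {p q : ℕ} (hp : 0 < p) (hq : 0 < q) (α : Equiv.Perm (Fin p))
    (β : Equiv.Perm (Fin q)) :
    IsSeparablePerm (jn α β) ↔ IsSeparablePerm α ∧ IsSeparablePerm β := by
  have hsd := (SD_jn hp hq α β).2.2
  have hcl : ∀ a b : Fin p, Fin.castAdd q a < Fin.castAdd q b ↔ a < b := castAdd_lt'
  have hcr : ∀ a b : Fin q, Fin.natAdd p a < Fin.natAdd p b ↔ a < b := natAdd_lt'
  constructor
  · rintro ⟨h1, h2⟩
    refine ⟨⟨?_, ?_⟩, ⟨?_, ?_⟩⟩
    · intro a b c d hab hbc hcd h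
      refine h1 (Fin.castAdd q a) (Fin.castAdd q b) (Fin.castAdd q c) (Fin.castAdd q d)
        ((hcl _ _).mpr hab) ((hcl _ _).mpr hbc) ((hcl _ _).mpr hcd) ?_
      simpa only [jn_left, hcl] using h
    · intro a b c d hab hbc hcd h
      refine h2 (Fin.castAdd q a) (Fin.castAdd q b) (Fin.castAdd q c) (Fin.castAdd q d)
        ((hcl _ _).mpr hab) ((hcl _ _).mpr hbc) ((hcl _ _).mpr hcd) ?_
      simpa only [jn_left, hcl] using h
    · intro a b c d hab hbc hcd h
      refine h1 (Fin.natAdd p a) (Fin.natAdd p b) (Fin.natAdd p c) (Fin.natAdd p d)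
        ((hcr _ _).mpr hab) ((hcr _ _).mpr hbc) ((hcr _ _).mpr hcd) ?_
      simpa only [jn_right, hcr] using h
    · intro a b c d hab hbc hcd h
      refine h2 (Fin.natAdd p a) (Fin.natAdd p b) (Fin.natAdd p c) (Fin.natAdd p d)
        ((hcr _ _).mpr hab) ((hcr _ _).mpr hbc) ((hcr _ _).mpr hcd) ?_
      simpa only [jn_right, hcr] using h
  · rintro ⟨⟨a1, a2⟩, ⟨b1, b2⟩⟩
    constructor
    · intro a b c d hab hbc hcd h
      have hab' : (a:ℕ) < b := hab
      have hbc' : (b:ℕ) < c := hbc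
      have hcd' : (c:ℕ) < d := hcd
      by_cases hd : (d:ℕ) < p
      · obtain ⟨a, rfl⟩ := exL a (by omega)
        obtain ⟨b, rfl⟩ := exL b (by omega)
        obtain ⟨c, rfl⟩ := exL c (by omega)
        obtain ⟨d, rfl⟩ := exL d (by omega)
        simp only [jn_left, hcl] at h hab hbc hcd
        exact a1 _ _ _ _ hab hbc hcd h
      by_cases ha : p ≤ (a:ℕ)
      · obtain ⟨a, rfl⟩ := exR a (by omega)
        obtain ⟨b, rfl⟩ := exR b (by omega)
        obtain ⟨c, rfl⟩ := exR c (by omega)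
        obtain ⟨d, rfl⟩ := exR d (by omega)
        simp only [jn_right, hcr] at h hab hbc hcd
        exact b1 _ _ _ _ hab hbc hcd h
      by_cases hc : (c:ℕ) < p
      · exact absurd (hsd b d (by omega) (by omega)) (not_lt.mpr h.2.2.le)
      · exact absurd (hsd a c (by omega) (by omega)) (not_lt.mpr h.1.le)
    · intro a b c d hab hbc hcd h
      have hab' : (a:ℕ) < b := hab
      have hbc' : (b:ℕ) < c := hbc
      have hcd' : (c:ℕ) < d := hcd
      by_cases hd : (d:ℕ) < p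
      · obtain ⟨a, rfl⟩ := exL a (by omega)
        obtain ⟨b, rfl⟩ := exL b (by omega)
        obtain ⟨c, rfl⟩ := exL c (by omega)
        obtain ⟨d, rfl⟩ := exL d (by omega)
        simp only [jn_left, hcl] at h hab hbc hcd
        exact a2 _ _ _ _ hab hbc hcd h
      by_cases ha : p ≤ (a:ℕ)
      · obtain ⟨a, rfl⟩ := exR a (by omega)
        obtain ⟨b, rfl⟩ := exR b (by omega)
        obtain ⟨c, rfl⟩ := exR c (by omega)
        obtain ⟨d, rfl⟩ := exR d (by omega)
        simp only [jn_right, hcr] at h hab hbc hcd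
        exact b2 _ _ _ _ hab hbc hcd h
      exact absurd (hsd a d (by omega) (by omega)) (not_lt.mpr h.2.1.le)

lemma des_jn {p q : ℕ} (α : Equiv.Perm (Fin p)) (β : Equiv.Perm (Fin q)) :
    des (jn α β) = des α + des β := by
  classical
  have key : ∀ {n : ℕ} (σ : Equiv.Perm (Fin n)),
      des σ = ∑ i : Fin n, if (∃ j : Fin n, (j : ℕ) = i + 1 ∧ σ j < σ i) then 1 else 0 := by
    intro n σ
    rw [des, Finset.card_filter]
  rw [key, key, key, Fin.sum_univ_add]
  congr 1
  · refine Finset.sum_congr rfl fun i _ => ?_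
    refine if_congr ?_ rfl rfl
    constructor
    · rintro ⟨j, hj, hlt⟩
      simp only [Fin.val_castAdd] at hj
      by_cases hjp : (j:ℕ) < p
      · obtain ⟨j, rfl⟩ := exL j hjp
        rw [jn_left, jn_left, castAdd_lt'] at hlt
        exact ⟨j, by simpa using hj, hlt⟩
      · exfalso
        obtain ⟨j, rfl⟩ := exR j (by omega)
        rw [jn_left, jn_right, Fin.lt_def] at hlt
        simp only [Fin.val_castAdd, Fin.val_natAdd] at hlt
        have := (α i).2
        omega
    · rintro ⟨j, hj, hlt⟩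
      refine ⟨Fin.castAdd q j, by simpa using hj, ?_⟩
      rwa [jn_left, jn_left, castAdd_lt']
  · refine Finset.sum_congr rfl fun i _ => ?_
    refine if_congr ?_ rfl rfl
    constructor
    · rintro ⟨j, hj, hlt⟩
      simp only [Fin.val_natAdd] at hj
      obtain ⟨j, rfl⟩ := exR j (by omega)
      rw [jn_right, jn_right, natAdd_lt'] at hlt
      refine ⟨j, ?_, hlt⟩
      simp only [Fin.val_natAdd] at hj
      omega
    · rintro ⟨j, hj, hlt⟩
      refine ⟨Fin.natAdd p j, by simp; omega, ?_⟩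
      rwa [jn_right, jn_right, natAdd_lt']

lemma des_lt {n : ℕ} (hn : 0 < n) (σ : Equiv.Perm (Fin n)) : des σ ≤ n - 1 := by
  classical
  rw [des]
  have : (univ.filter fun i : Fin n => ∃ j : Fin n, (j : ℕ) = i + 1 ∧ σ j < σ i)
      ⊆ univ.erase (⟨n-1, by omega⟩ : Fin n) := by
    intro i hi
    simp only [mem_filter, mem_univ, true_and] at hi
    obtain ⟨j, hj, _⟩ := hi
    rw [mem_erase]
    refine ⟨?_, mem_univ _⟩
    intro h
    have h2 := congrArg Fin.val h
    simp only at h2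
    have := j.2
    omega
  refine (card_le_card this).trans ?_
  rw [card_erase_of_mem (mem_univ _)]
  simp

/-! ### complement -/

/-- complement permutation -/
def cmp {n : ℕ} (σ : Equiv.Perm (Fin n)) : Equiv.Perm (Fin n) := σ.trans Fin.revPerm

lemma cmp_apply {n : ℕ} (σ : Equiv.Perm (Fin n)) (i : Fin n) : cmp σ i = (σ i).rev := by
  simp [cmp]

lemma cmp_cmp {n : ℕ} (σ : Equiv.Perm (Fin n)) : cmp (cmp σ) = σ := by
  ext i; simp [cmp_apply]

lemma cmp_lt {n : ℕ} (σ : Equiv.Perm (Fin n)) (i j : Fin n) : cmp σ i < cmp σ j ↔ σ j < σ i := by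
  simp [cmp_apply, Fin.rev_lt_rev]

lemma sep_cmp {n : ℕ} (σ : Equiv.Perm (Fin n)) : IsSeparablePerm (cmp σ) ↔ IsSeparablePerm σ := by
  have h : ∀ σ : Equiv.Perm (Fin n), IsSeparablePerm σ → IsSeparablePerm (cmp σ) := by
    rintro σ ⟨h1, h2⟩
    constructor
    · intro a b c d hab hbc hcd h
      simp only [cmp_lt] at h
      exact h2 a b c d hab hbc hcd ⟨h.2.2, h.2.1, h.1⟩
    · intro a b c d hab hbc hcd h
      simp only [cmp_lt] at h
      exact h1 a b c d hab hbc hcd ⟨h.2.2, h.2.1, h.1⟩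
  constructor
  · intro h'
    have := h _ h'
    rwa [cmp_cmp] at this
  · exact h σ

lemma SD_cmp {n : ℕ} (σ : Equiv.Perm (Fin n)) (p : ℕ) : SD (cmp σ) p ↔ KD σ p := by
  simp only [SD, KD, cmp_lt]

lemma des_cmp {n : ℕ} (σ : Equiv.Perm (Fin n)) : des (cmp σ) + des σ = n - 1 := by
  classical
  rcases Nat.eq_zero_or_pos n with hn | hn
  · subst hn; simp [des]
  rw [des, des, ← card_union_of_disjoint]
  · have : (univ.filter fun i : Fin n => ∃ j : Fin n, (j : ℕ) = i + 1 ∧ cmp σ j < cmp σ i) ∪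
      (univ.filter fun i : Fin n => ∃ j : Fin n, (j : ℕ) = i + 1 ∧ σ j < σ i)
      = univ.erase (⟨n-1, by omega⟩ : Fin n) := by
      ext i
      simp only [mem_union, mem_filter, mem_univ, true_and, mem_erase, and_true, cmp_lt]
      constructor
      · rintro (⟨j, hj, _⟩ | ⟨j, hj, _⟩)
        · intro h; have h2 := congrArg Fin.val h; simp only at h2; have := j.2; omega
        · intro h; have h2 := congrArg Fin.val h; simp only at h2; have := j.2; omega
      · intro h
        have h2 : (i:ℕ) + 1 < n := by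
          have h3 := i.2
          by_contra h4
          apply h; ext; simp; omega
        have hne : σ i ≠ σ ⟨i+1, h2⟩ := by
          intro h5
          have := congrArg Fin.val (σ.injective h5)
          simp at this
        rcases lt_or_gt_of_ne hne with h6 | h6
        · left; exact ⟨⟨i+1, h2⟩, rfl, h6⟩
        · right; exact ⟨⟨i+1, h2⟩, rfl, h6⟩
    rw [this, card_erase_of_mem (mem_univ _)]; simp
  · rw [disjoint_left]
    intro i hi hi'
    simp only [mem_filter, mem_univ, true_and, cmp_lt] at hi hi'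
    obtain ⟨j, hj, h1⟩ := hi
    obtain ⟨j', hj', h2⟩ := hi'
    have : j = j' := by ext; omega
    subst this
    exact absurd h1 (not_lt.mpr h2.le)

end Pool.Agent.Lib.MP_f98a08_co
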