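import Mathlib
import Pool.Agent.Lib.MP_f98a08_co.Defs
import Pool.Agent.Lib.MP_f98a08_co.SepStruct
import Pool.Agent.Lib.MP_f98a08_co.Bridge

/-! Existence of the two-variable gamma coefficients. -/

open Finset MvPolynomial

namespace Pool.Agent.Lib.MP_f98a08_co

noncomputable section

/-- shorthand for the ring -/
abbrev Q2 := MvPolynomial (Fin 2) ℤ

def ss : Q2 := X 0
def tt : Q2 := X 1

/-- span of the two-variable gamma basis -/
def G2 (m : ℕ) : Submodule ℤ Q2 := Submodule.span ℤ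
  {P | ∃ i j, 2*i + j ≤ m ∧ P = (ss*tt)^i * (1+ss*tt)^j * (ss+tt)^(m-j-2*i)}

lemma G2_mul {a b : ℕ} {P Q : Q2} (hP : P ∈ G2 a) (hQ : Q ∈ G2 b) : P * Q ∈ G2 (a+b) := by
  have h := Submodule.mul_mem_mul hP hQ
  rw [G2, G2, Submodule.span_mul_span] at h
  refine Submodule.span_mono ?_ h
  rintro _ ⟨_, ⟨i, j, hk, rfl⟩, _, ⟨i', j', hl, rfl⟩, rfl⟩
  refine ⟨i+i', j+j', by omega, ?_⟩
  have : a + b - (j+j') - 2*(i+i') = (a - j - 2*i) + (b - j' - 2*i') := by omega
  rw [this, pow_add, pow_add, pow_add]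
  dsimp only
  ring

lemma G2_one : (1 : Q2) ∈ G2 0 := Submodule.subset_span ⟨0, 0, by omega, by simp⟩
lemma G2_u : (ss + tt : Q2) ∈ G2 1 := Submodule.subset_span ⟨0, 0, by omega, by simp⟩
lemma G2_v : (1 + ss * tt : Q2) ∈ G2 1 := Submodule.subset_span ⟨0, 1, by omega, by simp⟩
lemma G2_w : (ss * tt : Q2) ∈ G2 2 := Submodule.subset_span ⟨1, 0, by omega, by simp⟩

lemma G2_wpow (b : ℕ) : ((ss * tt)^b : Q2) ∈ G2 (2*b) := by
  induction b with
  | zero => simpa using G2_one
  | succ b ih => rw [pow_succ]; exact G2_mul ih G2_w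

lemma G2_two : (2 : Q2) ∈ G2 0 := by
  have := Submodule.add_mem _ G2_one G2_one
  rwa [one_add_one_eq_two] at this

lemma G2_p (d : ℕ) : (ss^d + tt^d : Q2) ∈ G2 d := by
  induction d using Nat.strong_induction_on with
  | _ d ih =>
    match d with
    | 0 => rw [pow_zero, pow_zero, one_add_one_eq_two]; exact G2_two
    | 1 => rw [pow_one, pow_one]; exact G2_u
    | d+2 =>
      have h1 := G2_mul G2_u (ih (d+1) (by omega))
      have h2 := G2_mul G2_w (ih d (by omega))
      rw [show 1 + (d+1) = d+2 by ring] at h1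
      rw [show 2 + d = d+2 by ring] at h2
      have := Submodule.sub_mem _ h1 h2
      convert this using 1
      ring

lemma G2_q (d : ℕ) : (1 + (ss*tt)^d : Q2) ∈ G2 d := by
  induction d using Nat.strong_induction_on with
  | _ d ih =>
    match d with
    | 0 => rw [pow_zero, one_add_one_eq_two]; exact G2_two
    | 1 => rw [pow_one]; exact G2_v
    | d+2 =>
      have h1 := G2_mul G2_v (ih (d+1) (by omega))
      have h2 := G2_mul G2_w (ih d (by omega))
      rw [show 1 + (d+1) = d+2 by ring] at h1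
      rw [show 2 + d = d+2 by ring] at h2
      have := Submodule.sub_mem _ h1 h2
      convert this using 1
      ring

lemma orb (b d e : ℕ) : ∑ x ∈ ({(b+d, b), (b, b+d), (b+d+e, b+e), (b+e, b+d+e)} : Finset (ℕ × ℕ)),
    ss^x.1 * tt^x.2 ∈ G2 (2*b+d+e) := by
  rcases Nat.eq_zero_or_pos d with hd | hd
  · subst hd
    rcases Nat.eq_zero_or_pos e with he | he
    · subst he
      simp only [add_zero, Finset.mem_singleton, Finset.insert_eq_of_mem, Finset.sum_singleton]
      rw [← mul_pow]; exact G2_wpow b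
    · have e1 : ({(b+0, b), (b, b+0), (b+0+e, b+e), (b+e, b+0+e)} : Finset (ℕ × ℕ))
          = {(b,b), (b+e,b+e)} := by
        simp
      rw [e1, Finset.sum_pair (by simp; omega)]
      have h := G2_mul (G2_wpow b) (G2_q e)
      have e3 : ss ^ b * tt ^ b + ss ^ (b + e) * tt ^ (b + e) = (ss * tt) ^ b
          * (1 + (ss * tt) ^ e) := by ring
      change ss ^ b * tt ^ b + ss ^ (b + e) * tt ^ (b + e) ∈ G2 (2*b+0+e)
      rw [e3, add_zero]; exact h
  · rcases Nat.eq_zero_or_pos e with he | he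
    · subst he
      have e1 : ({(b+d, b), (b, b+d), (b+d+0, b+0), (b+0, b+d+0)} : Finset (ℕ × ℕ))
          = {(b+d,b), (b,b+d)} := by
        ext x; simp only [Finset.mem_insert, Finset.mem_singleton, add_zero]; tauto
      rw [e1, Finset.sum_pair (by simp; omega)]
      have h := G2_mul (G2_wpow b) (G2_p d)
      have e3 : ss ^ (b + d) * tt ^ b + ss ^ b * tt ^ (b + d)
          = (ss * tt) ^ b * (ss ^ d + tt ^ d) := by ring
      change ss ^ (b + d) * tt ^ b + ss ^ b * tt ^ (b + d) ∈ G2 (2*b+d+0)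
      rw [e3, add_zero]; exact h
    · rw [Finset.sum_insert, Finset.sum_insert, Finset.sum_pair]
      · have := G2_mul (G2_mul (G2_wpow b) (G2_p d)) (G2_q e)
        convert this using 1
        dsimp only
        ring
      · simp; omega
      · simp only [Finset.mem_insert, Finset.mem_singleton, Prod.mk.injEq, not_or, not_and]; omega
      · simp only [Finset.mem_insert, Finset.mem_singleton, Prod.mk.injEq, not_or, not_and]; omega

/-- orbit representative -/
def rep (m : ℕ) (x : ℕ × ℕ) : ℕ × ℕ :=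
  if x.1 + x.2 ≤ m then (max x.1 x.2, min x.1 x.2) else (m - min x.1 x.2, m - max x.1 x.2)

lemma sym_mem {m : ℕ} (c : ℕ × ℕ → ℤ) (h1 : ∀ a b, c (a,b) = c (b,a))
    (h2 : ∀ a b, a ≤ m → b ≤ m → c (a,b) = c (m-a,m-b)) :
    ∑ x ∈ range (m+1) ×ˢ range (m+1), c x • (ss^x.1 * tt^x.2) ∈ G2 m := by
  rw [← Finset.sum_fiberwise_of_maps_to (s := range (m+1) ×ˢ range (m+1))
    (t := (range (m+1) ×ˢ range (m+1)).filter fun y => y.2 ≤ y.1 ∧ y.1 + y.2 ≤ m) (g := rep m)]
  · apply Submodule.sum_mem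
    rintro ⟨a, b⟩ hy
    simp only [mem_filter, mem_product, mem_range] at hy
    obtain ⟨⟨ha, hb⟩, hba, hab⟩ := hy
    obtain ⟨d, rfl⟩ : ∃ d, a = b + d := ⟨a - b, by omega⟩
    obtain ⟨e, rfl⟩ : ∃ e, m = 2*b + d + e := ⟨m - (2*b+d), by omega⟩
    have hset : (range (2*b+d+e+1) ×ˢ range (2*b+d+e+1)).filter
        (fun x => rep (2*b+d+e) x = (b+d, b))
        = {(b+d, b), (b, b+d), (b+d+e, b+e), (b+e, b+d+e)} := by
      ext ⟨x, y⟩
      rw [mem_filter, mem_product, mem_range, mem_range, rep]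
      simp only [Finset.mem_insert, Finset.mem_singleton, Prod.mk.injEq]
      split_ifs with h
      · rw [Prod.mk.injEq]; omega
      · rw [Prod.mk.injEq]; omega
    rw [hset]
    have hc : ∀ x ∈ ({(b+d, b), (b, b+d), (b+d+e, b+e), (b+e, b+d+e)} : Finset (ℕ × ℕ)),
        c x • (ss^x.1 * tt^x.2) = c (b+d,b) • (ss^x.1 * tt^x.2) := by
      intro x hx
      simp only [Finset.mem_insert, Finset.mem_singleton] at hx
      rcases hx with rfl | rfl | rfl | rfl
      · rfl
      · rw [h1 b (b+d)]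
      · rw [h1 (b+d) b, h2 b (b+d) (by omega) (by omega)]
        congr 3 <;> omega
      · rw [h2 (b+d) b (by omega) (by omega)]
        congr 3 <;> omega
    rw [Finset.sum_congr rfl hc, ← Finset.smul_sum]
    exact Submodule.smul_mem _ _ (orb b d e)
  · rintro ⟨x, y⟩ hx
    simp only [mem_product, mem_range, mem_filter, rep] at hx ⊢
    split_ifs with h
    · dsimp only; omega
    · dsimp only; omega

lemma G2_exists {m : ℕ} {P : Q2} (hP : P ∈ G2 m) : ∃ γ : ℕ → ℕ → ℤ,
    P = ∑ p ∈ (range (m+1) ×ˢ range (m+1)).filter (fun p => 2*p.1 + p.2 ≤ m),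
      C (γ p.1 p.2) * (X 0 * X 1)^p.1 * (1 + X 0 * X 1)^p.2 * (X 0 + X 1)^(m-p.2-2*p.1) := by
  induction hP using Submodule.span_induction with
  | mem x hx =>
    obtain ⟨i, j, hk, rfl⟩ := hx
    refine ⟨fun a b => if a = i ∧ b = j then 1 else 0, ?_⟩
    rw [Finset.sum_eq_single (i, j)]
    · simp [ss, tt]
    · rintro ⟨a, b⟩ _ hne
      have : ¬ (a = i ∧ b = j) := fun h => hne (by rw [h.1, h.2])
      simp [this]
    · intro h; exfalso; apply h
      simp only [mem_filter, mem_product, mem_range]; omega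
  | zero => exact ⟨fun _ _ => 0, by simp⟩
  | add x y _ _ hx hy =>
    obtain ⟨g, hg⟩ := hx
    obtain ⟨g', hg'⟩ := hy
    refine ⟨fun a b => g a b + g' a b, ?_⟩
    rw [hg, hg', ← Finset.sum_add_distrib]
    refine Finset.sum_congr rfl fun k _ => ?_
    rw [C_add]; ring
  | smul a x _ hx =>
    obtain ⟨g, hg⟩ := hx
    refine ⟨fun i j => a * g i j, ?_⟩
    rw [hg, Finset.smul_sum]
    refine Finset.sum_congr rfl fun k _ => ?_
    rw [C_mul, smul_eq_C_mul]; ring

/-! ### symmetries of the statistics -/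

lemma des_sum {m : ℕ} (σ : Equiv.Perm (Fin (m+1))) :
    des σ = ∑ i : Fin m, if σ i.succ < σ i.castSucc then 1 else 0 := by
  rw [des_eq, dd]
  refine Finset.sum_congr rfl fun i _ => ?_
  simp [dsc]

lemma des_rev {m : ℕ} (τ : Equiv.Perm (Fin (m+1))) :
    des (Fin.revPerm.trans τ) + des τ = m := by
  rw [des_sum, des_sum]
  have h1 : ∑ i : Fin m, (if (Fin.revPerm.trans τ) i.succ < (Fin.revPerm.trans τ) i.castSucc
      then 1 else 0) = ∑ i : Fin m, if τ i.castSucc < τ i.succ then 1 else 0 := by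
    rw [← Equiv.sum_comp Fin.revPerm]
    refine Finset.sum_congr rfl fun i _ => ?_
    simp [Fin.rev_succ, Fin.rev_castSucc]
  rw [h1, ← Finset.sum_add_distrib]
  have h2 : ∀ i ∈ (univ : Finset (Fin m)), ((if τ i.castSucc < τ i.succ then 1 else 0)
      + (if τ i.succ < τ i.castSucc then 1 else 0)) = 1 := by
    intro i _
    have hne : τ i.castSucc ≠ τ i.succ := fun h => by
      have := congrArg Fin.val (τ.injective h); simp at this
    rcases lt_or_gt_of_ne hne with h | h
    · rw [if_pos h, if_neg (not_lt.mpr h.le)]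
    · rw [if_neg (not_lt.mpr h.le), if_pos h]
  rw [Finset.sum_congr rfl h2]; simp

lemma ides_cmp {m : ℕ} (σ : Equiv.Perm (Fin (m+1))) : ides (cmp σ) + ides σ = m := by
  rw [ides, ides]
  have : (cmp σ)⁻¹ = Fin.revPerm.trans σ⁻¹ := by
    ext i
    simp only [Equiv.trans_apply]
    have : (cmp σ)⁻¹ i = σ⁻¹ (Fin.revPerm i) := by
      rw [Equiv.Perm.inv_eq_iff_eq, cmp_apply]; simp
    rw [this]
  rw [this, des_rev]

theorem exists_biGamma (m : ℕ) : ∃ γ : ℕ → ℕ → ℤ, IsTwoSidedGamma (m+1) γ := by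
  classical
  have hmem : biEulerian (m+1) ∈ G2 m := by
    set c : ℕ × ℕ → ℤ := fun x =>
      ((univ.filter fun σ : Equiv.Perm (Fin (m+1)) => (ides σ, des σ) = x).card : ℤ) with hc
    have h1 : biEulerian (m+1) = ∑ x ∈ range (m+1) ×ˢ range (m+1), c x • (ss^x.1 * tt^x.2) := by
      rw [biEulerian, ← Finset.sum_fiberwise_of_maps_to (s := univ)
        (t := range (m+1) ×ˢ range (m+1))
        (g := fun σ : Equiv.Perm (Fin (m+1)) => (ides σ, des σ))]
      · refine Finset.sum_congr rfl fun x _ => ?_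
        have : ∀ σ ∈ univ.filter (fun σ : Equiv.Perm (Fin (m+1)) => (ides σ, des σ) = x),
            (X 0 : Q2)^ides σ * X 1^des σ = ss^x.1 * tt^x.2 := by
          intro σ hσ
          rw [mem_filter] at hσ
          rw [← hσ.2]; rfl
        rw [Finset.sum_congr rfl this, Finset.sum_const, hc]
        simp
      · intro σ _
        simp only [mem_product, mem_range, ides]
        have a1 := des_lt (Nat.succ_pos m) σ
        have a2 := des_lt (Nat.succ_pos m) σ⁻¹
        omega
    rw [h1]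
    apply sym_mem
    · intro a b
      simp only [hc]
      congr 1
      refine Finset.card_bij (fun σ _ => σ⁻¹) ?_ ?_ ?_
      · intro σ hσ
        simp only [mem_filter, mem_univ, true_and, Prod.mk.injEq, ides] at hσ ⊢
        rw [inv_inv]; exact ⟨hσ.2, hσ.1⟩
      · intro σ _ τ _ h; exact inv_injective h
      · intro σ hσ
        refine ⟨σ⁻¹, ?_, inv_inv σ⟩
        simp only [mem_filter, mem_univ, true_and, Prod.mk.injEq, ides] at hσ ⊢
        rw [inv_inv]; exact ⟨hσ.2, hσ.1⟩
    · intro a b ha hb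
      simp only [hc]
      congr 1
      refine Finset.card_bij (fun σ _ => cmp σ) ?_ ?_ ?_
      · intro σ hσ
        simp only [mem_filter, mem_univ, true_and, Prod.mk.injEq] at hσ ⊢
        have h3 := des_cmp σ
        have h4 := ides_cmp σ
        omega
      · intro σ _ τ _ h
        have := congrArg cmp h
        rwa [cmp_cmp, cmp_cmp] at this
      · intro σ hσ
        refine ⟨cmp σ, ?_, cmp_cmp σ⟩
        simp only [mem_filter, mem_univ, true_and, Prod.mk.injEq] at hσ ⊢
        have h3 := des_cmp σ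
        have h4 := ides_cmp σ
        omega
  obtain ⟨γ, hγ⟩ := G2_exists hmem
  refine ⟨γ, ?_⟩
  rw [IsTwoSidedGamma, hγ, Nat.add_sub_cancel]

end

end Pool.Agent.Lib.MP_f98a08_co
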