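import Mathlib

/-! A Lagrange inversion formula for power series, and its application to
`S (1 - t S^2) = z (1 + u S + t S^2)`. -/

open PowerSeries Finset

namespace Pool.Agent.Lib.MP_f98a08_co

noncomputable section

variable {R : Type*} [CommRing R]

lemma constCoeff_aeval {S : R⟦X⟧} (hS : constantCoeff S = 0) (p : Polynomial R) :
    constantCoeff (Polynomial.aeval S p) = p.coeff 0 := by
  rw [Polynomial.aeval_eq_sum_range, map_sum, Finset.sum_range_succ']
  simp [hS]

lemma lag_coeff [IsDomain R] [CharZero R] {U V : R⟦X⟧} (hUV : U * V = 1) (m : ℕ) :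
    coeff m (V^(m+1) * (U + X * d⁄dX R U)) = if m = 0 then 1 else 0 := by
  cases m with
  | zero =>
    rw [if_pos rfl, zero_add, pow_one, mul_add]
    have : V * (X * d⁄dX R U) = X * (V * d⁄dX R U) := by ring
    rw [this, map_add, coeff_zero_X_mul, mul_comm, hUV]
    simp
  | succ j =>
    rw [if_neg (Nat.succ_ne_zero j)]
    have h1 : U * d⁄dX R V + V * d⁄dX R U = 0 := by
      have := congrArg (d⁄dX R) hUV
      rw [Derivation.leibniz] at this
      simpa using this
    have h2 : d⁄dX R V = - (V^2 * d⁄dX R U) := by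
      linear_combination V * h1 - d⁄dX R V * hUV
    have h3 : d⁄dX R (V^(j+1)) = -(((j+1:ℕ) : R⟦X⟧) * (V^(j+2) * d⁄dX R U)) := by
      rw [Derivation.leibniz_pow, h2]
      simp only [smul_eq_mul, nsmul_eq_mul, Nat.add_sub_cancel]
      ring
    have h4 : ((j+1:ℕ) : R⟦X⟧) * (V^(j+2) * (U + X * d⁄dX R U))
        = ((j+1:ℕ) : R⟦X⟧) * V^(j+1) - X * d⁄dX R (V^(j+1)) := by
      rw [h3]
      linear_combination ((j+1:ℕ) : R⟦X⟧) * V^(j+1) * hUV
    have h5 := congrArg (coeff (j+1)) h4
    have hc : ∀ f : R⟦X⟧, coeff (j+1) (((j+1:ℕ) : R⟦X⟧) * f) = ((j+1:ℕ):R) * coeff (j+1) f := by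
      intro f
      rw [← coeff_C_mul]; simp
    rw [hc, map_sub, hc, coeff_succ_X_mul, coeff_derivative] at h5
    have h6 : ((j+1:ℕ):R) * coeff (j+1) (V^(j+2) * (U + X * d⁄dX R U)) = 0 := by
      rw [h5]; push_cast; ring
    have h7 : ((j+1:ℕ):R) ≠ 0 := by exact_mod_cast Nat.succ_ne_zero j
    exact (mul_eq_zero.mp h6).resolve_left h7

/-- Lagrange inversion for `S = z N(S)/D(S)`. -/
theorem lagrange [IsDomain R] [CharZero R] (N D : Polynomial R) (hN : N.coeff 0 = 1)
    (hD : D.coeff 0 = 1) (n : ℕ) (G : R⟦X⟧)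
    (hG : (D : R⟦X⟧)^(n+1) * G = (N : R⟦X⟧)^(n+1)) (S U : R⟦X⟧) (hS : S = X * U)
    (hU : Polynomial.aeval S D * U = Polynomial.aeval S N) :
    coeff n G = (n+1) * coeff (n+1) S := by
  have hS0 : constantCoeff S = 0 := by rw [hS]; simp
  -- truncation
  set T := trunc (n+1) G with hT
  have hdvd : Polynomial.X^(n+1) ∣ D^(n+1) * T - N^(n+1) := by
    rw [Polynomial.X_pow_dvd_iff]
    intro d hd
    rw [← Polynomial.coeff_coe, Polynomial.coe_sub, Polynomial.coe_mul, Polynomial.coe_pow,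
      Polynomial.coe_pow, map_sub, ← hG, ← map_sub, ← mul_sub]
    have h1 := eq_X_pow_mul_shift_add_trunc (n+1) G
    have h2 : (T : R⟦X⟧) - G = X^(n+1) * (-(PowerSeries.mk fun i ↦ coeff (i + (n+1)) G)) := by
      conv_lhs => rw [h1]
      ring
    rw [h2, mul_left_comm, coeff_X_pow_mul', if_neg (by omega)]
  obtain ⟨E, hE⟩ := hdvd
  have hE2 := congrArg (Polynomial.aeval S) hE
  rw [map_sub, map_mul, map_pow, map_pow, map_mul, map_pow, Polynomial.aeval_X] at hE2
  -- units
  obtain ⟨Di, hDi⟩ : ∃ Di, Polynomial.aeval S D * Di = 1 := by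
    have : IsUnit (Polynomial.aeval S D) := by
      rw [isUnit_iff_constantCoeff, constCoeff_aeval hS0, hD]; exact isUnit_one
    exact this.exists_right_inv
  obtain ⟨V, hV⟩ : ∃ V, U * V = 1 := by
    have : IsUnit U := by
      rw [isUnit_iff_constantCoeff]
      have h := congrArg (constantCoeff (R := R)) hU
      rw [map_mul, constCoeff_aeval hS0, constCoeff_aeval hS0, hD, hN, one_mul] at h
      rw [h]; exact isUnit_one
    exact this.exists_right_inv
  set A := Polynomial.aeval S D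
  set B := Polynomial.aeval S N
  set TT := Polynomial.aeval S T with hTT
  set EE' := Polynomial.aeval S E
  have hADi : A^(n+1) * Di^(n+1) = 1 := by rw [← mul_pow, hDi, one_pow]
  have hUVn : U^(n+1) * V^(n+1) = 1 := by rw [← mul_pow, hV, one_pow]
  have hB : B^(n+1) = A^(n+1) * U^(n+1) := by rw [← mul_pow, hU]
  have h3 : TT = U^(n+1) + X^(n+1) * (U^(n+1) * EE' * Di^(n+1)) := by
    have h4 : A^(n+1) * TT = A^(n+1) * U^(n+1) + X^(n+1) * U^(n+1) * EE' := by
      rw [← hB]
      have : S^(n+1) = X^(n+1) * U^(n+1) := by rw [hS, mul_pow]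
      rw [← this]
      linear_combination hE2
    linear_combination Di^(n+1) * h4 + (U^(n+1) - TT) * hADi
  have hsum : TT = ∑ j ∈ range (n+1), C (coeff j G) * (X^j * U^j) := by
    rw [hTT, Polynomial.aeval_eq_sum_range' (n := n+1)]
    · refine Finset.sum_congr rfl fun j hj => ?_
      rw [mem_range] at hj
      rw [hT, coeff_trunc, if_pos hj, smul_eq_C_mul, hS, mul_pow]
    · exact natDegree_trunc_lt G n
  have hdS : d⁄dX R S = U + X * d⁄dX R U := by
    rw [hS, Derivation.leibniz]; simp [add_comm]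
  have h5 : ∑ j ∈ range (n+1), C (coeff j G) * (X^j * (V^(n-j+1) * d⁄dX R S))
      = d⁄dX R S + X^(n+1) * (U^(n+1) * EE' * Di^(n+1) * V^(n+1) * d⁄dX R S) := by
    have h6 : TT * (V^(n+1) * d⁄dX R S)
      = ∑ j ∈ range (n+1), C (coeff j G) * (X^j * (V^(n-j+1) * d⁄dX R S)) := by
      rw [hsum, Finset.sum_mul]
      refine Finset.sum_congr rfl fun j hj => ?_
      rw [mem_range] at hj
      have h7 : V^(n+1) = V^j * V^(n-j+1) := by rw [← pow_add]; congr 1; omega
      have h8 : U^j * V^j = 1 := by rw [← mul_pow, hV, one_pow]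
      rw [h7]
      linear_combination (C (coeff j G) * X^j * V^(n-j+1) * d⁄dX R S) * h8
    rw [← h6, h3]
    linear_combination (d⁄dX R S) * hUVn
  have h9 := congrArg (coeff n) h5
  rw [map_sum, map_add, coeff_X_pow_mul', if_neg (by omega), add_zero, coeff_derivative] at h9
  rw [Finset.sum_eq_single n] at h9
  · rw [coeff_C_mul, coeff_X_pow_mul', if_pos le_rfl, Nat.sub_self, hdS, lag_coeff hV, if_pos rfl,
      mul_one] at h9
    rw [h9]; ring
  · intro j hj hne
    rw [mem_range] at hj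
    rw [coeff_C_mul, coeff_X_pow_mul', if_pos (by omega), hdS, lag_coeff hV, if_neg (by omega),
      mul_zero]
  · intro h; exfalso; apply h; rw [mem_range]; omega

/-! ### the even substitution -/

/-- `X ↦ t X^2` -/
def phi (t : R) : R⟦X⟧ →+* R⟦X⟧ :=
  ((expand 2 two_ne_zero : R⟦X⟧ →ₐ[R] R⟦X⟧) : R⟦X⟧ →+* R⟦X⟧).comp (rescale t)

lemma phi_X (t : R) : phi t X = C t * X^2 := by
  rw [phi, RingHom.comp_apply, rescale_X, map_mul]
  simp [expand_C, expand_X]

lemma coeff_phi (t : R) (f : R⟦X⟧) (n : ℕ) :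
    coeff n (phi t f) = if 2 ∣ n then t^(n/2) * coeff (n/2) f else 0 := by
  rw [phi, RingHom.comp_apply]
  change coeff n (expand 2 two_ne_zero (rescale t f)) = _
  rw [coeff_expand, coeff_rescale]

/-- `d n b k = ∑_{i+j=k} C(b,i) C(n+j,j)` -/
def dcf (n b k : ℕ) : ℕ := ∑ p ∈ antidiagonal k, b.choose p.1 * (n + p.2).choose n

lemma coeff_dcf (n b k : ℕ) : coeff k ((1 + X : R⟦X⟧)^b * PowerSeries.mk fun j => ((n + j).choose n : R))
    = (dcf n b k : R) := by
  have h : (1 + X : R⟦X⟧)^b = (((1 + Polynomial.X)^b : Polynomial R) : R⟦X⟧) := by simp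
  rw [coeff_mul, dcf]
  push_cast
  refine Finset.sum_congr rfl fun p _ => ?_
  rw [h, Polynomial.coeff_coe, Polynomial.coeff_one_add_X_pow, coeff_mk]

/-- coefficient extraction for the separable functional equation -/
theorem lag_sep [IsDomain R] [CharZero R] (u t : R) (S : R⟦X⟧) (hS0 : constantCoeff S = 0)
    (hS : S * (1 - C t * S^2) = X * (1 + C u * S + C t * S^2)) (n : ℕ) :
    (n+1) * coeff (n+1) S = ∑ k ∈ (range (n+1)).filter (fun k => 2*k ≤ n),
      ((n+1).choose (2*k+1) * dcf n (2*k+1) k : ℕ) * (t^k * u^(n-2*k)) := by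
  obtain ⟨U, hU⟩ := X_dvd_iff.mpr hS0
  set N : Polynomial R := 1 + Polynomial.C u * Polynomial.X + Polynomial.C t * Polynomial.X^2
  set D : Polynomial R := 1 - Polynomial.C t * Polynomial.X^2
  have hUD : Polynomial.aeval S D * U = Polynomial.aeval S N := by
    have h1 : X * (Polynomial.aeval S D * U) = X * Polynomial.aeval S N := by
      have e1 : Polynomial.aeval S D = 1 - C t * S^2 := by
        simp [D]
      have e2 : Polynomial.aeval S N = 1 + C u * S + C t * S^2 := by
        simp [N]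
      rw [e1, e2, ← hS]
      conv_rhs => rw [hU]
      conv_lhs => rw [hU]
      ring
    exact mul_left_cancel₀ X_ne_zero h1
  set F : R⟦X⟧ := PowerSeries.mk fun j => ((n + j).choose n : R) with hF
  have hF1 : (1 - X)^(n+1) * F = 1 := by
    rw [mul_comm, hF]; exact mk_add_choose_mul_one_sub_pow_eq_one R n
  have hF2 : (1 - C t * X^2)^(n+1) * phi t F = 1 := by
    have := congrArg (phi t) hF1
    rw [map_mul, map_pow, map_sub, phi_X, map_one] at this
    exact this
  have hDc : (D : R⟦X⟧) = 1 - C t * X^2 := by simp [D]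
  have hNc : (N : R⟦X⟧) = 1 + C u * X + C t * X^2 := by simp [N]
  have hG : (D : R⟦X⟧)^(n+1) * ((N : R⟦X⟧)^(n+1) * phi t F) = (N : R⟦X⟧)^(n+1) := by
    rw [hDc]; linear_combination (N : R⟦X⟧)^(n+1) * hF2
  have h := lagrange N D (by simp [N]) (by simp [D]) n _ hG S U hU hUD
  rw [← h]
  have h2 : (N : R⟦X⟧)^(n+1) * phi t F = ∑ a ∈ range (n+2), C ((n+1).choose a * u^a : R)
      * (X^a * phi t ((1+X)^(n+1-a) * F)) := by
    have e : (N : R⟦X⟧) = C u * X + phi t (1 + X) := by
      rw [hNc, map_add, map_one, phi_X]; ring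
    rw [e, add_pow, Finset.sum_mul]
    refine Finset.sum_congr rfl fun a _ => ?_
    rw [map_mul, map_mul, map_pow, map_pow, mul_pow]
    simp only [map_natCast]
    ring
  rw [h2, map_sum]
  have h3 : ∀ a ∈ range (n+2), coeff n (C ((n+1).choose a * u^a : R)
      * (X^a * phi t ((1+X)^(n+1-a) * F))) = if a ≤ n ∧ 2 ∣ (n-a) then
        ((n+1).choose a * dcf n (n+1-a) ((n-a)/2) : ℕ) * (t^((n-a)/2) * u^a) else 0 := by
    intro a _
    rw [coeff_C_mul, coeff_X_pow_mul', coeff_phi, hF, coeff_dcf]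
    by_cases h4 : a ≤ n
    · by_cases h5 : 2 ∣ (n - a)
      · rw [if_pos h4, if_pos h5, if_pos ⟨h4, h5⟩]; push_cast; ring
      · rw [if_pos h4, if_neg h5, if_neg (fun h => h5 h.2), mul_zero]
    · rw [if_neg h4, if_neg (fun h => h4 h.1), mul_zero]
  rw [Finset.sum_congr rfl h3, ← Finset.sum_filter]
  symm
  refine Finset.sum_bij (fun k _ => n - 2*k) ?_ ?_ ?_ ?_
  · intro k hk
    simp only [mem_filter, mem_range] at hk ⊢
    omega
  · intro a ha b hb hab
    simp only [mem_filter, mem_range] at ha hb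
    omega
  · intro a ha
    simp only [mem_filter, mem_range] at ha
    refine ⟨(n-a)/2, ?_, ?_⟩
    · simp only [mem_filter, mem_range]; omega
    · omega
  · intro k hk
    simp only [mem_filter, mem_range] at hk
    have e1 : (n - (n - 2*k))/2 = k := by omega
    have e2 : n + 1 - (n - 2*k) = 2*k+1 := by omega
    have e3 : (n+1).choose (n-2*k) = (n+1).choose (2*k+1) := by
      rw [← Nat.choose_symm (by omega : 2*k+1 ≤ n+1)]
      congr 1; omega
    rw [e1, e2, e3]

end

end Pool.Agent.Lib.MP_f98a08_co
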