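import Mathlib
import Pool.Agent.Lib.MP_f98a08_co.Bridge
import Pool.Agent.Lib.MP_f98a08_co.Lagr

/-! The numerical inequality between the two families of coefficients. -/

open Finset

namespace Pool.Agent.Lib.MP_f98a08_co

noncomputable section

/-- `(n+1) b(n+1,k)` -/
def Bt (n k : ℕ) : ℕ := (n+1).choose (2*k+1) * dcf n (2*k+1) k

/-- `(n+1) a(n+1,k)` -/
def AA' (n k : ℕ) : ℝ := (n+1) * (Al (n+1)).coeff k

lemma dcf_step (n b k : ℕ) : (n+1) * dcf (n+1) b k ≤ (n+1+k) * dcf n b k := by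
  rw [dcf, dcf, Finset.mul_sum, Finset.mul_sum]
  refine Finset.sum_le_sum fun p hp => ?_
  have hp' : p.1 + p.2 = k := mem_antidiagonal.mp hp
  have h := Nat.add_one_mul_choose_eq (n + p.2) n
  have e : n + 1 + p.2 = n + p.2 + 1 := by omega
  rw [e]
  have h2 : n + p.2 + 1 ≤ n + 1 + k := by omega
  calc (n+1) * (b.choose p.1 * (n + p.2 + 1).choose (n+1))
      = b.choose p.1 * ((n + p.2 + 1).choose (n + 1) * (n + 1)) := by ring
    _ = b.choose p.1 * ((n + p.2 + 1) * (n + p.2).choose n) := by rw [h]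
    _ ≤ b.choose p.1 * ((n + 1 + k) * (n + p.2).choose n) :=
        Nat.mul_le_mul_left _ (Nat.mul_le_mul_right _ h2)
    _ = _ := by ring

lemma Bt_step {n k : ℕ} (h : 2*k ≤ n) : ((n:ℝ)+1-2*k)*(n+1)*Bt (n+1) k
    ≤ (n+2)*(n+1+k)*Bt n k := by
  have h1 := Nat.choose_mul_succ_eq (n+1) (2*k+1)
  have h2 : n + 1 + 1 - (2*k+1) = n + 1 - 2*k := by omega
  rw [h2] at h1
  have h3 := dcf_step n (2*k+1) k
  have h4 : (n+1-2*k) * (n+1) * Bt (n+1) k ≤ (n+2)*(n+1+k)*Bt n k := by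
    rw [Bt, Bt]
    calc (n+1-2*k) * (n+1) * ((n+1+1).choose (2*k+1) * dcf (n+1) (2*k+1) k)
        = ((n+1+1).choose (2*k+1) * (n+1-2*k)) * ((n+1) * dcf (n+1) (2*k+1) k) := by ring
      _ ≤ ((n+1+1).choose (2*k+1) * (n+1-2*k)) * ((n+1+k) * dcf n (2*k+1) k) :=
          Nat.mul_le_mul_left _ h3
      _ = _ := by rw [← h1]; ring
  have h5 : ((n+1-2*k : ℕ) : ℝ) = (n:ℝ)+1-2*k := by
    rw [Nat.cast_sub (by omega)]; push_cast; ring
  have h6 : (((n+1-2*k) * (n+1) * Bt (n+1) k : ℕ) : ℝ) ≤ (((n+2)*(n+1+k)*Bt n k : ℕ) : ℝ) := by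
    exact_mod_cast h4
  push_cast [h5] at h6
  exact h6

lemma AA_step (n k : ℕ) : ((n:ℝ)+1+(k+1)^2) * AA' n k ≤ (n+1) * AA' (n+1) k := by
  have h := Al_step (n+1) k (Nat.succ_ne_zero n)
  rw [AA', AA']
  push_cast at h ⊢
  have : (0:ℝ) ≤ (n:ℝ)+1 := by positivity
  calc ((n:ℝ)+1+(k+1)^2) * ((n+1) * (Al (n+1)).coeff k)
      = (n+1) * (((n:ℝ)+1+(k+1)^2) * (Al (n+1)).coeff k) := by ring
    _ ≤ (n+1) * ((n+1+1) * (Al (n+1+1)).coeff k) := mul_le_mul_of_nonneg_left h this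

lemma step {n k : ℕ} (h : 2*k ≤ n) {ρ ρ' : ℝ} (hρ : 0 ≤ ρ) (h1 : ρ * Bt n k ≤ AA' n k)
    (h2 : ρ' * ((n+2)*(n+1+k)) ≤ ρ * ((n+1+(k+1)^2)*(n+1-2*k))) :
    ρ' * Bt (n+1) k ≤ AA' (n+1) k := by
  have hB := Bt_step h
  have hA := AA_step n k
  have hP : (0:ℝ) < ((n:ℝ)+2)*(n+1+k)*(n+1) := by positivity
  have hn : (0:ℝ) ≤ (n:ℝ)+1+(k+1)^2 := by positivity
  have hB0 : (0:ℝ) ≤ (Bt (n+1) k : ℝ) * (n+1) := by positivity
  have hPP : (0:ℝ) ≤ ((n:ℝ)+2)*(n+1+k) := by positivity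
  refine le_of_mul_le_mul_left ?_ hP
  calc ((n:ℝ)+2)*(n+1+k)*(n+1) * (ρ' * Bt (n+1) k)
      = (ρ' * ((n+2)*(n+1+k))) * (Bt (n+1) k * (n+1)) := by ring
    _ ≤ (ρ * ((n+1+(k+1)^2)*(n+1-2*k))) * (Bt (n+1) k * (n+1)) :=
        mul_le_mul_of_nonneg_right h2 hB0
    _ = ρ * (n+1+(k+1)^2) * (((n:ℝ)+1-2*k)*(n+1)*Bt (n+1) k) := by ring
    _ ≤ ρ * (n+1+(k+1)^2) * ((n+2)*(n+1+k)*Bt n k) :=
        mul_le_mul_of_nonneg_left hB (mul_nonneg hρ hn)
    _ = ((n:ℝ)+1+(k+1)^2) * ((n+2)*(n+1+k)) * (ρ * Bt n k) := by ring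
    _ ≤ ((n:ℝ)+1+(k+1)^2) * ((n+2)*(n+1+k)) * AA' n k :=
        mul_le_mul_of_nonneg_left h1 (mul_nonneg hn hPP)
    _ = ((n+2)*(n+1+k)) * (((n:ℝ)+1+(k+1)^2) * AA' n k) := by ring
    _ ≤ ((n+2)*(n+1+k)) * ((n+1) * AA' (n+1) k) := mul_le_mul_of_nonneg_left hA hPP
    _ = _ := by ring

/-- once the growth condition holds, the inequality propagates -/
lemma chain {n0 k : ℕ} (hk : 2 ≤ k) (h0 : 2*k ≤ n0) (hc : 2*(k+1)^2+1 ≤ (n0+1)*(k-1))
    (hb : (Bt n0 k : ℝ) ≤ AA' n0 k) {n : ℕ} (hn : n0 ≤ n) : (Bt n k : ℝ) ≤ AA' n k := by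
  induction n, hn using Nat.le_induction with
  | base => exact hb
  | succ n hn ih =>
    have h := step (n := n) (k := k) (by omega) (ρ := 1) (ρ' := 1) zero_le_one (by simpa using ih) ?_
    · simpa using h
    · have hc2 : 2*(k+1)^2+1 ≤ (n+1)*(k-1) :=
        hc.trans (Nat.mul_le_mul_right _ (by omega))
      have hc3 : (2*((k:ℝ)+1)^2+1) ≤ ((n:ℝ)+1)*(k-1) := by
        have : ((k-1:ℕ):ℝ) = (k:ℝ)-1 := by rw [Nat.cast_sub (by omega)]; simp
        rw [← this]; exact_mod_cast hc2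
      have hk0 : (0:ℝ) ≤ k := Nat.cast_nonneg k
      have := mul_le_mul_of_nonneg_left hc3 hk0
      nlinarith

/-! ### lower bounds for `Tau` -/

/-- expansion of `yy` to low order -/
lemma yy_expand : ∃ Z : PowerSeries ℝ, yy = -PowerSeries.X^2 - 2 * PowerSeries.X^4
    + PowerSeries.X^6 * Z := by
  have hu : (1 - (PowerSeries.X : PowerSeries ℝ)^2) * (i1 * i2) = 1 := by
    linear_combination (1+PowerSeries.X) * i2 * i1_mul + i2_mul
  refine ⟨(-3 + 2 * PowerSeries.X^2) * (i1*i2)^2, ?_⟩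
  have hy : yy = -(PowerSeries.X^2 * (i1*i2)^2) := by rw [yy]; ring
  rw [hy]
  linear_combination (-(PowerSeries.X^2 + 2 * PowerSeries.X^4)
    * ((1 - (PowerSeries.X : PowerSeries ℝ)^2) * (i1 * i2) + 1)) * hu

lemma Tau_coeff_one (n : ℕ) : (Tau n).coeff 1 = 4^(n+1) - 2*3^(n+1) + 2 := by
  have h := FF_prod n
  obtain ⟨Z, hZ⟩ := yy_expand
  set p := Tau n with hp
  have h0 : p.coeff 0 = 1 := Tau_coeff_zero n
  have e1 : p = p.divX.divX * Polynomial.X^2 + Polynomial.C (p.coeff 1) * Polynomial.X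
      + Polynomial.C (p.coeff 0) := by
    conv_lhs => rw [← Polynomial.divX_mul_X_add p, ← Polynomial.divX_mul_X_add p.divX]
    rw [Polynomial.coeff_divX]; ring
  have e2 : Polynomial.aeval yy p = Polynomial.aeval yy p.divX.divX * yy^2
      + algebraMap ℝ (PowerSeries ℝ) (p.coeff 1) * yy + 1 := by
    conv_lhs => rw [e1]
    rw [map_add, map_add, map_mul, map_mul, map_pow, Polynomial.aeval_X, Polynomial.aeval_C,
      Polynomial.aeval_C, h0, map_one]
  set r := Polynomial.aeval yy p.divX.divX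
  have e3 : yy * Polynomial.aeval yy p = -PowerSeries.X^2 - 2 * PowerSeries.X^4
      + PowerSeries.C (p.coeff 1) * PowerSeries.X^4
      + PowerSeries.X^6 * (Z + PowerSeries.C (p.coeff 1) * (4 + 4 * PowerSeries.X^2
          - 2 * PowerSeries.X^2 * Z - 4 * PowerSeries.X^4 * Z + PowerSeries.X^6 * Z^2)
        + r * (-1 - 2 * PowerSeries.X^2 + PowerSeries.X^4 * Z)^3) := by
    rw [e2, hZ]
    simp only [PowerSeries.algebraMap_apply, Algebra.algebraMap_self, RingHom.id_apply]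
    ring
  rw [e3] at h
  have h4 := congrArg (PowerSeries.coeff 4) h
  rw [FF, sg_mk, PowerSeries.coeff_mul] at h4
  have h5 : (PowerSeries.coeff 4) ((2:PowerSeries ℝ) * PowerSeries.X^4) = 2 := by
    rw [show (2:PowerSeries ℝ) = PowerSeries.C 2 from rfl, PowerSeries.coeff_C_mul,
      PowerSeries.coeff_X_pow_self, mul_one]
  rw [map_add, map_add, map_sub, map_neg, h5, PowerSeries.coeff_C_mul,
    PowerSeries.coeff_X_pow_self, PowerSeries.coeff_X_pow, PowerSeries.coeff_X_pow_mul'] at h4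
  simp only [Finset.Nat.antidiagonal_succ, PowerSeries.coeff_mk] at h4
  simp at h4
  have h6 : (4:ℝ)^(n+1) = 2^(n+1) * 2^(n+1) := by rw [← mul_pow]; norm_num
  rw [h6]
  linarith

/-- lower bound table -/
def tl : ℕ → ℕ → ℕ
  | _, 0 => 1
  | n, 1 => 4^(n+1) + 2 - 2*3^(n+1)
  | 0, _+2 => 0
  | n+1, k+2 => (k+3)^2 * tl n (k+2) + 4*(n+2)*(n-2*(k+1)) * tl n (k+1)

lemma tl_one_aux (n : ℕ) : 2*3^(n+1) ≤ 4^(n+1) + 2 := by
  induction n with
  | zero => norm_num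
  | succ n ih =>
    have h1 : 3^(n+1) ≥ 3 := by
      calc 3 = 3^1 := by norm_num
        _ ≤ 3^(n+1) := Nat.pow_le_pow_right (by norm_num) (by omega)
    rw [pow_succ 3 (n+1), pow_succ 4 (n+1)]
    omega

lemma tl_le (n k : ℕ) : (tl n k : ℝ) ≤ (Tau n).coeff k := by
  have hz : ∀ n, (tl n 0 : ℝ) ≤ (Tau n).coeff 0 := by
    intro n; rw [tl, Tau_coeff_zero]; simp
  have h1 : ∀ n, (tl n 1 : ℝ) ≤ (Tau n).coeff 1 := by
    intro n
    rw [tl, Tau_coeff_one, Nat.cast_sub (tl_one_aux n)]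
    push_cast; linarith
  induction n generalizing k with
  | zero =>
    match k with
    | 0 => exact hz 0
    | 1 => exact h1 0
    | k+2 => simp [tl, Tau_nonneg]
  | succ n ih =>
    match k with
    | 0 => exact hz _
    | 1 => exact h1 _
    | k+2 =>
      have h := Tau_step n (k+1)
      refine le_trans ?_ h
      rw [tl]
      push_cast
      rw [show ((k:ℝ)+1+2) = k+3 by ring]
      refine add_le_add (mul_le_mul_of_nonneg_left (ih _) (by positivity)) ?_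
      rcases lt_or_ge n (2*(k+1)) with h3 | h3
      · rw [Tau_eq_zero h3, Nat.sub_eq_zero_of_le h3.le]; simp
      · rw [Nat.cast_sub h3]
        have h4 : (0:ℝ) ≤ 4*(n+2)*((n:ℝ)-(2*(k+1):ℕ)) := by
          have : ((2*(k+1):ℕ):ℝ) ≤ n := by exact_mod_cast h3
          have : 0 ≤ (n:ℝ)-(2*(k+1):ℕ) := by linarith
          positivity
        have := mul_le_mul_of_nonneg_left (ih (k+1)) h4
        push_cast at this ⊢
        exact this

lemma ascP_stirling (n l : ℕ) : (ascPochhammer ℝ n).coeff l = Nat.stirlingFirst n l := by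
  induction n generalizing l with
  | zero =>
    cases l with
    | zero => simp
    | succ l => simp [Polynomial.coeff_one]
  | succ n ih =>
    cases l with
    | zero => rw [ascP_coeff_zero (Nat.succ_ne_zero n)]; simp
    | succ l =>
      rw [ascP_coeff_succ, ih, ih, Nat.stirlingFirst_succ_succ]; push_cast; ring

/-- numerical lower bound -/
def AN (n k : ℕ) : ℕ := ∑ l ∈ range (n+1), Nat.stirlingFirst (n+1) (l+1) * tl l k

lemma AA'_eq (n k : ℕ) : AA' n k = (1/(n.factorial:ℝ)) *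
    ∑ l ∈ range (n+1), (Nat.stirlingFirst (n+1) (l+1) : ℝ) * (Tau l).coeff k := by
  rw [AA', Al_coeff, Nat.factorial_succ]
  simp only [ascP_stirling]
  push_cast
  have : (n.factorial : ℝ) ≠ 0 := by positivity
  field_simp

lemma AN_le (n k : ℕ) : (AN n k : ℝ) ≤ n.factorial * AA' n k := by
  rw [AA'_eq, AN]
  push_cast
  have : (n.factorial : ℝ) ≠ 0 := by positivity
  rw [← mul_assoc, mul_one_div_cancel this, one_mul]
  refine Finset.sum_le_sum fun l _ => mul_le_mul_of_nonneg_left (tl_le _ _) (by positivity)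

lemma of_check {n k a b : ℕ} (hb : 0 < b) (h : a * (Bt n k * n.factorial) ≤ b * AN n k) :
    ((a:ℝ)/b) * Bt n k ≤ AA' n k := by
  have h1 : (a:ℝ) * (Bt n k * n.factorial) ≤ b * AN n k := by exact_mod_cast h
  have h2 := AN_le n k
  have hf : (0:ℝ) < n.factorial := by positivity
  have hb' : (0:ℝ) < b := by exact_mod_cast hb
  have h3 : (a:ℝ) * (Bt n k * n.factorial) ≤ b * (n.factorial * AA' n k) :=
    h1.trans (mul_le_mul_of_nonneg_left h2 hb'.le)
  rw [div_mul_eq_mul_div, div_le_iff₀ hb']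
  refine le_of_mul_le_mul_right ?_ hf
  linarith

/-! ### the columns `k = 0` and `k = 1` -/

lemma case_zero (n : ℕ) : (Bt n 0 : ℝ) ≤ AA' n 0 := by
  have h1 : Bt n 0 = n + 1 := by simp [Bt, dcf]
  have h2 : (Al (n+1)).coeff 0 = 1 := by
    have h := asc_eval n 1
    rw [Al_coeff]
    simp only [Tau_coeff_zero]
    simp only [Nat.cast_one, one_pow] at h
    rw [← h, add_comm 1 n, Nat.choose_self]; simp
  rw [h1, AA', h2]; push_cast; linarith

lemma choose_three_cast (m : ℕ) : ((m+3).choose 3 : ℝ) = (m+3)*(m+2)*(m+1)/6 := by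
  have h := Nat.descFactorial_eq_factorial_mul_choose (m+3) 3
  have h2 : (m+3).descFactorial 3 = (m+3)*((m+2)*(m+1)) := by
    simp [Nat.descFactorial]; ring
  rw [h2] at h
  have h3 : (((m+3)*((m+2)*(m+1)) : ℕ) : ℝ) = ((Nat.factorial 3 * (m+3).choose 3 : ℕ) : ℝ) := by
    exact_mod_cast h
  push_cast [Nat.factorial] at h3
  linarith

lemma choose_two_cast (m : ℕ) : ((m+2).choose 2 : ℝ) = (m+2)*(m+1)/2 := by
  rw [Nat.cast_choose_two]; push_cast; ring

lemma case_one {n : ℕ} (hn : 2 ≤ n) : (Bt n 1 : ℝ) ≤ AA' n 1 := by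
  obtain ⟨m, rfl⟩ : ∃ m, n = m + 2 := ⟨n-2, by omega⟩
  have h1 : (Bt (m+2) 1 : ℝ) = (m+3)*(m+2)*(m+1)/6 * (m+6) := by
    rw [Bt, dcf]
    simp only [Finset.Nat.antidiagonal_succ]
    push_cast
    rw [show m+2+1 = m+3 by ring, choose_three_cast]
    simp
    left; ring
  have h2 : (Al (m+2+1)).coeff 1 = ((m+6).choose 3 : ℝ) - 2 * ((m+5).choose 2 : ℝ) + 2 := by
    have h4 := asc_eval (m+2) 4
    have h3 := asc_eval (m+2) 3
    have h1 := asc_eval (m+2) 1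
    rw [show (4 + (m+2)) = m + 6 by ring, Nat.choose_symm_of_eq_add
      (show m + 6 = (m+2+1) + 3 by ring)] at h4
    rw [show (3 + (m+2)) = m + 5 by ring, Nat.choose_symm_of_eq_add
      (show m + 5 = (m+2+1) + 2 by ring)] at h3
    rw [show (1 + (m+2)) = m + 2 + 1 by ring, Nat.choose_self] at h1
    rw [Al_coeff]
    simp only [Tau_coeff_one]
    have e : ∑ x ∈ range (m + 2 + 1), (ascPochhammer ℝ (m + 2 + 1)).coeff (x + 1)
          * (4 ^ (x + 1) - 2 * 3 ^ (x + 1) + 2)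
        = ∑ x ∈ range (m + 2 + 1), (ascPochhammer ℝ (m + 2 + 1)).coeff (x + 1)
          * ((4:ℕ):ℝ) ^ (x + 1) - 2 * ∑ x ∈ range (m + 2 + 1),
            (ascPochhammer ℝ (m + 2 + 1)).coeff (x + 1) * ((3:ℕ):ℝ) ^ (x + 1)
          + 2 * ∑ x ∈ range (m + 2 + 1), (ascPochhammer ℝ (m + 2 + 1)).coeff (x + 1)
            * ((1:ℕ):ℝ) ^ (x + 1) := by
      rw [Finset.mul_sum, Finset.mul_sum, ← Finset.sum_sub_distrib, ← Finset.sum_add_distrib]
      refine Finset.sum_congr rfl fun x _ => ?_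
      push_cast; ring
    rw [e]
    push_cast at h4 h3 h1 ⊢
    linarith
  rw [h1, AA', h2, show m + 6 = (m+3)+3 by ring, show m+5 = (m+3)+2 by ring, choose_three_cast,
    choose_two_cast]
  push_cast
  apply le_of_eq; ring

/-! ### the diagonal for large `k` -/

lemma dcf_bound {n b k : ℕ} (hk : k ≤ b) :
    (dcf n b k : ℝ) * (1/4)^k ≤ (5/4)^b * (4/3)^(n+1) := by
  have h1 : (dcf n b k : ℝ) * (1/4)^k = ∑ p ∈ antidiagonal k,
      ((b.choose p.1 : ℝ) * (1/4)^p.1) * (((n + p.2).choose n : ℝ) * (1/4)^p.2) := by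
    rw [dcf]
    push_cast
    rw [Finset.sum_mul]
    refine Finset.sum_congr rfl fun p hp => ?_
    have hp' : p.1 + p.2 = k := mem_antidiagonal.mp hp
    rw [← hp', pow_add]; ring
  have h2 : ∑ p ∈ antidiagonal k,
      ((b.choose p.1 : ℝ) * (1/4)^p.1) * (((n + p.2).choose n : ℝ) * (1/4)^p.2)
      ≤ (∑ i ∈ range (k+1), (b.choose i : ℝ) * (1/4)^i)
        * (∑ j ∈ range (k+1), ((n + j).choose n : ℝ) * (1/4)^j) := by
    rw [Finset.sum_mul_sum, ← Finset.sum_product']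
    refine Finset.sum_le_sum_of_subset_of_nonneg ?_ (fun p _ _ => by positivity)
    intro p hp
    have hp' : p.1 + p.2 = k := mem_antidiagonal.mp hp
    rw [mem_product, mem_range, mem_range]; omega
  have h3 : ∑ i ∈ range (k+1), (b.choose i : ℝ) * (1/4)^i ≤ (5/4)^b := by
    have h4 : (5/4 : ℝ)^b = ∑ i ∈ range (b+1), (b.choose i : ℝ) * (1/4)^i := by
      rw [show (5/4:ℝ) = 1/4 + 1 by norm_num, add_pow]
      refine Finset.sum_congr rfl fun i _ => ?_
      simp [mul_comm]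
    rw [h4]
    refine Finset.sum_le_sum_of_subset_of_nonneg ?_ (fun p _ _ => by positivity)
    intro i hi
    rw [mem_range] at hi ⊢; omega
  have h5 : ∑ j ∈ range (k+1), ((n + j).choose n : ℝ) * (1/4)^j ≤ (4/3)^(n+1) := by
    have hr : ‖(1/4:ℝ)‖ < 1 := by norm_num
    have hs := summable_choose_mul_geometric_of_norm_lt_one n hr
    have ht := tsum_choose_mul_geometric_of_norm_lt_one n hr
    have h6 : (4/3 : ℝ)^(n+1) = 1/(1-1/4)^(n+1) := by
      rw [one_div, ← inv_pow]; norm_num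
    rw [h6, ← ht]
    refine le_trans (le_of_eq ?_) (hs.sum_le_tsum (range (k+1)) (fun i _ => by positivity))
    refine Finset.sum_congr rfl fun j _ => ?_
    rw [add_comm n j]
  rw [h1]
  refine h2.trans (mul_le_mul h3 h5 (Finset.sum_nonneg fun i _ => by positivity) (by positivity))

lemma Bt_diag (k : ℕ) : (Bt (2*k) k : ℝ) ≤ 5/3 * (100/9)^k := by
  have h1 : Bt (2*k) k = dcf (2*k) (2*k+1) k := by rw [Bt, Nat.choose_self, one_mul]
  rw [h1]
  have h2 := dcf_bound (n := 2*k) (b := 2*k+1) (k := k) (by omega)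
  have h3 : (5/4:ℝ)^(2*k+1) * (4/3)^(2*k+1) = 5/3 * (25/9)^k := by
    rw [← mul_pow, pow_succ, pow_mul]; norm_num
    ring
  rw [h3] at h2
  have h4 : (100/9:ℝ)^k = (25/9)^k * 4^k := by rw [← mul_pow]; norm_num
  have h5 : (1/4:ℝ)^k * 4^k = 1 := by rw [← mul_pow]; norm_num
  have h6 : (0:ℝ) < 4^k := by positivity
  rw [h4]
  calc (dcf (2*k) (2*k+1) k : ℝ) = (dcf (2*k) (2*k+1) k : ℝ) * (1/4)^k * 4^k := by
        rw [mul_assoc, h5, mul_one]
    _ ≤ 5/3 * (25/9)^k * 4^k := mul_le_mul_of_nonneg_right h2 h6.le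
    _ = _ := by ring

lemma AA_diag (k : ℕ) : AA' (2*k) k = (Tau (2*k)).coeff k / (2*k).factorial := by
  rw [AA'_eq, Finset.sum_range_succ, Nat.stirlingFirst_self]
  have : ∑ l ∈ range (2*k), (Nat.stirlingFirst (2*k+1) (l+1) : ℝ) * (Tau l).coeff k = 0 := by
    apply Finset.sum_eq_zero
    intro l hl
    rw [mem_range] at hl
    rw [Tau_eq_zero hl, mul_zero]
  rw [this]
  push_cast; ring

lemma diag_step (k : ℕ) : 2*(k+1) * AA' (2*k) k ≤ AA' (2*(k+1)) (k+1) := by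
  rw [AA_diag, AA_diag]
  have h1 := Tau_step (2*k+1) k
  have h2 := Tau_step' (2*k) k
  rw [Tau_eq_zero (show 2*k+1 < 2*(k+1) by omega)] at h1
  rw [show 2*(k+1) = 2*k+1+1 by ring, Nat.factorial_succ, Nat.factorial_succ]
  push_cast at h1 ⊢
  set T0 := (Tau (2*k)).coeff k
  set T1 := (Tau (2*k+1)).coeff k
  set T2 := (Tau (2*k+1+1)).coeff (k+1)
  have hT0 : 0 ≤ T0 := Tau_nonneg _ _
  have hf : (0:ℝ) < (2*k).factorial := by positivity
  rw [mul_div_assoc', div_le_div_iff₀ hf (by positivity)]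
  have hk : (0:ℝ) ≤ k := Nat.cast_nonneg k
  have h3 : 4*(2*(k:ℝ)+3)*((k+1)^2*T0) ≤ T2 := by
    have h4 : 4*(2*(k:ℝ)+3)*((k+1)^2*T0) ≤ 4*(2*(k:ℝ)+3)*T1 :=
      mul_le_mul_of_nonneg_left h2 (by positivity)
    refine h4.trans (le_trans (le_of_eq ?_) h1)
    ring
  have h5 : 2*((k:ℝ)+1)*T0*((2*k+1+1)*((2*k+1)*((2*k).factorial:ℝ)))
      ≤ 4*(2*(k:ℝ)+3)*((k+1)^2*T0)*((2*k).factorial:ℝ) := by
    have : 0 ≤ T0 * ((2*k).factorial:ℝ) * (k+1)^2 := by positivity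
    nlinarith
  exact h5.trans (mul_le_mul_of_nonneg_right h3 hf.le)

lemma diag_big {k : ℕ} (hk : 7 ≤ k) : 89 * (5/3 * (100/9)^k) ≤ AA' (2*k) k := by
  induction k, hk using Nat.le_induction with
  | base =>
    rw [AA_diag]
    have h1 : tl 14 7 = 903208339737327697920 := by decide +kernel
    have h2 := tl_le 14 7
    rw [h1] at h2
    have hf : ((2*7).factorial : ℝ) = 87178291200 := by norm_num [Nat.factorial]
    rw [hf, le_div_iff₀ (by norm_num)]
    push_cast at h2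
    refine le_trans ?_ h2
    norm_num
  | succ k hk ih =>
    have h1 := diag_step k
    have hk' : (7:ℝ) ≤ k := by exact_mod_cast hk
    have h0 : (0:ℝ) ≤ 89 * (5/3 * (100/9)^k) := by positivity
    have h2 : 2*((k:ℝ)+1) * (89 * (5/3 * (100/9)^k)) ≤ 2*((k:ℝ)+1) * AA' (2*k) k :=
      mul_le_mul_of_nonneg_left ih (by positivity)
    refine le_trans ?_ (h2.trans h1)
    rw [pow_succ]
    nlinarith

lemma diag_ratio {k : ℕ} (hk : 6 ≤ k) : 89 * (Bt (2*k) k : ℝ) ≤ AA' (2*k) k := by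
  rcases Nat.eq_or_lt_of_le hk with h | h
  · subst h
    have := of_check (n := 12) (k := 6) (a := 89) (b := 1) one_pos (by decide +kernel)
    simpa using this
  · have h1 := Bt_diag k
    have h2 := diag_big (k := k) h
    linarith

end

end Pool.Agent.Lib.MP_f98a08_co
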