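import Mathlib
import Pool.Agent.Lib.MP_f98a08_co.Ineq

/-! The inequality `b(n,k) ≤ a(n,k)` for all `k`. -/

open Finset

namespace Pool.Agent.Lib.MP_f98a08_co

noncomputable section

lemma case_two {n : ℕ} (hn : 4 ≤ n) : (Bt n 2 : ℝ) ≤ AA' n 2 := by
  have s9 : (18/10 : ℝ) * Bt 9 2 ≤ AA' 9 2 := by
    have := of_check (n := 9) (k := 2) (a := 18) (b := 10) (by norm_num) (by decide +kernel)
    simpa using this
  have s10 : (3109/2000 : ℝ) * Bt 10 2 ≤ AA' 10 2 :=
    step (n := 9) (k := 2) (by norm_num) (by norm_num) s9 (by norm_num)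
  have s11 : (279/200 : ℝ) * Bt 11 2 ≤ AA' 11 2 :=
    step (n := 10) (k := 2) (by norm_num) (by norm_num) s10 (by norm_num)
  have s12 : (3219/2500 : ℝ) * Bt 12 2 ≤ AA' 12 2 :=
    step (n := 11) (k := 2) (by norm_num) (by norm_num) s11 (by norm_num)
  have s13 : (607/500 : ℝ) * Bt 13 2 ≤ AA' 13 2 :=
    step (n := 12) (k := 2) (by norm_num) (by norm_num) s12 (by norm_num)
  have s14 : (5817/5000 : ℝ) * Bt 14 2 ≤ AA' 14 2 :=
    step (n := 13) (k := 2) (by norm_num) (by norm_num) s13 (by norm_num)
  have s15 : (11291/10000 : ℝ) * Bt 15 2 ≤ AA' 15 2 :=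
    step (n := 14) (k := 2) (by norm_num) (by norm_num) s14 (by norm_num)
  have s16 : (11069/10000 : ℝ) * Bt 16 2 ≤ AA' 16 2 :=
    step (n := 15) (k := 2) (by norm_num) (by norm_num) s15 (by norm_num)
  have s17 : (10939/10000 : ℝ) * Bt 17 2 ≤ AA' 17 2 :=
    step (n := 16) (k := 2) (by norm_num) (by norm_num) s16 (by norm_num)
  have s18 : (10881/10000 : ℝ) * Bt 18 2 ≤ AA' 18 2 :=
    step (n := 17) (k := 2) (by norm_num) (by norm_num) s17 (by norm_num)
  have pos : ∀ m, (0:ℝ) ≤ Bt m 2 := fun m => by positivity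
  rcases Nat.lt_or_ge n 18 with h | h
  · interval_cases n
    · have := of_check (n := 4) (k := 2) (a := 1) (b := 1) one_pos (by decide +kernel)
      simpa using this
    · have := of_check (n := 5) (k := 2) (a := 1) (b := 1) one_pos (by decide +kernel)
      simpa using this
    · have := of_check (n := 6) (k := 2) (a := 1) (b := 1) one_pos (by decide +kernel)
      simpa using this
    · have := of_check (n := 7) (k := 2) (a := 1) (b := 1) one_pos (by decide +kernel)
      simpa using this
    · have := of_check (n := 8) (k := 2) (a := 1) (b := 1) one_pos (by decide +kernel)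
      simpa using this
    · have := pos 9; linarith
    · have := pos 10; linarith
    · have := pos 11; linarith
    · have := pos 12; linarith
    · have := pos 13; linarith
    · have := pos 14; linarith
    · have := pos 15; linarith
    · have := pos 16; linarith
    · have := pos 17; linarith
  · refine chain (n0 := 18) (by norm_num) (by norm_num) (by norm_num) ?_ h
    have := pos 18; linarith

lemma case_three {n : ℕ} (hn : 6 ≤ n) : (Bt n 3 : ℝ) ≤ AA' n 3 := by
  have s8 : (43/10 : ℝ) * Bt 8 3 ≤ AA' 8 3 := by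
    have := of_check (n := 8) (k := 3) (a := 43) (b := 10) (by norm_num) (by decide +kernel)
    simpa using this
  have s9 : (43/16 : ℝ) * Bt 9 3 ≤ AA' 9 3 :=
    step (n := 8) (k := 3) (by norm_num) (by norm_num) s8 (by norm_num)
  have s10 : (3909/2000 : ℝ) * Bt 10 3 ≤ AA' 10 3 :=
    step (n := 9) (k := 3) (by norm_num) (by norm_num) s9 (by norm_num)
  have s11 : (3141/2000 : ℝ) * Bt 11 3 ≤ AA' 11 3 :=
    step (n := 10) (k := 3) (by norm_num) (by norm_num) s10 (by norm_num)
  have s12 : (1353/1000 : ℝ) * Bt 12 3 ≤ AA' 12 3 :=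
    step (n := 11) (k := 3) (by norm_num) (by norm_num) s11 (by norm_num)
  have s13 : (12261/10000 : ℝ) * Bt 13 3 ≤ AA' 13 3 :=
    step (n := 12) (k := 3) (by norm_num) (by norm_num) s12 (by norm_num)
  have s14 : (11539/10000 : ℝ) * Bt 14 3 ≤ AA' 14 3 :=
    step (n := 13) (k := 3) (by norm_num) (by norm_num) s13 (by norm_num)
  have s15 : (5589/5000 : ℝ) * Bt 15 3 ≤ AA' 15 3 :=
    step (n := 14) (k := 3) (by norm_num) (by norm_num) s14 (by norm_num)
  have s16 : (5537/5000 : ℝ) * Bt 16 3 ≤ AA' 16 3 :=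
    step (n := 15) (k := 3) (by norm_num) (by norm_num) s15 (by norm_num)
  have pos : ∀ m, (0:ℝ) ≤ Bt m 3 := fun m => by positivity
  rcases Nat.lt_or_ge n 16 with h | h
  · interval_cases n
    · have := of_check (n := 6) (k := 3) (a := 1) (b := 1) one_pos (by decide +kernel)
      simpa using this
    · have := of_check (n := 7) (k := 3) (a := 1) (b := 1) one_pos (by decide +kernel)
      simpa using this
    · have := pos 8; linarith
    · have := pos 9; linarith
    · have := pos 10; linarith
    · have := pos 11; linarith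
    · have := pos 12; linarith
    · have := pos 13; linarith
    · have := pos 14; linarith
    · have := pos 15; linarith
  · refine chain (n0 := 16) (by norm_num) (by norm_num) (by norm_num) ?_ h
    have := pos 16; linarith

lemma case_four {n : ℕ} (hn : 8 ≤ n) : (Bt n 4 : ℝ) ≤ AA' n 4 := by
  have s9 : (138/10 : ℝ) * Bt 9 4 ≤ AA' 9 4 := by
    have := of_check (n := 9) (k := 4) (a := 138) (b := 10) (by norm_num) (by decide +kernel)
    simpa using this
  have s10 : (62727/10000 : ℝ) * Bt 10 4 ≤ AA' 10 4 :=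
    step (n := 9) (k := 4) (by norm_num) (by norm_num) s9 (by norm_num)
  have s11 : (9409/2500 : ℝ) * Bt 11 4 ≤ AA' 11 4 :=
    step (n := 10) (k := 4) (by norm_num) (by norm_num) s10 (by norm_num)
  have s12 : (26779/10000 : ℝ) * Bt 12 4 ≤ AA' 12 4 :=
    step (n := 11) (k := 4) (by norm_num) (by norm_num) s11 (by norm_num)
  have s13 : (10689/5000 : ℝ) * Bt 13 4 ≤ AA' 13 4 :=
    step (n := 12) (k := 4) (by norm_num) (by norm_num) s12 (by norm_num)
  have s14 : (18527/10000 : ℝ) * Bt 14 4 ≤ AA' 14 4 :=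
    step (n := 13) (k := 4) (by norm_num) (by norm_num) s13 (by norm_num)
  have s15 : (2133/1250 : ℝ) * Bt 15 4 ≤ AA' 15 4 :=
    step (n := 14) (k := 4) (by norm_num) (by norm_num) s14 (by norm_num)
  have s16 : (16461/10000 : ℝ) * Bt 16 4 ≤ AA' 16 4 :=
    step (n := 15) (k := 4) (by norm_num) (by norm_num) s15 (by norm_num)
  have pos : ∀ m, (0:ℝ) ≤ Bt m 4 := fun m => by positivity
  rcases Nat.lt_or_ge n 16 with h | h
  · interval_cases n
    · have := of_check (n := 8) (k := 4) (a := 1) (b := 1) one_pos (by decide +kernel)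
      simpa using this
    · have := pos 9; linarith
    · have := pos 10; linarith
    · have := pos 11; linarith
    · have := pos 12; linarith
    · have := pos 13; linarith
    · have := pos 14; linarith
    · have := pos 15; linarith
  · refine chain (n0 := 16) (by norm_num) (by norm_num) (by norm_num) ?_ h
    have := pos 16; linarith

lemma case_five {n : ℕ} (hn : 10 ≤ n) : (Bt n 5 : ℝ) ≤ AA' n 5 := by
  have s10 : (51/1 : ℝ) * Bt 10 5 ≤ AA' 10 5 := by
    have := of_check (n := 10) (k := 5) (a := 51) (b := 1) (by norm_num) (by decide +kernel)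
    simpa using this
  have s11 : (124843/10000 : ℝ) * Bt 11 5 ≤ AA' 11 5 :=
    step (n := 10) (k := 5) (by norm_num) (by norm_num) s10 (by norm_num)
  have s12 : (5423/1000 : ℝ) * Bt 12 5 ≤ AA' 12 5 :=
    step (n := 11) (k := 5) (by norm_num) (by norm_num) s11 (by norm_num)
  have s13 : (15817/5000 : ℝ) * Bt 13 5 ≤ AA' 13 5 :=
    step (n := 12) (k := 5) (by norm_num) (by norm_num) s12 (by norm_num)
  have s14 : (22199/10000 : ℝ) * Bt 14 5 ≤ AA' 14 5 :=
    step (n := 13) (k := 5) (by norm_num) (by norm_num) s13 (by norm_num)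
  have s15 : (17689/10000 : ℝ) * Bt 15 5 ≤ AA' 15 5 :=
    step (n := 14) (k := 5) (by norm_num) (by norm_num) s14 (by norm_num)
  have s16 : (15459/10000 : ℝ) * Bt 16 5 ≤ AA' 16 5 :=
    step (n := 15) (k := 5) (by norm_num) (by norm_num) s15 (by norm_num)
  have s17 : (14483/10000 : ℝ) * Bt 17 5 ≤ AA' 17 5 :=
    step (n := 16) (k := 5) (by norm_num) (by norm_num) s16 (by norm_num)
  have s18 : (14317/10000 : ℝ) * Bt 18 5 ≤ AA' 18 5 :=
    step (n := 17) (k := 5) (by norm_num) (by norm_num) s17 (by norm_num)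
  have pos : ∀ m, (0:ℝ) ≤ Bt m 5 := fun m => by positivity
  rcases Nat.lt_or_ge n 18 with h | h
  · interval_cases n
    · have := pos 10; linarith
    · have := pos 11; linarith
    · have := pos 12; linarith
    · have := pos 13; linarith
    · have := pos 14; linarith
    · have := pos 15; linarith
    · have := pos 16; linarith
    · have := pos 17; linarith
  · refine chain (n0 := 18) (by norm_num) (by norm_num) (by norm_num) ?_ h
    have := pos 18; linarith

lemma case_big {n k : ℕ} (hk : 6 ≤ k) (hn : 2*k ≤ n) : (Bt n k : ℝ) ≤ AA' n k := by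
  have hK : (6:ℝ) ≤ k := by exact_mod_cast hk
  have s0 := diag_ratio hk
  have s1 : (89/6 : ℝ) * Bt (2*k+1) k ≤ AA' (2*k+1) k :=
    step (n := 2*k) (k := k) (by omega) (by norm_num) s0 (by push_cast; nlinarith)
  have s2 : (89/18 : ℝ) * Bt (2*k+2) k ≤ AA' (2*k+2) k :=
    step (n := 2*k+1) (k := k) (by omega) (by norm_num) s1 (by push_cast; nlinarith)
  have s3 : (89/36 : ℝ) * Bt (2*k+3) k ≤ AA' (2*k+3) k :=
    step (n := 2*k+2) (k := k) (by omega) (by norm_num) s2 (by push_cast; nlinarith)
  have s4 : (89/54 : ℝ) * Bt (2*k+4) k ≤ AA' (2*k+4) k :=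
    step (n := 2*k+3) (k := k) (by omega) (by norm_num) s3 (by push_cast; nlinarith)
  have s5 : (89/72 : ℝ) * Bt (2*k+5) k ≤ AA' (2*k+5) k :=
    step (n := 2*k+4) (k := k) (by omega) (by norm_num) s4 (by push_cast; nlinarith)
  have s6 : (89/84 : ℝ) * Bt (2*k+6) k ≤ AA' (2*k+6) k :=
    step (n := 2*k+5) (k := k) (by omega) (by norm_num) s5 (by push_cast; nlinarith)
  have s7 : (1691/1680 : ℝ) * Bt (2*k+7) k ≤ AA' (2*k+7) k :=
    step (n := 2*k+6) (k := k) (by omega) (by norm_num) s6 (by push_cast; nlinarith)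
  have pos : ∀ m, (0:ℝ) ≤ Bt m k := fun m => by positivity
  rcases Nat.lt_or_ge n (2*k+7) with h | h
  · obtain ⟨i, rfl⟩ : ∃ i, n = 2*k + i := ⟨n-2*k, by omega⟩
    have hi : i < 7 := by omega
    interval_cases i
    · have := pos (2*k); rw [add_zero]; linarith
    · have := pos (2*k+1); linarith
    · have := pos (2*k+2); linarith
    · have := pos (2*k+3); linarith
    · have := pos (2*k+4); linarith
    · have := pos (2*k+5); linarith
    · have := pos (2*k+6); linarith
  · refine chain (n0 := 2*k+7) (by omega) (by omega) ?_ ?_ h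
    · obtain ⟨j, rfl⟩ : ∃ j, k = j + 6 := ⟨k-6, by omega⟩
      have : j + 6 - 1 = j + 5 := by omega
      rw [this]; nlinarith
    · have := pos (2*k+7); linarith

/-- the numerical inequality -/
theorem Bt_le {n k : ℕ} (hn : 2*k ≤ n) : (Bt n k : ℝ) ≤ AA' n k := by
  rcases Nat.lt_or_ge k 6 with h | h
  · interval_cases k
    · exact case_zero n
    · exact case_one hn
    · exact case_two hn
    · exact case_three hn
    · exact case_four hn
    · exact case_five hn
  · exact case_big h hn

end

end Pool.Agent.Lib.MP_f98a08_co
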