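import Mathlib
import Pool.Agent.Lib.MP_f98a08_co.SepStruct

/-! The generating function of separable permutations by descents. -/

open Finset

namespace Pool.Agent.Lib.MP_f98a08_co

noncomputable section

variable {R : Type*} [CommRing R] (x y : R)

/-- weight of a permutation -/
def wt {n : ℕ} (σ : Equiv.Perm (Fin n)) : R := x^(des σ) * y^(n-1-des σ)

open Classical in
/-- weighted count of separable permutations -/
def Sx (n : ℕ) : R := ∑ σ : Equiv.Perm (Fin n) with IsSeparablePerm σ, wt x y σ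

open Classical in
/-- weighted count of sum-decomposable separable permutations -/
def Dx (n : ℕ) : R := ∑ σ : Equiv.Perm (Fin n) with (IsSeparablePerm σ ∧ ∃ p, SD σ p), wt x y σ

open Classical in
/-- weighted count of sum-indecomposable separable permutations -/
def Ix (n : ℕ) : R := ∑ σ : Equiv.Perm (Fin n) with (IsSeparablePerm σ ∧ ¬ ∃ p, SD σ p), wt x y σ

lemma Dx_add_Ix (n : ℕ) : Dx x y n + Ix x y n = Sx x y n := by
  classical
  rw [Dx, Ix, Sx, ← Finset.sum_filter_add_sum_filter_not (univ.filter fun σ => IsSeparablePerm σ)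
    (fun σ : Equiv.Perm (Fin n) => ∃ p, SD σ p), Finset.filter_filter, Finset.filter_filter]

lemma wt_jn {p q : ℕ} (hp : 0 < p) (hq : 0 < q) (α : Equiv.Perm (Fin p))
    (β : Equiv.Perm (Fin q)) : wt x y (jn α β) = y * wt x y α * wt x y β := by
  rw [wt, wt, wt, des_jn]
  have h1 := des_lt hp α
  have h2 := des_lt hq β
  have : p + q - 1 - (des α + des β) = 1 + (p - 1 - des α) + (q - 1 - des β) := by omega
  rw [this, pow_add, pow_add, pow_add, pow_one]; ring

open Classical in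
lemma fibre {p q : ℕ} (hp : 0 < p) (hq : 0 < q) :
    ∑ σ : Equiv.Perm (Fin (p+q)) with (IsSeparablePerm σ ∧ SD σ p ∧ ∀ r < p, ¬ SD σ r), wt x y σ
      = y * Ix x y p * Sx x y q := by
  rw [Ix, Sx, mul_assoc, Finset.sum_mul_sum, ← Finset.sum_product', Finset.mul_sum]
  symm
  refine Finset.sum_bij (fun ab _ => jn ab.1 ab.2) ?_ ?_ ?_ ?_
  · rintro ⟨α, β⟩ hab
    simp only [mem_product, mem_filter, mem_univ, true_and] at hab ⊢
    obtain ⟨⟨h1, h2⟩, h3⟩ := hab
    refine ⟨(sep_jn_iff hp hq α β).mpr ⟨h1, h3⟩, SD_jn hp hq α β, fun r hr h => h2 ⟨r, ?_⟩⟩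
    exact (SD_jn_iff hq α β hr).mp h
  · rintro ⟨α, β⟩ _ ⟨α', β'⟩ _ h
    obtain ⟨h1, h2⟩ := jn_inj h
    exact Prod.ext h1 h2
  · intro σ hσ
    simp only [mem_filter, mem_univ, true_and] at hσ
    obtain ⟨h1, h2, h3⟩ := hσ
    obtain ⟨α, β, rfl⟩ := exists_jn h2
    refine ⟨(α, β), ?_, rfl⟩
    simp only [mem_product, mem_filter, mem_univ, true_and]
    obtain ⟨h4, h5⟩ := (sep_jn_iff hp hq α β).mp h1
    refine ⟨⟨h4, ?_⟩, h5⟩
    rintro ⟨r, hr⟩
    exact h3 r hr.2.1 ((SD_jn_iff hq α β hr.2.1).mpr hr)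
  · rintro ⟨α, β⟩ _
    rw [wt_jn x y hp hq]; ring

lemma Dx_rec (n : ℕ) : Dx x y n = ∑ p ∈ Ico 1 n, y * Ix x y p * Sx x y (n-p) := by
  classical
  have h1 : ∀ p ∈ Ico 1 n, y * Ix x y p * Sx x y (n-p)
      = ∑ σ : Equiv.Perm (Fin n) with (IsSeparablePerm σ ∧ SD σ p ∧ ∀ r < p, ¬ SD σ r), wt x y σ := by
    intro p hp
    rw [mem_Ico] at hp
    obtain ⟨q, rfl⟩ : ∃ q, n = p + q := ⟨n-p, by omega⟩
    rw [Nat.add_sub_cancel_left]
    exact (fibre x y (by omega) (by omega)).symm
  rw [Finset.sum_congr rfl h1]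
  simp_rw [Finset.sum_filter]
  rw [Finset.sum_comm, Dx, Finset.sum_filter]
  refine Finset.sum_congr rfl fun σ _ => ?_
  by_cases h : IsSeparablePerm σ ∧ ∃ p, SD σ p
  · rw [if_pos h]
    obtain ⟨h2, h3⟩ := h
    have h4 := Nat.find_spec h3
    rw [Finset.sum_eq_single (Nat.find h3), if_pos]
    · exact ⟨h2, h4, fun r hr => Nat.find_min h3 hr⟩
    · intro b hb hne
      rw [if_neg]
      rintro ⟨_, h5, h6⟩
      rcases lt_or_gt_of_ne hne with h7 | h7
      · exact Nat.find_min h3 h7 h5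
      · exact h6 _ h7 h4
    · intro hn
      exfalso; apply hn; rw [mem_Ico]; exact ⟨h4.1, h4.2.1⟩
  · rw [if_neg h]
    symm
    apply Finset.sum_eq_zero
    intro p _
    rw [if_neg]
    rintro ⟨h5, h6, _⟩
    exact h ⟨h5, p, h6⟩

/-- complement as an equivalence -/
def cmpE (n : ℕ) : Equiv.Perm (Fin n) ≃ Equiv.Perm (Fin n) := ⟨cmp, cmp, cmp_cmp, cmp_cmp⟩

lemma wt_cmp {n : ℕ} (σ : Equiv.Perm (Fin n)) : wt x y (cmp σ) = wt y x σ := by
  have h := des_cmp σ
  rw [wt, wt, mul_comm]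
  congr 2
  · omega
  · omega

lemma Sx_swap (n : ℕ) : Sx x y n = Sx y x n := by
  classical
  rw [Sx, Sx, Finset.sum_filter, Finset.sum_filter, ← (cmpE n).sum_comp]
  refine Finset.sum_congr rfl fun σ _ => ?_
  change (if IsSeparablePerm (cmp σ) then wt x y (cmp σ) else 0) = _
  rw [wt_cmp, sep_cmp]

open Classical in
lemma Dx_swap (n : ℕ) : Dx y x n
    = ∑ σ : Equiv.Perm (Fin n) with (IsSeparablePerm σ ∧ ∃ p, KD σ p), wt x y σ := by
  rw [Dx, Finset.sum_filter, Finset.sum_filter, ← (cmpE n).sum_comp]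
  refine Finset.sum_congr rfl fun σ _ => ?_
  change (if IsSeparablePerm (cmp σ) ∧ (∃ p, SD (cmp σ) p) then wt y x (cmp σ) else 0) = _
  rw [wt_cmp]
  simp only [sep_cmp, SD_cmp]

lemma Sx_eq {n : ℕ} (hn : 2 ≤ n) : Sx x y n = Dx x y n + Dx y x n := by
  classical
  rw [← Dx_add_Ix, Dx_swap x y]
  congr 1
  rw [Ix]
  refine Finset.sum_congr ?_ fun _ _ => rfl
  ext σ
  simp only [mem_filter, mem_univ, true_and]
  constructor
  · rintro ⟨h1, h2⟩
    exact ⟨h1, (SD_or_KD hn h1).resolve_left h2⟩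
  · rintro ⟨h1, h2⟩
    exact ⟨h1, fun h3 => not_SD_KD h3 h2⟩

lemma Dx_small {n : ℕ} (hn : n < 2) : Dx x y n = 0 := by
  rw [Dx_rec]
  apply Finset.sum_eq_zero
  intro p hp
  rw [mem_Ico] at hp; omega

lemma Sx_one : Sx x y 1 = 1 := by
  classical
  rw [Sx, Finset.sum_filter, Fintype.sum_unique, if_pos, wt]
  · have := des_lt (n := 1) Nat.one_pos (default : Equiv.Perm (Fin 1))
    have h0 : des (default : Equiv.Perm (Fin 1)) = 0 := by omega
    rw [h0]; simp
  · constructor
    · intro a b c d hab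
      exact absurd hab (by rw [Subsingleton.elim a b]; exact lt_irrefl _)
    · intro a b c d hab
      exact absurd hab (by rw [Subsingleton.elim a b]; exact lt_irrefl _)

open PowerSeries

/-- the generating series -/
def GS : R⟦X⟧ := PowerSeries.mk fun n => if n = 0 then 0 else Sx x y n

/-- the sum-decomposable part -/
def GD : R⟦X⟧ := PowerSeries.mk fun n => Dx x y n

lemma GS_swap : GS x y = GS y x := by
  ext n; simp only [GS, coeff_mk, Sx_swap x y]

lemma GD_eq : GD x y = C y * (GS x y - GD x y) * GS x y := by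
  ext n
  rw [mul_assoc, coeff_C_mul, coeff_mul, Finset.Nat.sum_antidiagonal_eq_sum_range_succ_mk]
  simp only [GD, GS, coeff_mk, map_sub]
  rw [Dx_rec, Finset.mul_sum]
  have hsub : Ico 1 n ⊆ range n.succ := by
    intro p hp; rw [mem_Ico] at hp; rw [mem_range]; omega
  rw [← Finset.sum_subset hsub]
  · refine Finset.sum_congr rfl fun p hp => ?_
    rw [mem_Ico] at hp
    rw [if_neg (by omega), if_neg (by omega), ← Dx_add_Ix x y p]; ring
  · intro p hp hnp
    rw [mem_range] at hp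
    rw [mem_Ico] at hnp
    rcases Nat.eq_zero_or_pos p with h | h
    · subst h; rw [if_pos rfl, Dx_small x y (by omega)]; simp
    · have : n - p = 0 := by omega
      rw [if_pos this]; simp

lemma GS_eq : GS x y = X + GD x y + GD y x := by
  ext n
  rw [map_add, map_add, coeff_X, GS, GD, GD, coeff_mk, coeff_mk, coeff_mk]
  rcases Nat.lt_or_ge n 2 with h | h
  · rw [Dx_small x y h, Dx_small y x h]
    have h01 : n = 0 ∨ n = 1 := by omega
    rcases h01 with rfl | rfl
    · simp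
    · simp [Sx_one]
  · rw [if_neg (by omega), if_neg (by omega), Sx_eq x y h]; ring

/-- functional equation of the generating series -/
theorem GS_fun : GS x y * (1 - C (x*y) * GS x y ^ 2)
    = X * (1 + C (x+y) * GS x y + C (x*y) * GS x y ^ 2) := by
  have h1 := GD_eq x y
  have h2 := GD_eq y x
  rw [← GS_swap x y] at h2
  have h3 := GS_eq x y
  rw [map_mul, map_add]
  set S := GS x y
  set P := GD x y
  set M := GD y x
  linear_combination (1 + C y * S) * (1 + C x * S) * h3 + (1 + C x * S) * h1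
    + (1 + C y * S) * h2

lemma GS_const : constantCoeff (GS x y) = 0 := by
  rw [← coeff_zero_eq_constantCoeff_apply, GS, coeff_mk, if_pos rfl]

lemma sepPoly_eq (n : ℕ) : sepPoly n = Sx (Polynomial.X : Polynomial ℤ) 1 n := by
  rw [sepPoly, Sx]
  simp [wt]

end

end Pool.Agent.Lib.MP_f98a08_co
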