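import Mathlib
import Pool.Agent.Lib.MP_f98a08_co.Defs
import Pool.Agent.Lib.MP_f98a08_co.SepCount
import Pool.Agent.Lib.MP_f98a08_co.Num

/-! Gamma coefficients of the descent polynomial of separable permutations. -/

open Finset Polynomial

namespace Pool.Agent.Lib.MP_f98a08_co

noncomputable section

lemma coeff_gam (k n j : ℕ) : (X^k * (1+X)^n : ℤ[X]).coeff j
    = if k ≤ j then (n.choose (j-k) : ℤ) else 0 := by
  rw [coeff_X_pow_mul']
  split_ifs
  · rw [coeff_one_add_X_pow]
  · rfl

lemma uniq {n : ℕ} {c : ℕ → ℤ}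
    (h : ∑ k ∈ (range (n+1)).filter (fun k => 2*k ≤ n), C (c k) * (X^k * (1+X)^(n-2*k)) = 0)
    {k : ℕ} (hk : 2*k ≤ n) : c k = 0 := by
  induction k using Nat.strong_induction_on with
  | _ k ih =>
    have h2 := congrArg (fun p => coeff p k) h
    simp only [finsetSum_coeff, coeff_C_mul, coeff_gam, coeff_zero] at h2
    rw [Finset.sum_eq_single k] at h2
    · simpa using h2
    · intro j hj hne
      rw [mem_filter] at hj
      rcases lt_or_gt_of_ne hne with h3 | h3
      · rw [ih j h3 hj.2, zero_mul]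
      · rw [if_neg (by omega), mul_zero]
    · intro h3; exfalso; apply h3; rw [mem_filter, mem_range]; omega

lemma sep_expand (n : ℕ) : ((n:ℤ[X])+1) * sepPoly (n+1)
    = ∑ k ∈ (range (n+1)).filter (fun k => 2*k ≤ n), C (Bt n k : ℤ) * (X^k * (1+X)^(n-2*k)) := by
  have h1 := GS_fun (R := ℤ[X]) X 1
  have h2 := lag_sep (R := ℤ[X]) (X+1) (X*1) (GS X 1) (GS_const X 1) h1 n
  have h3 : PowerSeries.coeff (n+1) (GS (X:ℤ[X]) 1) = sepPoly (n+1) := by
    rw [GS, PowerSeries.coeff_mk, if_neg (Nat.succ_ne_zero n), sepPoly_eq]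
  rw [h3] at h2
  rw [h2]
  refine Finset.sum_congr rfl fun k _ => ?_
  rw [mul_one, add_comm X 1, ← Bt]
  simp

theorem sepGamma_eq {n : ℕ} {g : ℕ → ℤ} (h : IsSeparableGamma (n+1) g) {k : ℕ} (hk : 2*k ≤ n) :
    ((n:ℤ)+1) * g k = Bt n k := by
  have h1 := sep_expand n
  rw [IsSeparableGamma, Nat.add_sub_cancel] at h
  rw [h, Finset.mul_sum] at h1
  have h2 : ∑ k ∈ (range (n+1)).filter (fun k => 2*k ≤ n),
      C (((n:ℤ)+1) * g k - Bt n k) * (X^k * (1+X)^(n-2*k)) = 0 := by
    rw [← sub_eq_zero, ← Finset.sum_sub_distrib] at h1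
    rw [← h1]
    refine Finset.sum_congr rfl fun k _ => ?_
    rw [C_sub, C_mul, C_add, C_1]
    simp only [map_natCast]
    ring
  have := uniq h2 hk
  linarith

/-! ### existence -/

/-- span of the gamma basis -/
def GP (m : ℕ) : Submodule ℤ ℤ[X] := Submodule.span ℤ {P | ∃ k, 2*k ≤ m ∧ P = X^k * (1+X)^(m-2*k)}

lemma GP_mul {a b : ℕ} {P Q : ℤ[X]} (hP : P ∈ GP a) (hQ : Q ∈ GP b) : P * Q ∈ GP (a+b) := by
  have h := Submodule.mul_mem_mul hP hQ
  rw [GP, GP, Submodule.span_mul_span] at h
  refine Submodule.span_mono ?_ h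
  rintro _ ⟨_, ⟨k, hk, rfl⟩, _, ⟨l, hl, rfl⟩, rfl⟩
  refine ⟨k+l, by omega, ?_⟩
  have : a + b - 2*(k+l) = (a - 2*k) + (b - 2*l) := by omega
  rw [this, pow_add, pow_add]
  dsimp only
  ring

lemma GP_one : (1 : ℤ[X]) ∈ GP 0 := Submodule.subset_span ⟨0, by omega, by simp⟩
lemma GP_u : (1 + X : ℤ[X]) ∈ GP 1 := Submodule.subset_span ⟨0, by omega, by simp⟩
lemma GP_t : (X : ℤ[X]) ∈ GP 2 := Submodule.subset_span ⟨1, by omega, by simp⟩

lemma GP_exists {m : ℕ} {P : ℤ[X]} (hP : P ∈ GP m) : ∃ g : ℕ → ℤ,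
    P = ∑ k ∈ (range (m+1)).filter (fun k => 2*k ≤ m), C (g k) * X^k * (1+X)^(m-2*k) := by
  induction hP using Submodule.span_induction with
  | mem x hx =>
    obtain ⟨k, hk, rfl⟩ := hx
    refine ⟨Pi.single k 1, ?_⟩
    rw [Finset.sum_eq_single k]
    · simp
    · intro j _ hj; rw [Pi.single_eq_of_ne hj]; simp
    · intro h; exfalso; apply h; rw [mem_filter, mem_range]; omega
  | zero => exact ⟨0, by simp⟩
  | add x y _ _ hx hy =>
    obtain ⟨g, hg⟩ := hx
    obtain ⟨g', hg'⟩ := hy
    refine ⟨g + g', ?_⟩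
    rw [hg, hg', ← Finset.sum_add_distrib]
    refine Finset.sum_congr rfl fun k _ => ?_
    rw [Pi.add_apply, C_add]; ring
  | smul a x _ hx =>
    obtain ⟨g, hg⟩ := hx
    refine ⟨fun k => a * g k, ?_⟩
    rw [hg, Finset.smul_sum]
    refine Finset.sum_congr rfl fun k _ => ?_
    rw [C_mul, smul_eq_C_mul]; ring

lemma sep_mem (n : ℕ) : ∀ m, m ≤ n → PowerSeries.coeff (m+1) (GS (X:ℤ[X]) 1) ∈ GP m := by
  set S := GS (X:ℤ[X]) 1 with hS
  have h0 : PowerSeries.coeff 0 S = 0 := by
    rw [PowerSeries.coeff_zero_eq_constantCoeff_apply]; exact GS_const X 1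
  have hf : S = PowerSeries.C X * (S * (S * S)) + PowerSeries.X
      + PowerSeries.X * (PowerSeries.C (1+X) * S) + PowerSeries.X * (PowerSeries.C X * (S * S)) := by
    have h1 := GS_fun (R := ℤ[X]) X 1
    rw [mul_one, add_comm X 1, ← hS] at h1
    linear_combination h1
  have main : ∀ n, PowerSeries.coeff (n+1) S ∈ GP n := by
    intro n
    induction n using Nat.strong_induction_on with
    | _ n ih =>
      -- squares
      have hsq : ∀ m, m ≤ n → PowerSeries.coeff (m+1) (S*S) ∈ GP (m-1) ∧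
          (m = 0 → PowerSeries.coeff (m+1) (S*S) = 0) := by
        intro m hm
        rw [PowerSeries.coeff_mul]
        constructor
        · apply Submodule.sum_mem
          rintro ⟨a, b⟩ hab
          have hab' : a + b = m + 1 := mem_antidiagonal.mp hab
          dsimp only
          rcases Nat.eq_zero_or_pos a with ha | ha
          · subst ha; rw [h0, zero_mul]; exact Submodule.zero_mem _
          rcases Nat.eq_zero_or_pos b with hb | hb
          · subst hb; rw [h0, mul_zero]; exact Submodule.zero_mem _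
          obtain ⟨a, rfl⟩ : ∃ a', a = a' + 1 := ⟨a-1, by omega⟩
          obtain ⟨b, rfl⟩ : ∃ b', b = b' + 1 := ⟨b-1, by omega⟩
          have := GP_mul (ih a (by omega)) (ih b (by omega))
          have e : a + b = m - 1 := by omega
          rwa [e] at this
        · intro h
          subst h
          simp [Finset.Nat.antidiagonal_succ, h0]
      have hsq0 : PowerSeries.coeff 0 (S*S) = 0 := by
        rw [PowerSeries.coeff_mul]; simp [h0]
      rw [hf, map_add, map_add, map_add, PowerSeries.coeff_C_mul, PowerSeries.coeff_succ_X_mul,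
        PowerSeries.coeff_succ_X_mul, PowerSeries.coeff_C_mul, PowerSeries.coeff_C_mul]
      refine Submodule.add_mem _ (Submodule.add_mem _ (Submodule.add_mem _ ?_ ?_) ?_) ?_
      · rw [PowerSeries.coeff_mul, Finset.mul_sum]
        apply Submodule.sum_mem
        rintro ⟨a, b⟩ hab
        have hab' : a + b = n + 1 := mem_antidiagonal.mp hab
        dsimp only
        rcases Nat.eq_zero_or_pos a with ha | ha
        · subst ha; rw [h0, zero_mul, mul_zero]; exact Submodule.zero_mem _
        rcases Nat.eq_zero_or_pos b with hb | hb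
        · subst hb; rw [hsq0, mul_zero, mul_zero]; exact Submodule.zero_mem _
        obtain ⟨a, rfl⟩ : ∃ a', a = a' + 1 := ⟨a-1, by omega⟩
        obtain ⟨b, rfl⟩ : ∃ b', b = b' + 1 := ⟨b-1, by omega⟩
        rcases Nat.eq_zero_or_pos b with hb2 | hb2
        · rw [(hsq b (by omega)).2 hb2, mul_zero, mul_zero]; exact Submodule.zero_mem _
        have := GP_mul GP_t (GP_mul (ih a (by omega)) (hsq b (by omega)).1)
        have e : 2 + (a + (b - 1)) = n := by omega
        rwa [e] at this
      · rw [PowerSeries.coeff_X]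
        split_ifs with h
        · have : n = 0 := by omega
          subst this; exact GP_one
        · exact Submodule.zero_mem _
      · cases n with
        | zero => rw [h0, mul_zero]; exact Submodule.zero_mem _
        | succ n =>
          have := GP_mul GP_u (ih n (by omega))
          rwa [add_comm 1 n] at this
      · cases n with
        | zero => rw [hsq0, mul_zero]; exact Submodule.zero_mem _
        | succ n =>
          rcases Nat.eq_zero_or_pos n with hn | hn
          · rw [(hsq n (by omega)).2 hn, mul_zero]; exact Submodule.zero_mem _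
          have := GP_mul GP_t (hsq n (by omega)).1
          have e : 2 + (n - 1) = n + 1 := by omega
          rwa [e] at this
  exact fun m _ => main m

theorem exists_sepGamma (n : ℕ) : ∃ g : ℕ → ℤ, IsSeparableGamma (n+1) g := by
  have h := sep_mem n n le_rfl
  have h3 : PowerSeries.coeff (n+1) (GS (X:ℤ[X]) 1) = sepPoly (n+1) := by
    rw [GS, PowerSeries.coeff_mk, if_neg (Nat.succ_ne_zero n), sepPoly_eq]
  rw [h3] at h
  obtain ⟨g, hg⟩ := GP_exists h
  exact ⟨g, by rw [IsSeparableGamma, Nat.add_sub_cancel]; exact hg⟩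

end

end Pool.Agent.Lib.MP_f98a08_co
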