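import Mathlib
import Pool.Agent.Lib.MP_f98a08_co.SepGamma
import Pool.Agent.Lib.MP_f98a08_co.BiGamma

/-! The comparison of the two families of gamma coefficients. -/

namespace Pool.Agent.Lib.MP_f98a08_co

theorem main_le {m : ℕ} {γ : ℕ → ℕ → ℤ} {g : ℕ → ℤ} (hγ : IsTwoSidedGamma (m+1) γ)
    (hg : IsSeparableGamma (m+1) g) {k : ℕ} (hk : 2*k ≤ m) : g k ≤ γ k (m - 2*k) := by
  have h1 := gamma_eq hγ hk
  have h2 := sepGamma_eq hg hk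
  have h3 := Bt_le hk
  rw [AA', ← h1] at h3
  have h4 : ((m:ℝ)+1) * (g k : ℝ) = (Bt m k : ℝ) := by exact_mod_cast h2
  rw [← h4] at h3
  have h5 : (g k : ℝ) ≤ (γ k (m-2*k) : ℝ) := le_of_mul_le_mul_left h3 (by positivity)
  exact_mod_cast h5

theorem main (n : ℕ) (hn : 1 ≤ n) :
    (∃ γ, IsTwoSidedGamma n γ) ∧ (∃ g, IsSeparableGamma n g) ∧
    ∀ γ g, IsTwoSidedGamma n γ → IsSeparableGamma n g →
      ∀ k, 2 * k ≤ n - 1 → g k ≤ γ k (n - 1 - 2 * k) := by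
  obtain ⟨m, rfl⟩ : ∃ m, n = m + 1 := ⟨n-1, by omega⟩
  refine ⟨exists_biGamma m, exists_sepGamma m, fun γ g hγ hg k hk => ?_⟩
  exact main_le hγ hg hk

end Pool.Agent.Lib.MP_f98a08_co
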